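import Pool.Agent.Lib.MP_12eaff_co.Frz.BK.Greedy

set_option autoImplicit false
set_option linter.unusedSectionVars false

namespace Pool.Agent.Lib.MP_12eaff_co.Frz.BK

open Finset
open scoped Classical

variable {V : Type} [Fintype V] {G : SimpleGraph V} {D : ℕ}

/-- `X` has a proper colouring from the lists `L`. -/
def LC (G : SimpleGraph V) (X : Finset V) (L : V → Finset ℕ) : Prop :=
  ∃ φ : V → ℕ, (∀ v ∈ X, φ v ∈ L v) ∧ ∀ u ∈ X, ∀ v ∈ X, G.Adj u v → φ u ≠ φ v

/-- Deletion-critical graphs. -/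
structure CR (G : SimpleGraph V) (D : ℕ) : Prop where
  deg : ∀ v, (nb G v).card ≤ D + 1
  ncol : ¬ Colr G D
  del : ∀ (X : Finset V) x y, x ∈ X → G.Adj y x → ∃ c, PCol G D c ∧ ∀ v, c v < D ↔ v ∉ X

theorem MC.cr (h : MC G D) : CR G D := ⟨h.deg, h.ncol, fun X _ _ hx a => col_del h X hx a⟩

/-- Every counterexample contains a deletion-critical one. -/
theorem exists_cr (G : SimpleGraph V) (hd : ∀ v, (nb G v).card ≤ D + 1) (hn : ¬ Colr G D) :
    ∃ G' ≤ G, CR G' D := by
  induction e : G.support.ncard using Nat.strong_induction_on generalizing G with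
  | _ n ih =>
    by_cases k : ∀ G' ≤ G, G'.support ⊂ G.support → Colr G' D
    · refine ⟨G, le_rfl, hd, hn, fun X x y hx a => ?_⟩
      let G' : SimpleGraph V :=
        { Adj := fun a b => G.Adj a b ∧ a ∉ X ∧ b ∉ X
          symm := ⟨fun a b h => ⟨h.1.symm, h.2.2, h.2.1⟩⟩
          loopless := ⟨fun a h => h.1.ne rfl⟩ }
      obtain ⟨c, c1, c2⟩ := k G' (fun _ _ h => h.1) ⟨fun v ⟨w, hw⟩ => ⟨w, hw.1⟩,
        fun h => by obtain ⟨w, hw⟩ := h (show x ∈ G.support from ⟨y, a.symm⟩); exact hw.2.1 hx⟩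
      refine ⟨fun v => if v ∈ X then D else c v, fun u v huv hu => ?_, fun v => ?_⟩
      · have := c1 u
        dsimp only at hu ⊢
        split_ifs at hu ⊢ with h1 h2 h2
        all_goals first | omega | exact c2 u v ⟨huv, h1, h2⟩
      · have := c1 v
        dsimp only
        split_ifs with h1 <;> simp [h1, this]
    · push Not at k
      obtain ⟨G', k1, k2, k3⟩ := k
      obtain ⟨G'', k4, k5⟩ := ih _ (e ▸ Set.ncard_lt_ncard k2 (Set.toFinite _)) G'
        (fun v => (card_le_card fun x hx => mem_nb.2 (k1 (mem_nb.1 hx))).trans (hd v)) k3 rfl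
      exact ⟨G'', k4.trans k1, k5⟩

/-- In a critical graph some lists of size degree minus one inside `range D` are bad. -/
theorem CR.bad (h : CR G D) (X : Finset V) {x y : V} (hx : x ∈ X) (a : G.Adj y x) :
    ∃ L : V → Finset ℕ, (∀ v, L v ⊆ range D) ∧ (∀ v, (nb G v ∩ X).card ≤ (L v).card + 1) ∧
      ¬ LC G X L := by
  obtain ⟨c, c1, c2⟩ := h.del X x y hx a
  refine ⟨fun v => range D \ (nb G v \ X).image c, fun v => sdiff_subset, fun v => ?_, ?_⟩
  · have h1 := le_card_sdiff ((nb G v \ X).image c) (range D)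
    have h2 := card_image_le (s := nb G v \ X) (f := c)
    have h3 := card_sdiff_add_card_inter (nb G v) X
    have h4 := h.deg v
    rw [card_range] at h1
    dsimp only
    omega
  · rintro ⟨φ, p1, p2⟩
    have q : ∀ u ∈ X, ∀ v, v ∉ X → G.Adj u v → φ u ≠ c v := fun u hu v hv e k =>
      (mem_sdiff.1 (p1 u hu)).2 (mem_image.2 ⟨v, mem_sdiff.2 ⟨mem_nb.2 e, hv⟩, k.symm⟩)
    refine h.ncol ⟨fun v => if v ∈ X then φ v else c v, fun v => ?_, fun u v e => ?_⟩
    · dsimp only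
      split_ifs with k
      exacts [mem_range.1 (mem_sdiff.1 (p1 v k)).1, (c2 v).2 k]
    · dsimp only
      split_ifs with k1 k2 k2
      exacts [p2 u k1 v k2 e, q u k1 v k2 e, (q v k2 u k1 e.symm).symm, c1 u v e ((c2 u).2 k1)]

/-- Hall's theorem on a finset. -/
theorem sdr (X : Finset V) (L : V → Finset ℕ) (h : ∀ S ⊆ X, S.card ≤ (S.biUnion L).card) :
    ∃ φ : V → ℕ, (∀ v ∈ X, φ v ∈ L v) ∧ Set.InjOn φ X := by
  obtain ⟨f, f1, f2⟩ := (all_card_le_biUnion_card_iff_exists_injective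
    (fun v : X => L v)).1 fun s => by
      have := h (s.image Subtype.val) fun x k => by
        obtain ⟨y, -, rfl⟩ := mem_image.1 k
        exact y.2
      rwa [card_image_of_injective _ Subtype.val_injective, image_biUnion] at this
  refine ⟨fun v => if k : v ∈ X then f ⟨v, k⟩ else 0, fun v k => by simpa [k] using f2 ⟨v, k⟩,
    fun u hu v hv e => ?_⟩
  simp only [mem_coe] at hu hv
  simpa [hu, hv, f1.eq_iff] using e

/-- Small pot lemma. -/
theorem small_pot {X : Finset V} {f : V → ℕ} (hf : ∀ v ∈ X, f v < X.card)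
    (h : ∀ L : V → Finset ℕ, (∀ v ∈ X, f v ≤ (L v).card) → (X.biUnion L).card < X.card →
      LC G X L) (L : V → Finset ℕ) (hL : ∀ v ∈ X, f v ≤ (L v).card) : LC G X L := by
  by_cases k : ∀ S ⊆ X, S.card ≤ (S.biUnion L).card
  · obtain ⟨φ, p1, p2⟩ := sdr X L k
    exact ⟨φ, p1, fun u hu v hv e q => e.ne (p2 hu hv q)⟩
  push Not at k
  obtain ⟨S, hS, mx⟩ := exists_max_image (X.powerset.filter fun S => (S.biUnion L).card < S.card)
    card (by obtain ⟨S, k1, k2⟩ := k; exact ⟨S, mem_filter.2 ⟨mem_powerset.2 k1, k2⟩⟩)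
  obtain ⟨s1, s2⟩ := mem_filter.1 hS
  rw [mem_powerset] at s1
  obtain ⟨ψ, q1, q2⟩ := sdr (X \ S) (fun v => L v \ S.biUnion L) fun T hT => by
    by_contra n
    have d : Disjoint S T := disjoint_left.2 fun x a b => (mem_sdiff.1 (hT b)).2 a
    have e : (S ∪ T).biUnion L ⊆ S.biUnion L ∪ T.biUnion fun v => L v \ S.biUnion L := by
      intro γ hγ
      obtain ⟨v, v1, v2⟩ := mem_biUnion.1 hγ
      by_cases z : γ ∈ S.biUnion L
      · exact mem_union_left _ z
      · exact mem_union_right _ (mem_biUnion.2 ⟨v, (mem_union.1 v1).resolve_left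
          fun y => z (mem_biUnion.2 ⟨v, y, v2⟩), mem_sdiff.2 ⟨v2, z⟩⟩)
    have := (card_le_card e).trans (card_union_le _ _)
    have := mx (S ∪ T) (mem_filter.2 ⟨mem_powerset.2 (union_subset s1 (hT.trans sdiff_subset)),
      by rw [card_union_of_disjoint d]; omega⟩)
    rw [card_union_of_disjoint d] at this
    omega
  have := card_le_card s1
  obtain ⟨A, a1, a2⟩ := Infinite.exists_superset_card_eq (S.biUnion L) (X.card - 1) (by omega)
  obtain ⟨φ, p1, p2⟩ := h (fun v => if v ∈ S then L v else A) (fun v hv => by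
      have := hL v hv
      have := hf v hv
      split_ifs <;> omega) (by
      refine lt_of_le_of_lt (card_le_card (t := A) (biUnion_subset.2 fun v _ => ?_)) (by omega)
      split_ifs with z
      exacts [(subset_biUnion_of_mem L z).trans a1, Subset.rfl])
  have p3 : ∀ v ∈ S, φ v ∈ L v := fun v hv => by simpa [hv] using p1 v (s1 hv)
  have q : ∀ u ∈ S, ∀ v ∈ X, v ∉ S → φ u ≠ ψ v := fun u hu v hv n e =>
    (mem_sdiff.1 (q1 v (mem_sdiff.2 ⟨hv, n⟩))).2 (mem_biUnion.2 ⟨u, hu, e ▸ p3 u hu⟩)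
  refine ⟨fun v => if v ∈ S then φ v else ψ v, fun v hv => ?_, fun u hu v hv e => ?_⟩
  · dsimp only
    split_ifs with z
    exacts [p3 v z, (mem_sdiff.1 (q1 v (mem_sdiff.2 ⟨hv, z⟩))).1]
  · dsimp only
    split_ifs with k1 k2 k2
    exacts [p2 u hu v hv e, q u k1 v hv k2, (q v k2 u hu k1).symm,
      fun z => e.ne (q2 (by simp [hu, k1]) (by simp [hv, k2]) z)]

/-- A critical graph has bad lists with a small pot. -/
theorem CR.pot (h : CR G D) (X : Finset V) {x y : V} (hx : x ∈ X) (a : G.Adj y x) :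
    ∃ L : V → Finset ℕ, (X.biUnion L).card < X.card ∧
      (∀ v ∈ X, (nb G v ∩ X).card ≤ (L v).card + 1) ∧ ¬ LC G X L := by
  by_contra! k
  obtain ⟨L, _, l2, l3⟩ := h.bad X hx a
  refine l3 (small_pot (f := fun v => (nb G v ∩ X).card - 1) (fun v hv => ?_)
    (fun L' a b => k L' b fun v hv => by have := a v hv; omega) L fun v _ => by
      have := l2 v; omega)
  have := card_le_card (inter_subset_right (s₁ := nb G v) (s₂ := X))
  have := card_pos.2 ⟨x, hx⟩
  omega

/-- Colouring a core after the rest has been coloured with the colours `Γ`. -/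
theorem LC.core {K B : Finset V} {L : V → Finset ℕ} (Γ : Finset ℕ) (φ : V → ℕ)
    (d : Disjoint K B) (p1 : ∀ v ∈ B, φ v ∈ L v ∧ φ v ∈ Γ)
    (p2 : ∀ u ∈ B, ∀ v ∈ B, G.Adj u v → φ u ≠ φ v)
    (h1 : ∀ k ∈ K, K.card + Γ.card ≤ (L k).card + 1) (h2 : K.card ≤ (K.biUnion L \ Γ).card) :
    LC G (K ∪ B) L := by
  obtain ⟨ψ, q1, q2⟩ := sdr K (fun v => L v \ Γ) fun S hS => by
    rcases S.eq_empty_or_nonempty with e | ⟨k, hk⟩
    · simp [e]
    by_cases e : S = K
    · rw [e]
      refine h2.trans (card_le_card fun γ hγ => ?_)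
      obtain ⟨g1, g2⟩ := mem_sdiff.1 hγ
      obtain ⟨v, v1, v2⟩ := mem_biUnion.1 g1
      exact mem_biUnion.2 ⟨v, v1, mem_sdiff.2 ⟨v2, g2⟩⟩
    · have := card_lt_card (hS.ssubset_of_ne e)
      have := h1 k (hS hk)
      have := le_card_sdiff Γ (L k)
      have := card_le_card (subset_biUnion_of_mem (fun v => L v \ Γ) hk)
      omega
  have q : ∀ u ∈ K, ∀ v ∈ B, ψ u ≠ φ v := fun u hu v hv e =>
    (mem_sdiff.1 (q1 u hu)).2 (e ▸ (p1 v hv).2)
  have m : ∀ v ∈ K ∪ B, v ∉ K → v ∈ B := fun v a b => (mem_union.1 a).resolve_left b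
  refine ⟨fun v => if v ∈ K then ψ v else φ v, fun v hv => ?_, fun u hu v hv e => ?_⟩
  · dsimp only
    split_ifs with z
    exacts [(mem_sdiff.1 (q1 v z)).1, (p1 v (m v hv z)).1]
  · dsimp only
    split_ifs with k1 k2 k2
    exacts [fun z => e.ne (q2 k1 k2 z), q u k1 v (m v hv k2), (q v k2 u (m u hu k1)).symm,
      p2 u (m u hu k1) v (m v hv k2) e]

end Pool.Agent.Lib.MP_12eaff_co.Frz.BK
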