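import Pool.Agent.Lib.MP_12eaff_co.Frz.AT

set_option autoImplicit false

/-!
Joins of a clique with a small graph that cannot occur in a critical graph.
-/

namespace Pool.Agent.Lib.MP_12eaff_co.Frz.AT

open Finset BK
open scoped Classical

variable {V : Type} [Fintype V] {G : SimpleGraph V} {D : ℕ}

/-- The pairs of the second part. -/
def sh (t : ℕ) {m : ℕ} (R : List (Fin m × Fin m)) : List (Fin (t + m) × Fin (t + m)) :=
  R.map fun p => (Fin.natAdd t p.1, Fin.natAdd t p.2)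

/-- The edges of the join of a clique of size `t` with `R`. -/
def jn (t : ℕ) {m : ℕ} (R : List (Fin m × Fin m)) : List (Fin (t + m) × Fin (t + m)) :=
  ((prs (t + m)).filter fun p => Nat.blt p.1.val t) ++ sh t R

theorem lt_of_prs {n : ℕ} {p : Fin n × Fin n} (h : p ∈ prs n) : p.1 < p.2 := by
  simp only [prs, List.mem_flatMap, List.mem_map, List.mem_filter, Nat.blt_eq] at h
  obtain ⟨i, -, j, ⟨-, l⟩, rfl⟩ := h
  exact l

omit [Fintype V] in
/-- The embedding of a join. -/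
theorem join_emb {W : Finset V} (hW : IsClq G W) {t m : ℕ} (ht : t ≤ #W) (ψ : Fin m → V)
    (inj : Function.Injective ψ) (hx : ∀ w ∈ W, ∀ i, G.Adj w (ψ i)) :
    ∃ φ : Fin (t + m) → V, Function.Injective φ ∧ (∀ i, φ (Fin.natAdd t i) = ψ i) ∧
      (∀ i, φ (Fin.castAdd m i) ∈ W) ∧ ∀ R : List (Fin m × Fin m),
        (∀ p ∈ R, G.Adj (ψ p.1) (ψ p.2)) → ∀ p ∈ jn t R, G.Adj (φ p.1) (φ p.2) := by
  let e : Fin t → V := fun i => W.equivFin.symm (i.castLE ht)
  have e1 : ∀ i, e i ∈ W := fun i => (W.equivFin.symm (i.castLE ht)).2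
  have e2 : Function.Injective e := fun i j q =>
    Fin.castLE_injective ht (W.equivFin.symm.injective (Subtype.ext q))
  refine ⟨Fin.append e ψ, Fin.append_injective_iff.2 ⟨e2, inj, fun i j => (hx _ (e1 i) j).ne⟩,
    fun i => Fin.append_right _ _ i, fun i => by simpa using e1 i, fun R hR p hp => ?_⟩
  rcases List.mem_append.1 hp with q | q
  · obtain ⟨q1, q2⟩ := List.mem_filter.1 q
    have l := lt_of_prs q1
    obtain ⟨i, j⟩ := p
    simp only [Nat.blt_eq] at q2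
    induction i using Fin.addCases with
    | left i =>
      induction j using Fin.addCases with
      | left j =>
        simp only [Fin.append_left]
        exact hW _ (e1 i) _ (e1 j) (e2.ne fun z => by simp [z] at l)
      | right j => simpa using hx _ (e1 i) j
    | right i => simp at q2
  · obtain ⟨r, hr, rfl⟩ := List.mem_map.1 q
    simpa using hR r hr

/-- The check for the join of a clique with a graph on `m` vertices. -/
theorem chk_join (h : CR G D) {W : Finset V} (hW : IsClq G W) (t : ℕ) {m : ℕ} (ht : t ≤ #W)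
    (ψ : Fin m → V) (inj : Function.Injective ψ) (hx : ∀ w ∈ W, ∀ i, G.Adj w (ψ i))
    (R N : List (Fin m × Fin m)) (r0 : jn t R ≠ []) (hR : ∀ p ∈ R, G.Adj (ψ p.1) (ψ p.2))
    (hN : ∀ p ∈ N, ¬ G.Adj (ψ p.1) (ψ p.2)) (C : List ℕ)
    (k : chk (fun _ => 0) (fun _ => false) (jn t R) (sh t N) C = true) : False := by
  obtain ⟨φ, f1, f2, -, f3⟩ := join_emb hW ht ψ inj hx
  refine chk_cr h φ f1 _ (sh t N) r0 (f3 R hR) (fun p hp => ?_) C k
  obtain ⟨r, hr, rfl⟩ := List.mem_map.1 hp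
  simpa [f2] using hN r hr

/-- No two disjoint non-edges in the common neighbourhood of a `K4`. -/
theorem k4two (h : CR G D) {W : Finset V} (hW : IsClq G W) (h4 : 4 ≤ #W) {a b c d : V}
    (hx : ∀ w ∈ W, G.Adj w a ∧ G.Adj w b ∧ G.Adj w c ∧ G.Adj w d) (ab : a ≠ b) (cd : c ≠ d)
    (ac : a ≠ c) (ad : a ≠ d) (bc : b ≠ c) (bd : b ≠ d) (n : ¬ G.Adj a b) (n' : ¬ G.Adj c d) :
    False :=
  chk_join h hW 4 h4 ![a, b, c, d]
    (inj_of (G := G) _ [] [(0, 1), (0, 2), (0, 3), (1, 2), (1, 3), (2, 3)] (by simp) (by simp [*])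
      (by decide))
    (fun w hw => by simpa [Fin.forall_fin_succ] using hx w hw) [] [(0, 1), (2, 3)] (by decide)
    (by simp) (by simp [*])
    [572662597, 573711173, 573711173, 859984944, 572728133, 1110660144, 573776709, 1128420400,
      572728133, 573776709, 607343664, 876762160, 858018864, 1126454320, 874796080, 1145324801]
    (by decide +kernel)

/-- No independent triple in the common neighbourhood of a `K6`. -/
theorem k6e3 (h : CR G D) {W : Finset V} (hW : IsClq G W) (h6 : 6 ≤ #W) {a b c : V}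
    (hx : ∀ w ∈ W, G.Adj w a ∧ G.Adj w b ∧ G.Adj w c) (ab : a ≠ b) (ac : a ≠ c) (bc : b ≠ c)
    (n1 : ¬ G.Adj a b) (n2 : ¬ G.Adj a c) (n3 : ¬ G.Adj b c) : False :=
  chk_join h hW 6 h6 ![a, b, c]
    (inj_of (G := G) _ [] [(0, 1), (0, 2), (1, 2)] (by simp) (by simp [*]) (by decide))
    (fun w hw => by simpa [Fin.forall_fin_succ] using hx w hw) [] [(0, 1), (0, 2), (1, 2)]
    (by decide) (by simp) (by simp [*]) [18324280353] (by decide +kernel)

/-- No induced path `a b c d` in the common neighbourhood of a triangle. -/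
theorem k3p4 (h : CR G D) {W : Finset V} (hW : IsClq G W) (h3 : 3 ≤ #W) {a b c d : V}
    (hx : ∀ w ∈ W, G.Adj w a ∧ G.Adj w b ∧ G.Adj w c ∧ G.Adj w d) (ab : G.Adj a b)
    (bc : G.Adj b c) (cd : G.Adj c d) (ac : ¬ G.Adj a c) (ad : ¬ G.Adj a d) (bd : ¬ G.Adj b d) :
    False :=
  chk_join h hW 3 h3 ![a, b, c, d]
    (inj_of (G := G) _ [(0, 1), (1, 2), (2, 3)] [(0, 2), (0, 3), (1, 3)] (by simp [*])
      (by
        have : a ≠ c := fun z => ad (z ▸ cd)
        have : a ≠ d := fun z => ac (z ▸ cd.symm)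
        have : b ≠ d := fun z => ad (z ▸ ab)
        simp [*])
      (by decide))
    (fun w hw => by simpa [Fin.forall_fin_succ] using hx w hw) [(0, 1), (1, 2), (2, 3)]
    [(0, 2), (0, 3), (1, 3)] (by decide) (by simp [*]) (by simp [*]) [36901938]
    (by decide +kernel)

/-- No induced cycle `a c b d` in the common neighbourhood of an edge. -/
theorem k2c4 (h : CR G D) {W : Finset V} (hW : IsClq G W) (h2 : 2 ≤ #W) {a b c d : V}
    (hx : ∀ w ∈ W, G.Adj w a ∧ G.Adj w b ∧ G.Adj w c ∧ G.Adj w d) (ab : a ≠ b) (cd : c ≠ d)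
    (ac : G.Adj a c) (ad : G.Adj a d) (bc : G.Adj b c) (bd : G.Adj b d) (n : ¬ G.Adj a b)
    (n' : ¬ G.Adj c d) : False :=
  chk_join h hW 2 h2 ![a, b, c, d]
    (inj_of (G := G) _ [(0, 2), (0, 3), (1, 2), (1, 3)] [(0, 1), (2, 3)] (by simp [*])
      (by simp [*]) (by decide))
    (fun w hw => by simpa [Fin.forall_fin_succ] using hx w hw) [(0, 2), (0, 3), (1, 2), (1, 3)]
    [(0, 1), (2, 3)] (by decide) (by simp [*]) (by simp [*]) [2236963] (by decide +kernel)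

/-- The common neighbourhood of a `K4` is almost complete, or an independent triple with at most
one more vertex. -/
theorem k4nb (h : CR G D) {W B : Finset V} (hW : IsClq G W) (h4 : 4 ≤ W.card)
    (hB : ∀ b ∈ B, ∀ w ∈ W, G.Adj w b) : (∃ u, IsClq G (B.erase u)) ∨
      ∃ a ∈ B, ∃ b ∈ B, ∃ c ∈ B, a ≠ b ∧ a ≠ c ∧ b ≠ c ∧ ¬ G.Adj a b ∧ ¬ G.Adj a c ∧ ¬ G.Adj b c ∧
        (∀ x ∈ B, x ≠ a → x ≠ b → x ≠ c → ∀ y ∈ B, y ≠ x → G.Adj x y) ∧ W.card + B.card ≤ 8 := by
  rw [or_iff_not_imp_left]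
  intro n
  have ne : ∀ u, ∃ c ∈ B, ∃ d ∈ B, c ≠ u ∧ d ≠ u ∧ c ≠ d ∧ ¬ G.Adj c d := fun u => by
    by_contra! k
    exact n ⟨u, fun c hc d hd => k c (mem_of_mem_erase hc) d (mem_of_mem_erase hd)
      (ne_of_mem_erase hc) (ne_of_mem_erase hd)⟩
  have T : ∀ a ∈ B, ∀ b ∈ B, ∀ c ∈ B, ∀ d ∈ B, a ≠ b → c ≠ d → ¬ G.Adj a b → ¬ G.Adj c d →
      a = c ∨ a = d ∨ b = c ∨ b = d := fun a ha b hb c hc d hd e1 e2 k1 k2 => by
    by_contra! k
    exact k4two h hW h4 (fun w z => ⟨hB a ha w z, hB b hb w z, hB c hc w z, hB d hd w z⟩) e1 e2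
      k.1 k.2.1 k.2.2.1 k.2.2.2 k1 k2
  obtain ⟨t, -⟩ := card_pos.1 (by omega : 0 < W.card)
  obtain ⟨a, ha, b, hb, -, -, ab, k⟩ := ne t
  obtain ⟨c, hc, c1, c2, c3⟩ : ∃ c ∈ B, c ≠ a ∧ c ≠ b ∧ ¬ G.Adj b c := by
    obtain ⟨c, hc, d, hd, x1, x2, x3, x4⟩ := ne a
    have := T a ha b hb c hc d hd ab x3 k x4
    have := G.adj_comm c d
    grind
  have d3 : ¬ G.Adj a c := by
    obtain ⟨x, hx, y, hy, x1, x2, x3, x4⟩ := ne b
    have := T a ha b hb x hx y hy ab x3 k x4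
    have := T b hb c hc x hx y hy c2.symm x3 c3 x4
    have := G.adj_comm x y
    grind
  have un : ∀ x ∈ B, x ≠ a → x ≠ b → x ≠ c → ∀ y ∈ B, y ≠ x → G.Adj x y :=
    fun x hx x1 x2 x3 y hy e => by
      by_contra z
      have := T x hx y hy a ha b hb e.symm ab z k
      have := T x hx y hy a ha c hc e.symm c1.symm z d3
      have := T x hx y hy b hb c hc e.symm c2.symm z c3
      grind
  refine ⟨a, ha, b, hb, c, hc, ab, c1.symm, c2.symm, k, d3, c3, un, not_lt.1 fun l => ?_⟩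
  have m : ∀ x, x ∈ ((B.erase a).erase b).erase c ↔ x ∈ B ∧ x ≠ a ∧ x ≠ b ∧ x ≠ c := fun x => by
    simp only [mem_erase]; tauto
  have := card_erase_add_one ha
  have := card_erase_add_one (mem_erase.2 ⟨ab.symm, hb⟩)
  have := card_erase_add_one (mem_erase.2 ⟨c2, mem_erase.2 ⟨c1, hc⟩⟩)
  have := card_union_of_disjoint (s := W) (t := ((B.erase a).erase b).erase c)
    (disjoint_left.2 fun x p q => (hB x ((m x).1 q).1 x p).ne rfl)
  refine k6e3 h (W := W ∪ ((B.erase a).erase b).erase c) (fun x hx y hy e => ?_) (by omega)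
    (fun x hx => ?_) ab c1.symm c2.symm k d3 c3
  · simp only [mem_union, m] at hx hy
    rcases hx with p | p <;> rcases hy with q | q
    exacts [hW x p y q e, hB y q.1 x p, (hB x p.1 y q).symm,
      un x p.1 p.2.1 p.2.2.1 p.2.2.2 y q.1 e.symm]
  · simp only [mem_union, m] at hx
    rcases hx with p | p
    · exact ⟨hB a ha x p, hB b hb x p, hB c hc x p⟩
    · exact ⟨un x p.1 p.2.1 p.2.2.1 p.2.2.2 a ha p.2.1.symm,
        un x p.1 p.2.1 p.2.2.1 p.2.2.2 b hb p.2.2.1.symm,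
        un x p.1 p.2.1 p.2.2.1 p.2.2.2 c hc p.2.2.2.symm⟩

/-- Two cliques with four common vertices form an almost complete graph. -/
theorem two4 (h : CR G D) {A B : Finset V} (hA : IsClq G A) (hB : IsClq G B)
    (h4 : 4 ≤ (A ∩ B).card) : ∃ u, IsClq G ((A ∪ B).erase u) := by
  have ad : ∀ b ∈ A ∪ B, ∀ w ∈ A ∩ B, w ≠ b → G.Adj w b := fun b p w q e =>
    (mem_union.1 p).elim (fun p => hA w (mem_inter.1 q).1 b p e) fun p => hB w (mem_inter.1 q).2 b p e
  rcases k4nb h (B := (A ∪ B) \ (A ∩ B)) (fun a p b q => hA a (mem_inter.1 p).1 b (mem_inter.1 q).1)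
    h4 (fun b p w q => ad b (mem_sdiff.1 p).1 w q fun e => (mem_sdiff.1 p).2 (e ▸ q)) with
    ⟨u, k⟩ | ⟨a, ha, b, hb, c, hc, e1, e2, e3, n1, n2, n3, -⟩
  · refine ⟨u, fun x p y q e => ?_⟩
    rw [mem_erase] at p q
    by_cases p' : x ∈ A ∩ B
    · exact ad y q.2 x p' e
    by_cases q' : y ∈ A ∩ B
    · exact (ad x p.2 y q' e.symm).symm
    exact k x (mem_erase.2 ⟨p.1, mem_sdiff.2 ⟨p.2, p'⟩⟩) y (mem_erase.2 ⟨q.1, mem_sdiff.2 ⟨q.2, q'⟩⟩) e
  · have := mem_union.1 (mem_sdiff.1 ha).1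
    have := mem_union.1 (mem_sdiff.1 hb).1
    have := mem_union.1 (mem_sdiff.1 hc).1
    grind [IsClq]

end Pool.Agent.Lib.MP_12eaff_co.Frz.AT
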