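import Pool.Agent.Lib.MP_12eaff_co.Frz.ATS
import Pool.Agent.Lib.MP_12eaff_co.Frz.Blk

set_option autoImplicit false
set_option linter.unusedSectionVars false

/-!
Exact lists for the join of a clique with two or three independent vertices.
-/

namespace Pool.Agent.Lib.MP_12eaff_co.Frz.AT

open Finset BK
open scoped Classical

variable {V : Type} [Fintype V] {G : SimpleGraph V} {D : ℕ} {Y : Finset V} {L : V → Finset ℕ}

theorem core2 (h0 : ∀ y ∈ Y, #Y ≤ #(L y) + 2)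
    (h1 : ∀ y ∈ Y, #Y ≤ #((Y.erase y).biUnion L) + 1) (h2 : #Y ≤ #(Y.biUnion L)) :
    ∃ φ : V → ℕ, (∀ v ∈ Y, φ v ∈ L v) ∧ Set.InjOn φ Y := by
  refine sdr Y L fun S hS => ?_
  rcases S.eq_empty_or_nonempty with rfl | ⟨y, hy⟩
  · simp
  by_cases e : Y ⊆ S
  · rwa [subset_antisymm hS e]
  obtain ⟨x, x1, x2⟩ := not_subset.1 e
  have s : S ⊆ Y.erase x := subset_erase.2 ⟨hS, x2⟩
  have c := card_erase_add_one x1
  by_cases e' : #S + 2 ≤ #Y
  · have := card_le_card (subset_biUnion_of_mem L hy)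
    have := h0 y (hS hy)
    omega
  · have := h1 x x1
    rw [eq_of_subset_of_card_le s (by omega)]
    omega

theorem core1 (h0 : ∀ y ∈ Y, #Y ≤ #(L y) + 1) (h2 : #Y ≤ #(Y.biUnion L)) :
    ∃ φ : V → ℕ, (∀ v ∈ Y, φ v ∈ L v) ∧ Set.InjOn φ Y := by
  refine core2 (fun y hy => by have := h0 y hy; omega) (fun x hx => ?_) h2
  rcases (Y.erase x).eq_empty_or_nonempty with e | ⟨y, hy⟩
  · have := card_erase_add_one hx
    rw [e, card_empty] at this
    omega
  · have := card_le_card (subset_biUnion_of_mem L hy)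
    have := h0 y (mem_of_mem_erase hy)
    omega

theorem biUnion_sd (S : Finset V) (A : Finset ℕ) :
    (S.biUnion fun y => L y \ A) = S.biUnion L \ A := by
  ext
  simp only [mem_biUnion, mem_sdiff]
  tauto

/-- Colours on independent vertices and distinct other colours on the clique. -/
theorem lc_join {T : Finset V} (hT : ∀ s ∈ T, ∀ t ∈ T, ¬ G.Adj s t) (g : V → ℕ)
    (hg : ∀ t ∈ T, g t ∈ L t) {A : Finset ℕ} (hA : ∀ t ∈ T, ∀ y ∈ Y, g t ∈ L y → g t ∈ A)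
    (k : ∃ φ : V → ℕ, (∀ v ∈ Y, φ v ∈ L v \ A) ∧ Set.InjOn φ Y) : LC G (T ∪ Y) L := by
  obtain ⟨φ, p1, p2⟩ := k
  have q : ∀ t ∈ T, ∀ y ∈ Y, g t ≠ φ y := fun t ht y hy e =>
    (mem_sdiff.1 (p1 y hy)).2 (e ▸ hA t ht y hy (e ▸ (mem_sdiff.1 (p1 y hy)).1))
  refine ⟨fun v => if v ∈ T then g v else φ v, fun v hv => ?_, fun u hu v hv e => ?_⟩
  · dsimp only
    split_ifs with x
    exacts [hg v x, (mem_sdiff.1 (p1 v ((mem_union.1 hv).resolve_left x))).1]
  · dsimp only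
    split_ifs with x y y
    exacts [(hT u x v y e).elim, q u x v ((mem_union.1 hv).resolve_left y),
      (q v y u ((mem_union.1 hu).resolve_left x)).symm, fun z => e.ne
        (p2 ((mem_union.1 hu).resolve_left x) ((mem_union.1 hv).resolve_left y) z)]

theorem sd_card (S A : Finset ℕ) : #S ≤ #(S \ A) + #A := by
  have := le_card_sdiff A S
  omega

theorem lc_two {a b : V} (ab : a ≠ b) (n : ¬ G.Adj a b) {α β : ℕ} (ha : α ∈ L a) (hb : β ∈ L b)
    {A : Finset ℕ} (h1 : α ∈ Y.biUnion L → α ∈ A) (h2 : β ∈ Y.biUnion L → β ∈ A)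
    (k : ∃ φ : V → ℕ, (∀ v ∈ Y, φ v ∈ L v \ A) ∧ Set.InjOn φ Y) : LC G ({a, b} ∪ Y) L := by
  refine lc_join (A := A) ?_ (fun v => if v = a then α else β) ?_ ?_ k
  · simp [n, G.adj_comm]
  · simp [ha, hb, ab.symm]
  · simp only [mem_insert, mem_singleton, forall_eq_or_imp, forall_eq, if_true, ab.symm, if_false]
    exact ⟨fun y p q => h1 (mem_biUnion.2 ⟨y, p, q⟩), fun y p q => h2 (mem_biUnion.2 ⟨y, p, q⟩)⟩

/-- Exact lists for a clique joined to two independent vertices. -/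
theorem exact2 {P : Finset ℕ} {a b : V} (ab : a ≠ b) (n : ¬ G.Adj a b) (h4 : 4 ≤ #Y)
    (hP : #P + 2 ≤ 2 * #Y) (sub : ∀ v, L v ⊆ P) (hY : ∀ y ∈ Y, #Y ≤ #(L y))
    (ha : #Y ≤ #(L a) + 1) (hb : #Y ≤ #(L b) + 1) (nl : ¬ LC G ({a, b} ∪ Y) L) :
    ∃ U, #U = #Y ∧ (∀ y ∈ Y, L y = U) ∧ (L a ⊆ U ∨ L b ⊆ U) := by
  have one : #Y < #(Y.biUnion L) → ∀ γ, ∃ φ : V → ℕ, (∀ v ∈ Y, φ v ∈ L v \ {γ}) ∧
      Set.InjOn φ Y := fun u γ => core1 (fun y hy => (hY y hy).trans (sd_card _ {γ})) (by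
    have := sd_card (Y.biUnion L) {γ}
    rw [biUnion_sd]
    rw [card_singleton] at this
    omega)
  obtain ⟨α0, a0⟩ := card_pos.1 (by omega : 0 < #(L a))
  obtain ⟨β0, b0⟩ := card_pos.1 (by omega : 0 < #(L b))
  by_cases u : #Y < #(Y.biUnion L)
  · refine (nl ?_).elim
    by_cases d : Disjoint (L a) (L b)
    swap
    · obtain ⟨γ, g1, g2⟩ := not_disjoint_iff.1 d
      exact lc_two ab n g1 g2 (fun _ => mem_singleton_self γ) (fun _ => mem_singleton_self γ)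
        (one u γ)
    have c := card_union_of_disjoint d
    have s := union_subset (sub a) (sub b)
    have c' := card_le_card s
    have eP : L a ∪ L b = P := eq_of_subset_of_card_le s (by omega)
    by_cases w : P ⊆ Y.biUnion L
    swap
    · obtain ⟨γ, g1, g2⟩ := not_subset.1 w
      rcases mem_union.1 (eP ▸ g1 : γ ∈ L a ∪ L b) with g | g
      · exact lc_two ab n g b0 (fun z => (g2 z).elim) (fun _ => mem_singleton_self _) (one u β0)
      · exact lc_two ab n a0 g (fun _ => mem_singleton_self _) (fun z => (g2 z).elim) (one u α0)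
    have two : ∀ α β : ℕ, (∀ y ∈ Y, #Y ≤ #((Y.erase y).biUnion L \ {α, β}) + 1) →
        ∃ φ : V → ℕ, (∀ v ∈ Y, φ v ∈ L v \ {α, β}) ∧ Set.InjOn φ Y := fun α β k => by
      have c2 : #({α, β} : Finset ℕ) ≤ 2 := card_le_two
      refine core2 (fun y hy => ?_) (fun y hy => by rw [biUnion_sd]; exact k y hy) ?_
      · have := sd_card (L y) {α, β}
        have := hY y hy
        omega
      · have := sd_card (Y.biUnion L) {α, β}
        have := card_le_card w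
        rw [biUnion_sd]
        omega
    by_cases x : ∀ y ∈ Y, #Y < #((Y.erase y).biUnion L)
    · refine lc_two ab n a0 b0 (fun _ => by simp) (fun _ => by simp) (two α0 β0 fun y hy => ?_)
      have := sd_card ((Y.erase y).biUnion L) {α0, β0}
      have : #({α0, β0} : Finset ℕ) ≤ 2 := card_le_two
      have := x y hy
      omega
    push Not at x
    obtain ⟨y0, -, x⟩ := x
    obtain ⟨γ, g1, g2⟩ := exists_mem_notMem_of_card_lt_card (s := (Y.erase y0).biUnion L) (t := P)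
      (by omega)
    have key : ∀ δ : ℕ, ∀ y ∈ Y, #Y ≤ #((Y.erase y).biUnion L \ {γ, δ}) + 1 := fun δ y hy => by
      obtain ⟨z, z1, z2⟩ := exists_mem_notMem_of_card_lt_card (s := {y, y0}) (t := Y)
        (card_le_two.trans_lt (by omega))
      simp only [mem_insert, mem_singleton, not_or] at z2
      have s : L z \ {δ} ⊆ (Y.erase y).biUnion L \ {γ, δ} := fun t ht => by
        simp only [mem_sdiff, mem_insert, mem_singleton, not_or] at ht ⊢
        exact ⟨mem_biUnion.2 ⟨z, mem_erase.2 ⟨z2.1, z1⟩, ht.1⟩,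
          fun e => g2 (mem_biUnion.2 ⟨z, mem_erase.2 ⟨z2.2, z1⟩, e ▸ ht.1⟩), ht.2⟩
      have := card_le_card s
      have := sd_card (L z) {δ}
      have := hY z z1
      rw [card_singleton] at *
      omega
    rcases mem_union.1 (eP ▸ g1 : γ ∈ L a ∪ L b) with g | g
    · exact lc_two ab n g b0 (fun _ => by simp) (fun _ => by simp) (two γ β0 (key β0))
    · exact lc_two ab n a0 g (fun _ => by simp) (fun _ => by simp) (two γ α0 (key α0))
  · have e : ∀ y ∈ Y, L y = Y.biUnion L := fun y hy =>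
      eq_of_subset_of_card_le (subset_biUnion_of_mem L hy) (by have := hY y hy; omega)
    obtain ⟨y, hy⟩ := card_pos.1 (by omega : 0 < #Y)
    refine ⟨Y.biUnion L, le_antisymm (by omega) (e y hy ▸ hY y hy), e, ?_⟩
    by_contra! k
    obtain ⟨α, a1, a2⟩ := not_subset.1 k.1
    obtain ⟨β, b1, b2⟩ := not_subset.1 k.2
    refine nl (lc_two (A := ∅) ab n a1 b1 (fun z => (a2 z).elim) (fun z => (b2 z).elim)
      (core1 (fun y hy => ?_) ?_))
    · have := hY y hy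
      rw [sdiff_empty]
      omega
    · rw [biUnion_sd, sdiff_empty]
      exact e y hy ▸ hY y hy

theorem lc_three {a b d : V} (ab : a ≠ b) (ad : a ≠ d) (bd : b ≠ d) (n1 : ¬ G.Adj a b)
    (n2 : ¬ G.Adj a d) (n3 : ¬ G.Adj b d) {α β δ : ℕ} (ha : α ∈ L a) (hb : β ∈ L b) (hd : δ ∈ L d)
    {A : Finset ℕ} (h1 : α ∈ Y.biUnion L → α ∈ A) (h2 : β ∈ Y.biUnion L → β ∈ A)
    (h3 : δ ∈ Y.biUnion L → δ ∈ A) (hY : ∀ y ∈ Y, #Y + #A ≤ #(L y) + 1)
    (hU : #Y + #A ≤ #(Y.biUnion L)) : LC G ({a, b, d} ∪ Y) L := by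
  refine lc_join (A := A) ?_ (fun v => if v = a then α else if v = b then β else δ) ?_ ?_
    (core1 (fun y hy => ?_) ?_)
  · simp [n1, n2, n3, G.adj_comm]
  · simp [ha, hb, hd, ab.symm, ad.symm, bd.symm]
  · simp only [mem_insert, mem_singleton, forall_eq_or_imp, forall_eq, if_true, ab.symm, if_false,
      ad.symm, bd.symm]
    exact ⟨fun y p q => h1 (mem_biUnion.2 ⟨y, p, q⟩), fun y p q => h2 (mem_biUnion.2 ⟨y, p, q⟩),
      fun y p q => h3 (mem_biUnion.2 ⟨y, p, q⟩)⟩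
  · have := sd_card (L y) A
    have := hY y hy
    omega
  · have := sd_card (Y.biUnion L) A
    rw [biUnion_sd]
    omega

theorem meet {A B P : Finset ℕ} (a : A ⊆ P) (b : B ⊆ P) (h : #P < #A + #B) :
    ∃ x, x ∈ A ∧ x ∈ B := by
  by_contra! k
  have := card_le_card (union_subset a b)
  rw [card_union_of_disjoint (disjoint_left.2 k)] at this
  omega

/-- Exact lists for a clique joined to three independent vertices. -/
theorem exact3 {P : Finset ℕ} {a b d : V} (ab : a ≠ b) (ad : a ≠ d) (bd : b ≠ d)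
    (n1 : ¬ G.Adj a b) (n2 : ¬ G.Adj a d) (n3 : ¬ G.Adj b d) (h4 : 4 ≤ #Y)
    (hP : #P + 4 ≤ 3 * #Y) (sub : ∀ v, L v ⊆ P) (hY : ∀ y ∈ Y, #Y + 1 ≤ #(L y))
    (ha : #Y ≤ #(L a) + 1) (hb : #Y ≤ #(L b) + 1) (hd : #Y ≤ #(L d) + 1)
    (nl : ¬ LC G ({a, b, d} ∪ Y) L) :
    ∃ U, #U = #Y + 1 ∧ (∀ y ∈ Y, L y = U) ∧ L a ⊆ U ∧ L b ⊆ U ∧ L d ⊆ U ∧
      ∀ γ ∈ L a, γ ∈ L b → γ ∉ L d := by
  obtain ⟨α0, a0⟩ := card_pos.1 (by omega : 0 < #(L a))
  obtain ⟨β0, b0⟩ := card_pos.1 (by omega : 0 < #(L b))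
  obtain ⟨δ0, d0⟩ := card_pos.1 (by omega : 0 < #(L d))
  by_cases u : #Y + 2 ≤ #(Y.biUnion L)
  · have two : ∀ α ∈ L a, ∀ β ∈ L b, ∀ δ ∈ L d, ∀ x y : ℕ, α ∈ ({x, y} : Finset ℕ) →
        β ∈ ({x, y} : Finset ℕ) → δ ∈ ({x, y} : Finset ℕ) → False :=
      fun α p β q δ r x y s t w => by
        have : #({x, y} : Finset ℕ) ≤ 2 := card_le_two
        exact nl (lc_three ab ad bd n1 n2 n3 p q r (fun _ => s) (fun _ => t) (fun _ => w)
          (fun z hz => by have := hY z hz; omega) (by omega))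
    have d1 : Disjoint (L a) (L b) := disjoint_left.2 fun γ p q =>
      two γ p γ q δ0 d0 γ δ0 (by simp) (by simp) (by simp)
    obtain ⟨γ, g1, g2⟩ := meet (union_subset (sub a) (sub b)) (sub d)
      (by rw [card_union_of_disjoint d1]; omega)
    rcases mem_union.1 g1 with g | g
    · exact (two γ g β0 b0 γ g2 γ β0 (by simp) (by simp) (by simp)).elim
    · exact (two α0 a0 γ g γ g2 γ α0 (by simp) (by simp) (by simp)).elim
  · have e : ∀ y ∈ Y, L y = Y.biUnion L := fun y hy =>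
      eq_of_subset_of_card_le (subset_biUnion_of_mem L hy) (by have := hY y hy; omega)
    obtain ⟨y, hy⟩ := card_pos.1 (by omega : 0 < #Y)
    have c : #(Y.biUnion L) = #Y + 1 := le_antisymm (by omega) (e y hy ▸ hY y hy)
    have one : ∀ α ∈ L a, ∀ β ∈ L b, ∀ δ ∈ L d, ∀ x : ℕ, (α ∈ Y.biUnion L → α = x) →
        (β ∈ Y.biUnion L → β = x) → (δ ∈ Y.biUnion L → δ = x) → False :=
      fun α p β q δ r x s t w => nl (lc_three (A := {x}) ab ad bd n1 n2 n3 p q r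
        (by simpa using s) (by simpa using t) (by simpa using w)
        (fun z hz => by have := hY z hz; rw [card_singleton]; omega) (by simp [c]))
    have pair : ∀ s t, #Y ≤ #(L s) + 1 → #Y ≤ #(L t) + 1 → ∃ x, ∃ σ ∈ L s, ∃ τ ∈ L t,
        (σ ∈ Y.biUnion L → σ = x) ∧ (τ ∈ Y.biUnion L → τ = x) := fun s t p q => by
      obtain ⟨σ0, s0⟩ := card_pos.1 (by omega : 0 < #(L s))
      obtain ⟨τ0, t0⟩ := card_pos.1 (by omega : 0 < #(L t))
      by_cases x : L s ⊆ Y.biUnion L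
      · by_cases z : L t ⊆ Y.biUnion L
        · obtain ⟨γ, g1, g2⟩ := meet x z (by omega)
          exact ⟨γ, γ, g1, γ, g2, fun _ => rfl, fun _ => rfl⟩
        · obtain ⟨τ, t1, t2⟩ := not_subset.1 z
          exact ⟨σ0, σ0, s0, τ, t1, fun _ => rfl, fun k => (t2 k).elim⟩
      · obtain ⟨σ, s1, s2⟩ := not_subset.1 x
        exact ⟨τ0, σ, s1, τ0, t0, fun k => (s2 k).elim, fun _ => rfl⟩
    refine ⟨Y.biUnion L, c, e, fun α p => ?_, fun β p => ?_, fun δ p => ?_, fun γ p q r =>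
      one γ p γ q γ r γ (fun _ => rfl) (fun _ => rfl) fun _ => rfl⟩ <;> by_contra k
    · obtain ⟨x, σ, s, τ, t, k1, k2⟩ := pair b d hb hd
      exact one α p σ s τ t x (fun z => (k z).elim) k1 k2
    · obtain ⟨x, σ, s, τ, t, k1, k2⟩ := pair a d ha hd
      exact one σ s β p τ t x k1 (fun z => (k z).elim) k2
    · obtain ⟨x, σ, s, τ, t, k1, k2⟩ := pair a b ha hb
      exact one σ s τ t δ p x k1 k2 fun z => (k z).elim

/-- The colours that `w` does not see outside `H`. -/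
noncomputable def Fr (G : SimpleGraph V) (D : ℕ) (H : Finset V) (c : V → ℕ) (w : V) : Finset ℕ :=
  (range D).filter fun γ => ¬ Sees G H c w γ

variable {H : Finset V} {c : V → ℕ}

theorem mem_Fr {w : V} {γ : ℕ} : γ ∈ Fr G D H c w ↔ γ < D ∧ ¬ Sees G H c w γ := by simp [Fr]

/-- The number of colours seen outside `H`. -/
theorem seen_card (deg : ∀ v, #(nb G v) ≤ D + 1) {w : V} (T : Finset V)
    (hT : ∀ t ∈ T, G.Adj w t ∧ t ∈ H) {A : Finset ℕ} (hA : ∀ γ ∈ A, Sees G H c w γ) :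
    #A + #T ≤ D + 1 := by
  have a1 : #A ≤ #(nb G w \ H) := (card_le_card fun γ h => by
    obtain ⟨e, e1, e2, rfl⟩ := hA γ h
    exact mem_image_of_mem c (by simp [e1, e2])).trans card_image_le
  have a2 := card_le_card (s := T) (t := nb G w ∩ H) fun e h => by simp [hT e h]
  have := card_sdiff_add_card_inter (nb G w) H
  have := deg w
  omega

theorem fr_card (deg : ∀ v, #(nb G v) ≤ D + 1) {w : V} (T : Finset V)
    (hT : ∀ t ∈ T, G.Adj w t ∧ t ∈ H) : #T ≤ #(Fr G D H c w) + 1 := by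
  have := seen_card (c := c) deg T hT (A := (range D).filter (Sees G H c w))
    fun γ h => (mem_filter.1 h).2
  have := card_filter_add_card_filter_not (s := range D) (Sees G H c w)
  rw [card_range] at this
  rw [Fr]
  omega

theorem not_lc (nc : ¬ Colr G D) (hc : PCol G D c) (hu : ∀ v, v ∉ H → c v < D) :
    ¬ LC G H (Fr G D H c) := by
  rintro ⟨f, f1, f2⟩
  refine nc ⟨fun v => if v ∈ H then f v else c v, fun v => ?_, fun u v k => ?_⟩ <;> dsimp only
  · split_ifs with x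
    exacts [(mem_Fr.1 (f1 v x)).1, hu v x]
  · split_ifs with x y y
    exacts [f2 u x v y k, fun e => (mem_Fr.1 (f1 u x)).2 ⟨v, k, y, e.symm⟩,
      fun e => (mem_Fr.1 (f1 v y)).2 ⟨u, k.symm, x, e⟩, hc u v k (hu u x)]

theorem join_card (deg : ∀ v, #(nb G v) ≤ D + 1) (hY : IsClq G Y) {T : Finset V}
    (hx : ∀ y ∈ Y, ∀ t ∈ T, G.Adj y t) : (∀ y ∈ Y, #Y + #T ≤ #(Fr G D (T ∪ Y) c y) + 2) ∧
      ∀ t ∈ T, #Y ≤ #(Fr G D (T ∪ Y) c t) + 1 := by
  refine ⟨fun y hy => ?_, fun t ht => fr_card deg Y fun y hy =>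
    ⟨(hx y hy t ht).symm, mem_union_right _ hy⟩⟩
  have := fr_card (c := c) (H := T ∪ Y) (w := y) deg (T ∪ Y.erase y) fun t ht =>
    (mem_union.1 ht).elim (fun p => ⟨hx y hy t p, mem_union_left _ p⟩) fun p =>
      ⟨hY y hy t (mem_of_mem_erase p) (ne_of_mem_erase p).symm,
        mem_union_right _ (mem_of_mem_erase p)⟩
  rw [card_union_of_disjoint (disjoint_left.2 fun t p q =>
    (hx t (mem_of_mem_erase q) t p).ne rfl)] at this
  have := card_erase_add_one hy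
  omega

theorem compl_spec {U : Finset ℕ} {w : V} (hU : U ⊆ range D) :
    #(range D \ U) + #U = D ∧ (Fr G D H c w = U → ∀ γ < D, Sees G H c w γ ↔ γ ∈ range D \ U) ∧
      (Fr G D H c w ⊆ U → ∀ γ ∈ range D \ U, Sees G H c w γ) := by
  refine ⟨by rw [card_sdiff_add_card_eq_card hU, card_range], fun e γ l => ?_, fun e γ k => ?_⟩
  · simp [← e, mem_Fr, l]
  · by_contra z
    exact (mem_sdiff.1 k).2 (e (mem_Fr.2 ⟨mem_range.1 (mem_sdiff.1 k).1, z⟩))

/-- State form for two twins: the core sees exactly `M`, and one twin sees all of `M`. -/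
theorem state2 (deg : ∀ v, #(nb G v) ≤ D + 1) (nc : ¬ Colr G D) (hY : IsClq G Y) {a b : V}
    (hx : ∀ y ∈ Y, G.Adj y a ∧ G.Adj y b) (ab : a ≠ b) (n : ¬ G.Adj a b) (h4 : 4 ≤ #Y)
    (hD : D + 2 ≤ 2 * #Y) (hc : PCol G D c) (hu : ∀ v, v ∉ {a, b} ∪ Y → c v < D) :
    ∃ M ⊆ range D, #M + #Y = D ∧ (∀ y ∈ Y, ∀ γ < D, Sees G ({a, b} ∪ Y) c y γ ↔ γ ∈ M) ∧
      ((∀ γ ∈ M, Sees G ({a, b} ∪ Y) c a γ) ∨ ∀ γ ∈ M, Sees G ({a, b} ∪ Y) c b γ) := by
  obtain ⟨j1, j2⟩ := join_card (c := c) (T := {a, b}) deg hY (by simpa using hx)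
  rw [card_pair ab] at j1
  obtain ⟨U, u1, u2, u3⟩ := exact2 (P := range D) (L := Fr G D ({a, b} ∪ Y) c) ab n h4
    (by simpa using hD)
    (fun _ => filter_subset _ _) (fun y hy => by have := j1 y hy; omega) (j2 a (by simp))
    (j2 b (by simp)) (not_lc nc hc hu)
  obtain ⟨y, hy⟩ := card_pos.1 (by omega : 0 < #Y)
  have hU : U ⊆ range D := u2 y hy ▸ filter_subset _ _
  exact ⟨range D \ U, sdiff_subset, u1 ▸ (compl_spec (G := G) (H := Y) (c := c) (w := y) hU).1,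
    fun y hy => (compl_spec hU).2.1 (u2 y hy),
    u3.imp (compl_spec hU).2.2 (compl_spec hU).2.2⟩

/-- State form for three twins: the core sees exactly `M`, every twin sees all of `M`, and every
colour is seen by a twin. -/
theorem state3 (deg : ∀ v, #(nb G v) ≤ D + 1) (nc : ¬ Colr G D) (hY : IsClq G Y) {a b d : V}
    (hx : ∀ y ∈ Y, G.Adj y a ∧ G.Adj y b ∧ G.Adj y d) (ab : a ≠ b) (ad : a ≠ d) (bd : b ≠ d)
    (n1 : ¬ G.Adj a b) (n2 : ¬ G.Adj a d) (n3 : ¬ G.Adj b d) (h4 : 4 ≤ #Y)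
    (hD : D + 4 ≤ 3 * #Y) (hc : PCol G D c) (hu : ∀ v, v ∉ {a, b, d} ∪ Y → c v < D) :
    ∃ M ⊆ range D, #M + #Y + 1 = D ∧
      (∀ y ∈ Y, ∀ γ < D, Sees G ({a, b, d} ∪ Y) c y γ ↔ γ ∈ M) ∧
      (∀ γ ∈ M, Sees G ({a, b, d} ∪ Y) c a γ ∧ Sees G ({a, b, d} ∪ Y) c b γ ∧
        Sees G ({a, b, d} ∪ Y) c d γ) ∧
      ∀ γ < D, Sees G ({a, b, d} ∪ Y) c a γ ∨ Sees G ({a, b, d} ∪ Y) c b γ ∨
        Sees G ({a, b, d} ∪ Y) c d γ := by
  obtain ⟨j1, j2⟩ := join_card (c := c) (T := {a, b, d}) deg hY (by simpa using hx)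
  rw [card_eq_three.2 ⟨a, b, d, ab, ad, bd, rfl⟩] at j1
  obtain ⟨U, u1, u2, u3, u4, u5, u6⟩ := exact3 (P := range D)
    (L := Fr G D ({a, b, d} ∪ Y) c) ab ad bd n1 n2 n3 h4
    (by simpa using hD) (fun _ => filter_subset _ _) (fun y hy => by have := j1 y hy; omega)
    (j2 a (by simp)) (j2 b (by simp)) (j2 d (by simp)) (not_lc nc hc hu)
  obtain ⟨y, hy⟩ := card_pos.1 (by omega : 0 < #Y)
  have hU : U ⊆ range D := u2 y hy ▸ filter_subset _ _
  have := (compl_spec (G := G) (H := Y) (c := c) (w := y) hU).1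
  refine ⟨range D \ U, sdiff_subset, by omega, fun y hy => (compl_spec hU).2.1 (u2 y hy),
    fun γ k => ⟨(compl_spec hU).2.2 u3 γ k, (compl_spec hU).2.2 u4 γ k,
      (compl_spec hU).2.2 u5 γ k⟩, fun γ l => ?_⟩
  by_contra! k
  exact u6 γ (mem_Fr.2 ⟨l, k.1⟩) (mem_Fr.2 ⟨l, k.2.1⟩) (mem_Fr.2 ⟨l, k.2.2⟩)

/-- With a core of five vertices no colour outside `M` is seen by two twins. -/
theorem state3_five (deg : ∀ v, #(nb G v) ≤ D + 1) {a b d : V} (h5 : #Y = 5) (hH : Y ⊆ H)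
    (hx : ∀ y ∈ Y, G.Adj y a ∧ G.Adj y b ∧ G.Adj y d) {M : Finset ℕ} (m0 : M ⊆ range D)
    (m1 : #M + #Y + 1 = D) (m2 : ∀ γ ∈ M, Sees G H c a γ ∧ Sees G H c b γ ∧ Sees G H c d γ)
    (m3 : ∀ γ < D, Sees G H c a γ ∨ Sees G H c b γ ∨ Sees G H c d γ) {γ : ℕ} (l : γ < D)
    (k : γ ∉ M) (s1 : Sees G H c a γ) : ¬ Sees G H c b γ := fun s2 => by
  have two : ∀ t, (∀ y ∈ Y, G.Adj y t) → (∀ γ ∈ M, Sees G H c t γ) →
      #((range D \ M).filter (Sees G H c t)) ≤ 2 := fun t p q => by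
    have := seen_card (c := c) deg Y (fun y hy => ⟨(p y hy).symm, hH hy⟩)
      (A := M ∪ (range D \ M).filter (Sees G H c t))
      fun γ z => (mem_union.1 z).elim (q γ) fun z => (mem_filter.1 z).2
    rw [card_union_of_disjoint (disjoint_left.2 fun x p q =>
      (mem_sdiff.1 (mem_filter.1 q).1).2 p)] at this
    omega
  have a2 := two a (fun y p => (hx y p).1) fun γ p => (m2 γ p).1
  have b2 := two b (fun y p => (hx y p).2.1) fun γ p => (m2 γ p).2.1
  have d2 := two d (fun y p => (hx y p).2.2) fun γ p => (m2 γ p).2.2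
  have c1 := card_sdiff_add_card_eq_card m0
  have c2 := card_union_add_card_inter ((range D \ M).filter (Sees G H c a))
    ((range D \ M).filter (Sees G H c b))
  have c3 := card_pos.2 (⟨γ, by simp [l, k, s1, s2]⟩ : ((range D \ M).filter (Sees G H c a) ∩
    (range D \ M).filter (Sees G H c b)).Nonempty)
  have c4 := (card_le_card (s := range D \ M) fun x hx => by
    have := m3 x (mem_range.1 (mem_sdiff.1 hx).1)
    simp only [mem_union, mem_filter]
    tauto).trans (card_union_le ((range D \ M).filter (Sees G H c a) ∪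
      (range D \ M).filter (Sees G H c b)) ((range D \ M).filter (Sees G H c d)))
  rw [card_range] at c1
  omega

theorem hole_out {v : V} (h : Acc.HC G D v c) (hv : v ∈ H) : ∀ u, u ∉ H → c u < D :=
  fun u k => h.lt u fun e => k (e ▸ hv)

/-- A triangle joined to `K4 - ab` and a vertex `z` that misses a vertex `x` of the middle edge. -/
theorem k3dia (h : CR G D) {W : Finset V} (hW : IsClq G W) (h3 : 3 ≤ #W) {x y a b z : V}
    (hx : ∀ w ∈ W, G.Adj w x ∧ G.Adj w y ∧ G.Adj w a ∧ G.Adj w b ∧ G.Adj w z) (xy : G.Adj x y)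
    (xa : G.Adj x a) (xb : G.Adj x b) (ya : G.Adj y a) (yb : G.Adj y b) (ab : a ≠ b) (xz : x ≠ z)
    (n : ¬ G.Adj a b) (n' : ¬ G.Adj x z) : False :=
  chk_join h hW 3 h3 ![x, y, a, b, z]
    (inj_of (G := G) _ [(0, 1), (0, 2), (0, 3), (1, 2), (1, 3)]
      [(2, 3), (0, 4), (1, 4), (2, 4), (3, 4)] (by simp [*])
      (by
        have : y ≠ z := fun e => n' (e ▸ xy)
        have : a ≠ z := fun e => n' (e ▸ xa)
        have : b ≠ z := fun e => n' (e ▸ xb)
        simp [*])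
      (by decide))
    (fun w hw => by simpa [Fin.forall_fin_succ] using hx w hw)
    [(0, 1), (0, 2), (0, 3), (1, 2), (1, 3)] [(2, 3), (0, 4)] (by decide) (by simp [*])
    (by simp [*])
    [322176323, 607274064, 591545424, 876692560, 590693424, 874857520, 843400240, 1145324801]
    (by decide +kernel)

/-- A vertex with three neighbours in the core of a clique with two twins is complete to it. -/
theorem core_three (h : CR G D) (hY : IsClq G Y) (h5 : 5 ≤ #Y) {a b z : V}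
    (hx : ∀ y ∈ Y, G.Adj y a ∧ G.Adj y b) (ab : a ≠ b) (n : ¬ G.Adj a b) (hz : z ∉ Y)
    (h3 : 3 ≤ #(Y.filter (G.Adj z))) : ∀ x ∈ Y, G.Adj z x := by
  intro x x1
  by_contra k
  obtain ⟨W, w1, cW⟩ := exists_subset_card_eq h3
  have w2 : ∀ w ∈ W, w ∈ Y ∧ G.Adj z w := fun w p => mem_filter.1 (w1 p)
  obtain ⟨y, y1, y2⟩ := exists_mem_notMem_of_card_lt_card (s := insert x W) (t := Y)
    ((card_insert_le _ _).trans_lt (by omega))
  rw [mem_insert, not_or] at y2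
  exact k3dia h (fun p hp q hq => hY p (w2 p hp).1 q (w2 q hq).1) cW.ge (x := x) (y := y) (z := z)
    (fun w p => ⟨hY w (w2 w p).1 x x1 fun e => k (e ▸ (w2 w p).2),
      hY w (w2 w p).1 y y1 fun e => y2.2 (e ▸ p), (hx w (w2 w p).1).1, (hx w (w2 w p).1).2,
      (w2 w p).2.symm⟩) (hY x x1 y y1 (Ne.symm y2.1)) (hx x x1).1 (hx x x1).2 (hx y y1).1
    (hx y y1).2 ab (fun e => hz (e ▸ x1)) n fun e => k e.symm

end Pool.Agent.Lib.MP_12eaff_co.Frz.AT
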