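import Pool.Agent.Lib.MP_12eaff_co.Frz.Sel5b
import Pool.Agent.Lib.MP_12eaff_co.Frz.Acc2.ZG

set_option autoImplicit false

namespace Pool.Agent.Lib.MP_12eaff_co.Frz.BK

open Finset Pool.Agent.Lib.MP_12eaff_co.Frz.Acc2.ZG
open scoped Classical

variable {V : Type} [Fintype V] {G : SimpleGraph V} {D : ℕ}

/-- An order of the cliques in which at most two members of `F` have a later neighbour. -/
theorem peel (h : MC G D) (hD : 8 ≤ D) (F : Finset V) : ∀ T : Finset (Finset V),
    (∀ K ∈ T, IsClq G K ∧ K.card = D) →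
    (∀ K ∈ T, ∀ L ∈ T, K ≠ L → ∀ a ∈ K ∩ F, ∀ b ∈ L ∩ F, ¬ G.Adj a b) →
    ∃ rk : Finset V → ℕ, (∀ K ∈ T, ∀ L ∈ T, rk K = rk L → K = L) ∧ ∀ K ∈ T,
      ((K ∩ F).filter fun w => ∃ L ∈ T, rk K < rk L ∧ ∃ v ∈ L, G.Adj w v).card ≤ 2 := by
  intro T
  induction T using Finset.strongInduction with
  | H T ih =>
  intro hT ind
  rcases T.eq_empty_or_nonempty with rfl | ne
  · exact ⟨fun _ => 0, by simp, by simp⟩
  set Φ := F.filter fun a => ∃ K ∈ T, a ∈ K ∧ ∃ w ∈ T.biUnion id, w ∉ K ∧ G.Adj a w with hΦ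
  obtain ⟨K, hK, sm⟩ : ∃ K ∈ T, (K ∩ Φ).card ≤ 2 := by
    by_contra n
    push Not at n
    refine stat3 h hD ne hT Φ (fun K k L l e a ha b hb => ind K k L l e a
      (inter_subset_inter_left (filter_subset _ _) ha) b
      (inter_subset_inter_left (filter_subset _ _) hb)) (fun K k a ha => ?_)
      (fun K k => Or.inr (n K k))
    obtain ⟨a1, a2⟩ := mem_inter.mp ha
    obtain ⟨L, l, p, q⟩ := (mem_filter.mp a2).2
    rwa [dj8 h hD (hT K k).1 (hT K k).2 (hT L l).1 (hT L l).2 a1 p]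
  obtain ⟨rk, r1, r2⟩ := ih (T.erase K) (erase_ssubset hK)
    (fun L l => hT L (mem_of_mem_erase l))
    (fun L l M m => ind L (mem_of_mem_erase l) M (mem_of_mem_erase m))
  refine ⟨fun L => if L = K then 0 else rk L + 1, fun L l M m e => ?_, fun L l => ?_⟩
  · by_cases p : L = K <;> by_cases q : M = K
    · rw [p, q]
    · simp [p, q] at e
    · simp [p, q] at e
    · simp only [p, q, if_false] at e
      exact r1 L (mem_erase.mpr ⟨p, l⟩) M (mem_erase.mpr ⟨q, m⟩) (by omega)
  · by_cases p : L = K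
    · refine le_trans (card_le_card (fun w hw => ?_)) sm
      obtain ⟨w1, M, m, lt, v, v1, v2⟩ := mem_filter.mp hw
      have q : M ≠ K := fun q => by simp [p, q] at lt
      rw [p] at w1
      exact mem_inter.mpr ⟨(mem_inter.mp w1).1, mem_filter.mpr ⟨(mem_inter.mp w1).2, K, hK,
        (mem_inter.mp w1).1, v, mem_biUnion.mpr ⟨M, m, v1⟩, fun t => q
          (dj8 h hD (hT M m).1 (hT M m).2 (hT K hK).1 (hT K hK).2 v1 t), v2⟩⟩
    · refine le_trans (card_le_card (fun w hw => ?_)) (r2 L (mem_erase.mpr ⟨p, l⟩))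
      obtain ⟨w1, M, m, lt, v⟩ := mem_filter.mp hw
      have q : M ≠ K := fun q => by simp [p, q] at lt
      simp only [p, q, if_false] at lt
      exact mem_filter.mpr ⟨w1, M, mem_erase.mpr ⟨q, m⟩, by omega, v⟩

omit [Fintype V] in
theorem good_anti {F : Finset V} {A A' : V → Finset ℕ} (h : Good F A)
    (e : ∀ w ∈ F, A' w ⊆ A w) : Good F A' :=
  ⟨fun y => (h.1 y).elim fun w p => ⟨w, p.1, fun q => p.2 (e w p.1 q)⟩, fun y g n =>
    le_trans (Nat.add_le_add_right (card_le_card fun w p => by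
      obtain ⟨a, b, d⟩ := mem_filter.mp p
      exact mem_filter.mpr ⟨a, e w a b, e w a d⟩) 2) (h.2 y g n)⟩

/-- The last two phases: single bans off `F`, then Hall on `F`. -/
theorem fin_good (h : MC G D) (hD : 8 ≤ D) {T : Finset (Finset V)}
    (hT : ∀ K ∈ T, IsClq G K ∧ K.card = D) {F : Finset V}
    (ind : ∀ K ∈ T, ∀ L ∈ T, K ≠ L → ∀ a ∈ K ∩ F, ∀ b ∈ L ∩ F, ¬ G.Adj a b)
    (f4 : ∀ K ∈ T, 4 ≤ (K ∩ F).card) : ∀ n : ℕ, ∀ (c : V → ℕ) (U : Finset V), PCol G D c →
      (∀ v, c v < D ↔ v ∉ U) → (∀ v ∈ U, ∃ K ∈ T, v ∈ K) → (∀ K ∈ T, K ∩ F ⊆ U) →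
      (U \ F).card = n → (∀ K ∈ T, Good (K ∩ F) fun w => sn G D c K w \ K.image c) → False := by
  have dj : ∀ K ∈ T, ∀ L ∈ T, ∀ v ∈ K, v ∈ L → K = L := fun K k L l v p q =>
    dj8 h hD (hT K k).1 (hT K k).2 (hT L l).1 (hT L l).2 p q
  have o2 : ∀ K ∈ T, ∀ v ∈ K, (nb G v \ K).card ≤ 2 := fun K k v l =>
    out2 h (hT K k).1 (hT K k).2 l
  intro n
  induction n with
  | zero =>
    intro c U c1 c2 hU FU h0 gd
    have UF : U ⊆ F := sdiff_eq_empty_iff_subset.mp (card_eq_zero.mp h0)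
    have us : ∀ K ∈ T, ∀ y ∈ range D \ (K \ F).image c, y ∉ K.image c := fun K k y p q => by
      obtain ⟨m, m1, m2⟩ := mem_image.mp q
      obtain ⟨p1, p2⟩ := mem_sdiff.mp p
      exact p2 (mem_image.mpr ⟨m, mem_sdiff.mpr ⟨m1, fun t => (c2 m).mp (m2 ▸ mem_range.mp p1)
        (FU K k (mem_inter.mpr ⟨m1, t⟩))⟩, m2⟩)
    have ex := fun K (p : K ∈ T) => ext_hall (K ∩ F) (range D \ (K \ F).image c) (sn G D c K)
      (by
        have a := le_card_sdiff ((K \ F).image c) (range D)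
        have b : ((K \ F).image c).card ≤ (K \ F).card := card_image_le
        have d := card_sdiff_add_card_inter K F
        have := (hT K p).2
        rw [card_range] at a
        omega)
      (fun w q => (sn_le c K w).trans (o2 K p w (mem_inter.mp q).1))
      (fun y hy => by
        obtain ⟨w, q, r⟩ := (gd K p).1 y
        exact card_lt_card (filter_ssubset.2 ⟨w, q, fun t => r (mem_sdiff.mpr ⟨t, us K p y hy⟩)⟩))
      fun y hy g hg n => le_trans (Nat.add_le_add_right (card_le_card fun w t => by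
        obtain ⟨a, b, d⟩ := mem_filter.mp t
        exact mem_filter.mpr ⟨a, mem_sdiff.mpr ⟨b, us K p y hy⟩, mem_sdiff.mpr ⟨d, us K p g hg⟩⟩) 2)
        ((gd K p).2 y g n)
    choose! f f1 f2 using ex
    choose! κ κ1 κ2 using hU
    have m : ∀ v ∈ U, v ∈ κ v ∩ F := fun v p => mem_inter.mpr ⟨κ2 v p, UF p⟩
    have lt : ∀ v ∈ U, f (κ v) v < D := fun v p =>
      mem_range.1 (mem_sdiff.1 (f2 _ (κ1 v p) v (m v p)).1).1
    have out : ∀ u ∈ U, ∀ v ∉ U, G.Adj u v → f (κ u) u ≠ c v := fun u p v q e r => by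
      obtain ⟨a, b⟩ := f2 _ (κ1 u p) u (m u p)
      by_cases t : v ∈ κ u
      · exact (mem_sdiff.1 a).2 (mem_image.2 ⟨v, mem_sdiff.2 ⟨t, fun z =>
          q (FU _ (κ1 u p) (mem_inter.mpr ⟨t, z⟩))⟩, r.symm⟩)
      · exact b (mem_sn.2 ⟨v, e, t, (c2 v).mpr q, r.symm⟩)
    refine h.ncol ⟨fun v => if v ∈ U then f (κ v) v else c v, fun v => ?_, fun u v e => ?_⟩
    · beta_reduce
      split_ifs with q
      exacts [lt v q, (c2 v).mpr q]
    · by_cases p : u ∈ U <;> by_cases q : v ∈ U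
      · simp only [if_pos p, if_pos q]
        have t : κ u = κ v := by_contra fun t =>
          ind _ (κ1 u p) _ (κ1 v q) t u (m u p) v (m v q) e
        rw [← t]
        exact f1 _ (κ1 u p) u (m u p) v (t ▸ m v q) e.ne
      · simp only [if_pos p, if_neg q]
        exact out u p v q e
      · simp only [if_neg p, if_pos q]
        exact (out v q u p e.symm).symm
      · simp only [if_neg p, if_neg q]
        exact c1 u v e ((c2 u).mpr p)
  | succ n ih =>
    intro c U c1 c2 hU FU h0 gd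
    obtain ⟨v, hv⟩ := card_pos.mp (show 0 < (U \ F).card by omega)
    obtain ⟨vU, vF⟩ := mem_sdiff.mp hv
    obtain ⟨K0, k0, vK⟩ := hU v vU
    have cv : ¬ c v < D := fun e => (c2 v).1 e vU
    have ex := fun K (p : K ∈ T) => bans
      (N := (K ∩ F).filter fun w => G.Adj v w ∧ v ∉ K) (gd K p) (filter_subset _ _)
      (by
        have : ((K ∩ F).filter fun w => G.Adj v w ∧ v ∉ K).card ≤ 1 :=
          card_le_one.mpr fun a ha b hb => rs8 h hD (hT K p).1 (hT K p).2
            (mem_filter.mp ha).2.2 (mem_inter.mp (mem_filter.mp ha).1).1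
            (mem_inter.mp (mem_filter.mp hb).1).1 (mem_filter.mp ha).2.1 (mem_filter.mp hb).2.1
        have := f4 K p
        omega)
      fun w q => (card_le_card sdiff_subset).trans
        ((sn_le c K w).trans (o2 K p w (mem_inter.mp q).1))
    choose! B b1 b2 using ex
    have e1 : (T.biUnion B).card ≤ ((nb G v \ K0).filter fun m => ¬ c m < D).card := by
      refine card_biUnion_le.trans ((sum_le_sum b1).trans ?_)
      rw [← card_biUnion]
      · refine card_le_card fun w p => ?_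
        obtain ⟨K, p1, p2⟩ := mem_biUnion.1 p
        obtain ⟨p3, p4, p5⟩ := mem_filter.1 p2
        exact mem_filter.2 ⟨mem_sdiff.2 ⟨mem_nb.2 p4, fun e =>
          p5 (dj K0 k0 K p1 w e (mem_inter.mp p3).1 ▸ vK)⟩, fun e => (c2 w).mp e (FU K p1 p3)⟩
      · exact fun K p K' q n => disjoint_left.2 fun w r t => n (dj K p K' q w
          (mem_inter.1 (mem_filter.1 r).1).1 (mem_inter.1 (mem_filter.1 t).1).1)
    have e2 := card_filter_add_card_filter_not (s := nb G v \ K0) fun m => c m < D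
    have e3 : (sn G D c K0 v).card ≤ ((nb G v \ K0).filter fun m => c m < D).card :=
      card_image_le
    have e4 : ((K0 \ F).image c).card ≤ (K0 \ F).card := card_image_le
    have e5 := card_sdiff_add_card_inter K0 F
    have e6 := f4 K0 k0
    have e7 := (hT K0 k0).2
    have e8 := o2 K0 k0 v vK
    obtain ⟨y, y1, y2⟩ := exists_col_notMem (D := D)
      ((K0 \ F).image c ∪ (sn G D c K0 v ∪ T.biUnion B)) (by
        have := card_union_le ((K0 \ F).image c) (sn G D c K0 v ∪ T.biUnion B)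
        have := card_union_le (sn G D c K0 v) (T.biUnion B)
        omega)
    simp only [mem_union, not_or] at y2
    refine ih (Function.update c v y) (U.erase v) (c1.put fun e p q => ?_) (fun u => ?_)
      (fun u p => hU u (mem_of_mem_erase p)) (fun K k u p => mem_erase.mpr
        ⟨fun e => vF (e ▸ (mem_inter.mp p).2), FU K k p⟩) ?_
      fun K p => good_anti (b2 K p y fun e => y2.2.2 (mem_biUnion.2 ⟨K, p, e⟩)) fun w q z t => ?_
    · by_cases r : e ∈ K0
      · exact y2.1 (mem_image.2 ⟨e, mem_sdiff.2 ⟨r, fun z => (c2 e).mp (q ▸ y1)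
          (FU K0 k0 (mem_inter.mpr ⟨r, z⟩))⟩, q⟩)
      · exact y2.2.1 (mem_sn.2 ⟨e, p, r, q ▸ y1, q⟩)
    · by_cases e : u = v
      · simp [e, y1]
      · rw [Function.update_of_ne e, c2 u, mem_erase, and_iff_right e]
    · rw [erase_sdiff_comm, card_erase_of_mem hv]
      omega
    · obtain ⟨t1, t2⟩ := mem_sdiff.mp t
      obtain ⟨m, r1, r2, r3, r4⟩ := mem_sn.mp t1
      by_cases e : m = v
      · subst e
        rw [if_pos (mem_filter.mpr ⟨q, r1.symm, r2⟩)]
        rw [Function.update_self] at r4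
        exact r4 ▸ mem_insert_self _ _
      · rw [Function.update_of_ne e] at r3 r4
        have : z ∈ sn G D c K w \ K.image c := mem_sdiff.mpr ⟨mem_sn.mpr ⟨m, r1, r2, r3, r4⟩,
          fun s => by
            obtain ⟨x, x1, x2⟩ := mem_image.mp s
            have : x ≠ v := fun e => cv (by rw [← e, x2, ← r4]; exact r3)
            exact t2 (mem_image.mpr ⟨x, x1, by rw [Function.update_of_ne this, x2]⟩)⟩
        split_ifs
        exacts [mem_insert_of_mem this, this]

end Pool.Agent.Lib.MP_12eaff_co.Frz.BK
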