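import Mathlib

set_option autoImplicit false

namespace Pool.Agent.Lib.MP_12eaff_co.Frz.BK

open Finset
open scoped Classical

theorem place {P Y : Finset ℕ} (hP : 2 ≤ P.card) (hY : Y ⊆ P) (h2 : Y.card ≤ 2) {l m : ℕ}
    (h : l ≠ m ∨ l ∉ P) : ∃ x ∈ P, ∃ y ∈ P, x ≠ y ∧ x ≠ l ∧ y ≠ m ∧ Y ⊆ {x, y} := by
  obtain ⟨Q, q1, q2, q3⟩ := exists_subsuperset_card_eq hY h2 hP
  obtain ⟨x, y, n, rfl⟩ := card_eq_two.mp q3
  have hx : x ∈ P := q2 (by simp)
  have hy : y ∈ P := q2 (by simp)
  by_cases e : x ≠ l ∧ y ≠ m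
  · exact ⟨x, hx, y, hy, n, e.1, e.2, q1⟩
  · refine ⟨y, hy, x, hx, n.symm, ?_, ?_, by rwa [pair_comm]⟩
    · rintro rfl
      rcases h with h | h
      · exact e ⟨n, h⟩
      · exact h hy
    · rintro rfl
      rcases h with h | h
      · exact e ⟨h.symm, n.symm⟩
      · exact e ⟨fun q => h (q ▸ hx), n.symm⟩

theorem must (P Q : Finset ℕ) : ∃ Y, Y ⊆ P ∪ Q ∧ (P.card ≤ 2 → Y.card ≤ 2) ∧ P ∩ Q ⊆ Y ∧
    (∀ x ∈ P, ∃ y ∈ P, y ∈ Y) ∧ ∀ x ∈ Q, ∃ y ∈ Q, y ∈ Y := by
  by_cases e : (P ∩ Q).Nonempty
  · obtain ⟨y, hy⟩ := e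
    exact ⟨P ∩ Q, inter_subset_union, fun h => le_trans (card_le_card inter_subset_left) h,
      subset_rfl, fun _ _ => ⟨y, (mem_inter.mp hy).1, hy⟩,
      fun _ _ => ⟨y, (mem_inter.mp hy).2, hy⟩⟩
  · have one : ∀ R : Finset ℕ, ∃ S ⊆ R, S.card ≤ 1 ∧ ∀ x ∈ R, ∃ y ∈ R, y ∈ S := by
      intro R
      rcases R.eq_empty_or_nonempty with rfl | ⟨y, hy⟩
      · exact ⟨∅, subset_rfl, by simp, by simp⟩
      · exact ⟨{y}, by simpa using hy, by simp, fun _ _ => ⟨y, hy, by simp⟩⟩
    obtain ⟨S, s1, s2, s3⟩ := one P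
    obtain ⟨R, r1, r2, r3⟩ := one Q
    refine ⟨S ∪ R, union_subset_union s1 r1, fun _ => ?_, ?_, fun x hx => ?_, fun x hx => ?_⟩
    · have := card_union_le S R
      omega
    · rw [not_nonempty_iff_eq_empty.mp e]
      exact empty_subset _
    · obtain ⟨y, a, b⟩ := s3 x hx
      exact ⟨y, a, mem_union_left _ b⟩
    · obtain ⟨y, a, b⟩ := r3 x hx
      exact ⟨y, a, mem_union_right _ b⟩

variable {V : Type}

/-- Pairs `u`, `m u` are coloured in the order of `r`; every vertex has one link `pt`. -/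
theorem run (D : ℕ) (A : Finset V) (m : V → V) (r β g0 : V → ℕ) (P : V → Finset ℕ)
    (Y : V → (V → ℕ) → Finset ℕ) (mA : ∀ u ∈ A, m u ∈ A) (mm : ∀ u ∈ A, m (m u) = u)
    (rm : ∀ u ∈ A, r (m u) = r u) (ri : ∀ u ∈ A, ∀ v ∈ A, r u = r v → v = u ∨ v = m u)
    (hβ : ∀ u ∈ A, β u ≠ β (m u)) (Pm : ∀ u ∈ A, P (m u) = P u)
    (Ym : ∀ u ∈ A, Y (m u) = Y u) (PD : ∀ u ∈ A, ∀ y ∈ P u, y < D)
    (P2 : ∀ u ∈ A, 2 ≤ (P u).card) (YP : ∀ u ∈ A, ∀ g, Y u g ⊆ P u ∧ (Y u g).card ≤ 2)
    (dep : ∀ u ∈ A, ∀ g g' : V → ℕ, (∀ v, ¬ (v ∈ A ∧ r u ≤ r v) → g v = g' v) → Y u g = Y u g') :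
    ∀ n : ℕ, ∀ pt : V → V,
      (∀ u ∈ A, r u < n → pt u ∈ A → r (pt u) < n → pt (pt u) = u ∧ β u = β (m (pt u))) →
      (∀ u ∈ A, r u < n → ¬ (pt u ∈ A ∧ r (pt u) < n) → g0 (pt u) < D → g0 (pt u) = β u) →
      ∃ g : V → ℕ, (∀ v, ¬ (v ∈ A ∧ r v < n) → g v = g0 v) ∧ ∀ u ∈ A, r u < n →
        g u ∈ P u ∧ g u ≠ g (m u) ∧ Y u g ⊆ {g u, g (m u)} ∧ g u ≠ g (pt u) := by
  intro n
  induction n with
  | zero => exact fun _ _ _ => ⟨g0, fun _ _ => rfl, fun _ _ h => absurd h (by omega)⟩
  | succ n ih =>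
    intro pt l1 l2
    by_cases ex : ∃ a ∈ A, r a = n
    swap
    · have k : ∀ u ∈ A, r u < n + 1 → r u < n := fun u hu h =>
        lt_of_le_of_ne (by omega) (fun e => ex ⟨u, hu, e⟩)
      obtain ⟨g, g1, g2⟩ := ih pt (fun u a b d e => l1 u a (by omega) d (by omega))
        (fun u a b d => l2 u a (by omega) (fun q => d ⟨q.1, k _ q.1 q.2⟩))
      exact ⟨g, fun v q => g1 v (fun t => q ⟨t.1, by omega⟩), fun u a b => g2 u a (k u a b)⟩
    obtain ⟨a, ha, ra⟩ := ex
    have hb := mA a ha
    have rb : r (m a) = n := (rm a ha).trans ra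
    have ab : a ≠ m a := fun e => hβ a ha (by rw [← e])
    have top : ∀ v ∈ A, r v < n + 1 → r v < n ∨ v = a ∨ v = m a := fun v hv h => by
      by_cases e : r v = n
      · exact Or.inr (ri a ha v hv (by omega))
      · exact Or.inl (by omega)
    have xa : pt a ≠ a := fun e => hβ a ha (by
      have := (l1 a ha (by omega) (by rwa [e]) (by rw [e]; omega)).2
      rwa [e] at this)
    have yb : pt (m a) ≠ m a := fun e => hβ _ hb (by
      have := (l1 _ hb (by omega) (by rwa [e]) (by rw [e]; omega)).2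
      rwa [e] at this)
    have ta : ∀ u ∈ A, r u < n + 1 → pt u = a → pt a = u ∧ β u = β (m a) := fun u hu h e => by
      have := l1 u hu h (by rwa [e]) (by rw [e]; omega)
      rwa [e] at this
    have tb : ∀ u ∈ A, r u < n + 1 → pt u = m a → pt (m a) = u ∧ β u = β a := fun u hu h e => by
      have := l1 u hu h (by rwa [e]) (by rw [e]; omega)
      rwa [e, mm a ha] at this
    obtain ⟨g, g1, g2⟩ := ih
      (fun u => if pt u = a then pt (m a) else if pt u = m a then pt a else pt u)
      (fun u hu h => by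
        by_cases e1 : pt u = a
        · simp only [if_pos e1]
          intro p q
          obtain ⟨t1, t2⟩ := l1 _ hb (by omega) p (by omega)
          obtain ⟨s1, s2⟩ := ta u hu (by omega) e1
          rw [t1, if_neg ab.symm, if_pos rfl]
          exact ⟨s1, s2.trans t2⟩
        by_cases e2 : pt u = m a
        · simp only [if_neg e1, if_pos e2]
          intro p q
          obtain ⟨t1, t2⟩ := l1 _ ha (by omega) p (by omega)
          obtain ⟨s1, s2⟩ := tb u hu (by omega) e2
          rw [t1, if_pos rfl]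
          exact ⟨s1, s2.trans t2⟩
        simp only [if_neg e1, if_neg e2]
        intro p q
        obtain ⟨t1, t2⟩ := l1 u hu (by omega) p (by omega)
        have n1 : u ≠ a := fun e => by rw [e] at h; omega
        have n2 : u ≠ m a := fun e => by rw [e] at h; omega
        rw [t1, if_neg n1, if_neg n2]
        exact ⟨rfl, t2⟩)
      (fun u hu h => by
        by_cases e1 : pt u = a
        · simp only [if_pos e1]
          intro p q
          obtain ⟨s1, s2⟩ := ta u hu (by omega) e1
          rw [s2]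
          refine l2 _ hb (by omega) (fun t => ?_) q
          rcases top _ t.1 t.2 with z | z | z
          · exact p ⟨t.1, z⟩
          · have := (ta _ hb (by omega) z).1
            rw [s1] at this
            rw [this] at h
            omega
          · exact yb z
        by_cases e2 : pt u = m a
        · simp only [if_neg e1, if_pos e2]
          intro p q
          obtain ⟨s1, s2⟩ := tb u hu (by omega) e2
          rw [s2]
          refine l2 _ ha (by omega) (fun t => ?_) q
          rcases top _ t.1 t.2 with z | z | z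
          · exact p ⟨t.1, z⟩
          · exact xa z
          · have := (tb _ ha (by omega) z).1
            rw [s1] at this
            rw [this] at h
            omega
        simp only [if_neg e1, if_neg e2]
        intro p q
        refine l2 u hu (by omega) (fun t => ?_) q
        rcases top _ t.1 t.2 with z | z | z
        · exact p ⟨t.1, z⟩
        · exact e1 z
        · exact e2 z)
    have key : ∃ x ∈ P a, ∃ y ∈ P a, x ≠ y ∧ (pt a ≠ m a → x ≠ g (pt a)) ∧
        (pt (m a) ≠ a → y ≠ g (pt (m a))) ∧ Y a g ⊆ {x, y} := by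
      by_cases e : pt a = m a
      · obtain ⟨x, x1, y, y1, n1, -, -, n2⟩ := place (l := 0) (m := 1) (P2 a ha) (YP a ha g).1
          (YP a ha g).2 (Or.inl (by omega))
        exact ⟨x, x1, y, y1, n1, fun q => absurd e q,
          fun q => absurd (tb a ha (by omega) e).1 q, n2⟩
      have e' : pt (m a) ≠ a := fun q => e (ta _ hb (by omega) q).1
      obtain ⟨x, x1, y, y1, n1, n3, n4, n2⟩ := place (l := g (pt a)) (m := g (pt (m a)))
        (P2 a ha) (YP a ha g).1 (YP a ha g).2 (by
          by_cases p : pt a ∈ A ∧ r (pt a) < n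
          · have := (g2 _ p.1 p.2).2.2.2
            rw [(l1 a ha (by omega) p.1 (by omega)).1, if_pos rfl] at this
            exact Or.inl this
          by_cases q : pt (m a) ∈ A ∧ r (pt (m a)) < n
          · have := (g2 _ q.1 q.2).2.2.2
            rw [(l1 _ hb (by omega) q.1 (by omega)).1, if_neg ab.symm, if_pos rfl] at this
            exact Or.inl this.symm
          rw [g1 _ p, g1 _ q]
          by_contra z
          rw [not_or, not_not, not_not] at z
          have lt := PD a ha _ z.2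
          have b1 := l2 a ha (by omega) (fun t => by
            rcases top _ t.1 t.2 with s | s | s
            exacts [p ⟨t.1, s⟩, xa s, e s]) lt
          have b2 := l2 _ hb (by omega) (fun t => by
            rcases top _ t.1 t.2 with s | s | s
            exacts [q ⟨t.1, s⟩, e' s, yb s]) (z.1 ▸ lt)
          exact hβ a ha (b1.symm.trans (z.1.trans b2)))
      exact ⟨x, x1, y, y1, n1, fun _ => n3, fun _ => n4, n2⟩
    obtain ⟨x, x1, y, y1, n1, n3, n4, n2⟩ := key
    set g' := Function.update (Function.update g a x) (m a) y with hg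
    have ga : g' a = x := by rw [hg, Function.update_of_ne ab, Function.update_self]
    have gb : g' (m a) = y := by rw [hg, Function.update_self]
    have go : ∀ v, v ≠ a → v ≠ m a → g' v = g v := fun v p q => by
      rw [hg, Function.update_of_ne q, Function.update_of_ne p]
    have lo : ∀ v, r v < n → g' v = g v := fun v h =>
      go v (fun e => by rw [e] at h; omega) (fun e => by rw [e] at h; omega)
    have yy : ∀ u ∈ A, r u ≤ n → Y u g' = Y u g := fun u hu h => dep u hu _ _ (fun v q =>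
      go v (fun e => q (by rw [e]; exact ⟨ha, by omega⟩))
        (fun e => q (by rw [e]; exact ⟨hb, by omega⟩)))
    refine ⟨g', fun v q => ?_, fun u hu h => ?_⟩
    · rw [go v (fun e => q (by rw [e]; exact ⟨ha, by omega⟩))
        (fun e => q (by rw [e]; exact ⟨hb, by omega⟩))]
      exact g1 v (fun t => q ⟨t.1, by omega⟩)
    rcases top u hu h with z | z | z
    · obtain ⟨p1, p2, p3, p4⟩ := g2 u hu z
      rw [lo u z, lo (m u) (by rw [rm u hu]; exact z), yy u hu (by omega)]
      refine ⟨p1, p2, p3, ?_⟩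
      by_cases e1 : pt u = a
      · have s := (ta u hu h e1).1
        rw [e1, ga]
        have := n3 (fun e => by rw [s] at e; rw [e] at z; omega)
        rw [s] at this
        exact this.symm
      by_cases e2 : pt u = m a
      · have s := (tb u hu h e2).1
        rw [e2, gb]
        have := n4 (fun e => by rw [s] at e; rw [e] at z; omega)
        rw [s] at this
        exact this.symm
      rw [go _ e1 e2]
      simpa only [if_neg e1, if_neg e2] using p4
    · rw [z, ga, gb, yy a ha (by omega)]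
      refine ⟨x1, n1, n2, ?_⟩
      by_cases e : pt a = m a
      · rw [e, gb]
        exact n1
      · rw [go _ xa e]
        exact n3 e
    · rw [z, mm a ha, ga, gb, Pm a ha, Ym a ha, yy a ha (by omega), pair_comm]
      refine ⟨y1, n1.symm, n2, ?_⟩
      by_cases e : pt (m a) = a
      · rw [e, ga]
        exact n1.symm
      · rw [go _ e yb]
        exact n4 e

end Pool.Agent.Lib.MP_12eaff_co.Frz.BK
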