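import Pool.Agent.Lib.MP_12eaff_co.Frz.Dich

set_option autoImplicit false

namespace Pool.Agent.Lib.MP_12eaff_co.Frz.Dich

open Finset
open scoped Classical

variable {V ι : Type}

def Cc2 (W : Finset V) (cl : V → ι) (X : V → V → Prop) (c : ι → ℕ) (r : ι → ℕ) (S : Finset ι)
    (L P I : Finset V) : Prop :=
  ∃ J U, St W cl X c P J ∧ (∀ u, cl u ∈ S → (u ∈ J ↔ u ∈ I)) ∧ (∀ k ∈ U, k ∉ S) ∧
    (∀ k ∈ U, r k + 1 ≤ (zc W cl J k).card) ∧ Sel W cl X J S U L P

def Dd2 (W : Finset V) (cl : V → ι) (X : V → V → Prop) (c : ι → ℕ) (r : ι → ℕ) (S : Finset ι) :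
    Prop :=
  ∀ K ∈ S, ∀ P I, St W cl X c P I → Rr W cl X c S K P I ∨ Cc2 W cl X c r S (zc W cl I K) P I

variable {W : Finset V} {cl : V → ι} {X : V → V → Prop} {c r : ι → ℕ}

/-- Freeing one vertex `x` from its neighbours in `I`. -/
theorem free2 (hd : ∀ v ∈ W, (W.filter (X v)).card ≤ 2) (hc : ∀ k, r k + 1 ≤ c k) (S : Finset ι)
    (H : ∀ k ∈ W.image cl, k ∉ S → Dd2 W cl X c r (insert k S)) (P : Finset V) {x : V}
    (hx : x ∈ W) : ∀ n : ℕ, ∀ I, St W cl X c P I → (I.filter (X x)).card ≤ n →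
      (∀ w ∈ I, X x w → cl w ∉ S) →
      (∃ J, St W cl X c P J ∧ (∀ u, cl u ∈ S → (u ∈ J ↔ u ∈ I)) ∧ ∀ w ∈ J, ¬ X x w) ∨
      (∃ J w U Q, St W cl X c P J ∧ (∀ u, cl u ∈ S → (u ∈ J ↔ u ∈ I)) ∧ w ∈ J ∧ X x w ∧
        cl w ∉ S ∧ (∀ k ∈ U, k ∉ insert (cl w) S) ∧
        (∀ k ∈ insert (cl w) U, r k + 1 ≤ (zc W cl J k).card) ∧ Q.card ≤ 1 ∧ (∀ q ∈ Q, X x q) ∧
        Sel W cl X J (insert (cl w) S) U (zc W cl J (cl w)) (P ∪ Q)) := by
  intro n
  induction n with
  | zero =>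
    intro I h hn _
    refine Or.inl ⟨I, h, fun _ _ => Iff.rfl, fun w hw q => ?_⟩
    have := card_pos.mpr ⟨w, mem_filter.mpr ⟨hw, q⟩⟩
    omega
  | succ n ih =>
    intro I h hn hS
    by_cases ex : ∃ w ∈ I, X x w
    swap
    · exact Or.inl ⟨I, h, fun _ _ => Iff.rfl, fun w hw q => ex ⟨w, hw, q⟩⟩
    obtain ⟨w, hw, xw⟩ := ex
    have wS := hS w hw xw
    have next : ∀ J, St W cl X c P J → (∀ u, cl u ∈ S → (u ∈ J ↔ u ∈ I)) →
        (∀ u ∈ J, X x u → u ∈ I ∧ u ≠ w) →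
        (∃ J, St W cl X c P J ∧ (∀ u, cl u ∈ S → (u ∈ J ↔ u ∈ I)) ∧ ∀ w ∈ J, ¬ X x w) ∨
        (∃ J w U Q, St W cl X c P J ∧ (∀ u, cl u ∈ S → (u ∈ J ↔ u ∈ I)) ∧ w ∈ J ∧ X x w ∧
          cl w ∉ S ∧ (∀ k ∈ U, k ∉ insert (cl w) S) ∧
          (∀ k ∈ insert (cl w) U, r k + 1 ≤ (zc W cl J k).card) ∧ Q.card ≤ 1 ∧
          (∀ q ∈ Q, X x q) ∧
          Sel W cl X J (insert (cl w) S) U (zc W cl J (cl w)) (P ∪ Q)) := by
      intro J hJ ag sm
      have cn : (J.filter (X x)).card ≤ n := by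
        have s1 : J.filter (X x) ⊆ (I.filter (X x)).erase w := by
          intro u hu
          obtain ⟨a, b⟩ := mem_filter.mp hu
          exact mem_erase.mpr ⟨(sm u a b).2, mem_filter.mpr ⟨(sm u a b).1, b⟩⟩
        have s2 := card_le_card s1
        rw [card_erase_of_mem (mem_filter.mpr ⟨hw, xw⟩)] at s2
        omega
      rcases ih J hJ cn (fun u a b => hS u (sm u a b).1 b) with ⟨M, m1, m2, m3⟩ |
        ⟨M, v, U, Q, m1, m2, m3⟩
      · exact Or.inl ⟨M, m1, fun u hu => (m2 u hu).trans (ag u hu), m3⟩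
      · exact Or.inr ⟨M, v, U, Q, m1, fun u hu => (m2 u hu).trans (ag u hu), m3⟩
    have ne : ∀ u, cl u ∈ S → u ≠ w := fun u hu e => wS (e ▸ hu)
    by_cases ld : (zc W cl I (cl w)).card ≤ r (cl w)
    · refine next (I.erase w) (h.drop w (by have := hc (cl w); omega)) (fun u hu => ?_)
        (fun u hu _ => ⟨mem_of_mem_erase hu, (mem_erase.mp hu).1⟩)
      simp [ne u hu]
    have hQ : (W.filter (X x) \ I).card ≤ 1 := by
      have s1 : W.filter (X x) \ I ⊆ (W.filter (X x)).erase w := by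
        intro u hu
        obtain ⟨a, b⟩ := mem_sdiff.mp hu
        exact mem_erase.mpr ⟨fun e => b (e ▸ hw), a⟩
      have s2 := card_le_card s1
      rw [card_erase_of_mem (mem_filter.mpr ⟨h.sub hw, xw⟩)] at s2
      have := hd x hx
      omega
    have h2 : St W cl X c (P ∪ (W.filter (X x) \ I)) I := by
      refine ⟨h.sub, h.ind, h.cap, fun u hu => ?_⟩
      rcases mem_union.mp hu with q | q
      · exact h.off u q
      · exact (mem_sdiff.mp q).2
    have wk : ∀ J, St W cl X c (P ∪ (W.filter (X x) \ I)) J → St W cl X c P J := fun J q =>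
      ⟨q.sub, q.ind, q.cap, fun u hu => q.off u (mem_union_left _ hu)⟩
    rcases H (cl w) (mem_image_of_mem _ (h.sub hw)) wS (cl w) (mem_insert_self _ _) _ I h2 with
      ⟨J, j1, j2, j3⟩ | ⟨J, U, j1, j2, j3, j4, j5⟩
    · refine next (J.erase w) ((wk J j1).drop w (by have := h.cap (cl w); omega))
        (fun u hu => ?_) (fun u hu b => ⟨?_, (mem_erase.mp hu).1⟩)
      · rw [← j2 u (mem_insert_of_mem hu) (fun e => wS (e ▸ hu))]
        simp [ne u hu]
      · by_contra q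
        have a := mem_of_mem_erase hu
        exact j1.off u (mem_union_right _ (mem_sdiff.mpr ⟨mem_filter.mpr ⟨j1.sub a, b⟩, q⟩)) a
    · have ez : zc W cl J (cl w) = zc W cl I (cl w) :=
        zc_eq (fun u hu => j2 u (hu ▸ mem_insert_self _ _))
      refine Or.inr ⟨J, w, U, W.filter (X x) \ I, wk J j1,
        fun u hu => j2 u (mem_insert_of_mem hu), (j2 w (mem_insert_self _ _)).mpr hw, xw, wS, j3,
        fun k hk => ?_, hQ, fun q hq => (mem_filter.mp (mem_sdiff.mp hq).1).2, ez ▸ j5⟩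
      rcases mem_insert.mp hk with e | e
      · rw [e, ez]
        omega
      · exact j4 k e

theorem members2 (hs : ∀ u v, X u v → X v u) (hi : ∀ v, ¬ X v v)
    (hd : ∀ v ∈ W, (W.filter (X v)).card ≤ 2) (hc : ∀ k, r k + 1 ≤ c k) {S : Finset ι} {K : ι}
    (hK : K ∈ S) {P I : Finset V} (h : St W cl X c P I)
    (H : ∀ S1, S ⊆ S1 → ∀ k ∈ W.image cl, k ∉ S1 → Dd2 W cl X c r (insert k S1)) :
    ∀ L : Finset V, L ⊆ zc W cl I K → Rr W cl X c S K P I ∨ Cc2 W cl X c r S L P I := by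
  intro L
  induction L using Finset.induction_on with
  | empty =>
    intro _
    refine Or.inr ⟨I, ∅, h, fun _ _ => Iff.rfl, by simp, by simp, fun N _ => ⟨∅, ?_⟩⟩
    constructor <;> simp
  | insert x L xL ih =>
    intro hl
    rcases ih (subset_trans (subset_insert _ _) hl) with q | ⟨J, U, j1, j2, j3, j4, j5⟩
    · exact Or.inl q
    obtain ⟨xW, xI, xK⟩ := mem_zc.mp (hl (mem_insert_self _ _))
    have xS : cl x ∈ S := xK ▸ hK
    have xJ : x ∉ J := fun q => xI ((j2 x xS).mp q)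
    have hL : ∀ a ∈ L, cl a ∈ S := fun a ha => by
      rw [(mem_zc.mp (hl (mem_insert_of_mem ha))).2.2]
      exact hK
    by_cases hx : x ∈ P ∨ ∃ w ∈ J, X x w ∧ (cl w ∈ S ∨ cl w ∈ U)
    · exact Or.inr ⟨J, U, j1, j2, j3, j4, j5.add0 j3 xW xJ xS xL hx⟩
    rw [not_or] at hx
    rcases free2 hd hc (S ∪ U) (H _ subset_union_left) P xW _ J j1 le_rfl
      (fun w a b q => hx.2 ⟨w, a, b, mem_union.mp q⟩) with ⟨M, m1, m2, m3⟩ |
      ⟨M, w, U', Q, m1, m2, m3, m4, m5, m6, m7, m8, m9, m10⟩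
    · have sb : ∀ k, zc W cl (insert x M) k ⊆ zc W cl M k := fun k u hu => by
        rw [mem_zc] at hu ⊢
        exact ⟨hu.1, fun q => hu.2.1 (mem_insert_of_mem q), hu.2.2⟩
      refine Or.inl ⟨insert x M, ⟨insert_subset xW m1.sub, fun u hu v hv => ?_,
        fun k => le_trans (card_le_card (sb k)) (m1.cap k), fun u hu q => ?_⟩,
        fun u a b => ?_, ?_⟩
      · rcases mem_insert.mp hu with a | a <;> rcases mem_insert.mp hv with b | b
        · rw [a, b]
          exact hi x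
        · rw [a]
          exact m3 v b
        · rw [b]
          exact fun q => m3 u a (hs _ _ q)
        · exact m1.ind u a v b
      · rcases mem_insert.mp q with a | a
        · exact hx.1 (a ▸ hu)
        · exact m1.off u hu a
      · have : u ≠ x := fun e => b (e ▸ xK)
        rw [← j2 u a, ← m2 u (mem_union_left _ a)]
        simp [this]
      · refine card_lt_card ⟨fun u hu => ?_, fun q => ?_⟩
        · have := mem_zc.mp (sb K hu)
          have uS : cl u ∈ S := this.2.2 ▸ hK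
          exact mem_zc.mpr ⟨this.1, fun q => this.2.1
            ((m2 u (mem_union_left _ uS)).mpr ((j2 u uS).mpr q)), this.2.2⟩
        · exact (mem_zc.mp (q (hl (mem_insert_self _ _)))).2.1 (mem_insert_self _ _)
    · have hT : ∀ k ∈ insert (cl w) U', k ∉ S ∧ k ∉ U := by
        intro k hk
        rw [← not_or, ← mem_union]
        rcases mem_insert.mp hk with e | e
        · exact e ▸ m5
        · exact fun q => m6 k e (mem_insert_of_mem q)
      have mv : Sel W cl X M S U L P := fun N hN => by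
        obtain ⟨A, p⟩ := j5 N hN
        exact ⟨A, p.move hL (fun u q => m2 u (mem_union.mpr q))⟩
      refine Or.inr ⟨M, U ∪ insert (cl w) U', m1,
        fun u a => (m2 u (mem_union_left _ a)).trans (j2 u a), fun k hk => ?_, fun k hk => ?_,
        mv.add1 hs j3 hL xW (fun q => xJ ((m2 x (mem_union_left _ xS)).mp q)) xS xL m3 m4 hT
          m8 m9 m10⟩
      · rcases mem_union.mp hk with e | e
        · exact j3 k e
        · exact (hT k e).1
      · rcases mem_union.mp hk with e | e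
        · rw [zc_eq (I := J) (fun u hu => m2 u (mem_union_right _ (by rw [hu]; exact e)))]
          exact j4 k e
        · exact m7 k e

theorem dfs2 (hs : ∀ u v, X u v → X v u) (hi : ∀ v, ¬ X v v)
    (hd : ∀ v ∈ W, (W.filter (X v)).card ≤ 2) (hc : ∀ k, r k + 1 ≤ c k) :
    ∀ n : ℕ, ∀ S : Finset ι, (W.image cl \ S).card ≤ n → Dd2 W cl X c r S := by
  intro n
  induction n with
  | zero =>
    intro S hn K hK P I h
    refine members2 hs hi hd hc hK h (fun S1 a k b d => ?_) _ subset_rfl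
    have := card_pos.mpr ⟨k, mem_sdiff.mpr ⟨b, fun q => d (a q)⟩⟩
    omega
  | succ n ih =>
    intro S hn K hK P I h
    refine members2 hs hi hd hc hK h (fun S1 a k b d => ih _ ?_) _ subset_rfl
    have s1 : W.image cl \ insert k S1 ⊆ (W.image cl \ S).erase k := by
      intro j hj
      obtain ⟨p, q⟩ := mem_sdiff.mp hj
      rw [mem_insert, not_or] at q
      exact mem_erase.mpr ⟨q.1, mem_sdiff.mpr ⟨p, fun t => q.2 (a t)⟩⟩
    have s2 := card_le_card s1
    rw [card_erase_of_mem (mem_sdiff.mpr ⟨b, fun q => d (a q)⟩)] at s2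
    omega

/-- The blocked outcome for class dependent bounds `r`, from a start state with loads `≤ e`. -/
structure Blk2 (W : Finset V) (cl : V → ι) (X : V → V → Prop) (r e : ι → ℕ) (I A : Finset V)
    (K : ι) (U : Finset ι) : Prop where
  sub : I ⊆ W
  ind : ∀ u ∈ I, ∀ v ∈ I, ¬ X u v
  root : K ∉ U
  big : r K + 2 ≤ (zc W cl I K).card
  all : zc W cl I K ⊆ A
  low : ∀ k ∈ U, r k + 1 ≤ (zc W cl I k).card
  up : ∀ k, (zc W cl I k).card ≤ max (r k + 1) (e k)
  one : ∀ k ∈ U, (zc W cl I k \ A).card ≤ 1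
  reg : ∀ a ∈ A, a ∈ W ∧ a ∉ I ∧ cl a ∈ insert K U
  ok : ∀ a ∈ A, ∃ w ∈ W, X a w ∧ w ∉ A ∧ cl w ∈ insert K U
  out : ∀ z ∈ W, z ∉ I → cl z ∈ U → z ∉ A → (∃ w ∈ I, X z w ∧ cl w ∈ U) ∨
    (∃ y ∈ A, X y z ∧ ∃ w ∈ I, X y w ∧ cl w ∈ U)

theorem dich2 (W : Finset V) (cl : V → ι) (X : V → V → Prop) (r e : ι → ℕ)
    (hs : ∀ u v, X u v → X v u) (hi : ∀ v, ¬ X v v)
    (hd : ∀ v ∈ W, (W.filter (X v)).card ≤ 2) : ∀ n : ℕ, ∀ I ⊆ W, (∀ u ∈ I, ∀ v ∈ I, ¬ X u v) →
      (∀ k, (zc W cl I k).card ≤ max (r k + 1) (e k)) →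
      ∑ k ∈ W.image cl, ((zc W cl I k).card - (r k + 1)) ≤ n →
      (∃ J ⊆ W, (∀ u ∈ J, ∀ v ∈ J, ¬ X u v) ∧ ∀ k, (zc W cl J k).card ≤ r k + 1) ∨
        ∃ J A K U, Blk2 W cl X r e J A K U := by
  intro n
  induction n using Nat.strong_induction_on with
  | _ n ih =>
    intro I i1 i2 i3 hn
    by_cases ld : ∀ k, (zc W cl I k).card ≤ r k + 1
    · exact Or.inl ⟨I, i1, i2, ld⟩
    push Not at ld
    obtain ⟨K, ld⟩ := ld
    have up : ∀ J, St W cl X (fun k => max (r k + 1) (zc W cl I k).card) ∅ J →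
        ∀ k, (zc W cl J k).card ≤ max (r k + 1) (e k) := fun J j k =>
      le_trans (j.cap k) (max_le (le_max_left _ _) (i3 k))
    rcases dfs2 (r := r) (c := fun k => max (r k + 1) (zc W cl I k).card) hs hi hd
      (fun k => le_max_left _ _) _ {K} le_rfl K (mem_singleton_self _) ∅ I
      ⟨i1, i2, fun k => le_max_right _ _, by simp⟩ with ⟨J, j1, _, j3⟩ | ⟨J, U, j1, j2, j3, j4, j5⟩
    · refine ih _ (lt_of_lt_of_le (sum_lt_sum (fun k _ => ?_) ⟨K, ?_, by omega⟩) hn) J j1.sub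
        j1.ind (up J j1) le_rfl
      · have := j1.cap k
        omega
      · obtain ⟨u, hu⟩ := card_pos.mp (show 0 < (zc W cl I K).card by omega)
        exact mem_image.mpr ⟨u, (mem_zc.mp hu).1, (mem_zc.mp hu).2.2⟩
    obtain ⟨A, p⟩ := j5 ∅ (by simp)
    have ez : zc W cl J K = zc W cl I K := zc_eq (fun u hu => j2 u (by simp [hu]))
    have hl : zc W cl I K ⊆ A := p.all (by simp)
    have rg : ∀ a, (cl a ∈ U ∨ a ∈ zc W cl I K) → cl a ∈ insert K U := fun a q =>
      q.elim mem_insert_of_mem (fun t => by rw [(mem_zc.mp t).2.2]; exact mem_insert_self _ _)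
    refine Or.inr ⟨J, A, K, U, j1.sub, j1.ind, fun q => j3 K q (mem_singleton_self _),
      by rw [ez]; omega, ez ▸ hl, j4, up J j1, p.one,
      fun a ha => ⟨(p.reg a ha).1, (p.reg a ha).2.1, rg a (p.reg a ha).2.2⟩, fun a ha => ?_,
      fun z a b d e => ?_⟩
    · rcases p.ok a ha with q | ⟨w, q1, q2, q3⟩ | ⟨w, q1, q2, q3, q4⟩
      · simp at q
      · refine ⟨w, j1.sub q1, q2, fun t => (p.reg w t).2.1 q1, ?_⟩
        rcases q3 with s | s
        · rw [mem_singleton.mp s]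
          exact mem_insert_self _ _
        · exact mem_insert_of_mem s
      · exact ⟨w, q1, q2, q3, rg w q4⟩
    · rcases p.out z a b (Or.inl d) e with q | q
      · simp at q
      · exact q

theorem Blk2.sel {e : ι → ℕ} {I A : Finset V} {K : ι} {U : Finset ι}
    (b : Blk2 W cl X r e I A K U) :
    (∀ k ∈ insert K U, r k ≤ (A.filter (fun u => cl u = k)).card ∧
      (zc W cl I k).card ≤ (A.filter (fun u => cl u = k)).card + 1) ∧
    (zc W cl I K).card ≤ (A.filter (fun u => cl u = K)).card := by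
  have s : ∀ k, (zc W cl I k ∩ A).card ≤ (A.filter (fun u => cl u = k)).card := fun k =>
    card_le_card fun u hu =>
      mem_filter.mpr ⟨(mem_inter.mp hu).2, (mem_zc.mp (mem_inter.mp hu).1).2.2⟩
  have t : (zc W cl I K).card ≤ (A.filter (fun u => cl u = K)).card := by
    have := s K
    rwa [inter_eq_left.mpr b.all] at this
  refine ⟨fun k hk => ?_, t⟩
  rcases mem_insert.mp hk with f | f
  · have := b.big
    rw [f]
    omega
  · have := b.low k f
    have := b.one k f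
    have := s k
    have := card_sdiff_add_card_inter (zc W cl I k) A
    omega

end Pool.Agent.Lib.MP_12eaff_co.Frz.Dich
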