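import Mathlib

set_option autoImplicit false

namespace Pool.Agent.Lib.MP_12eaff_co.Frz.BK.Slc

open Finset
open scoped Classical

variable {V ι : Type}

/-- Half-edges `H` in nodes of size two or three; `pt` is an involution inside `H`. -/
structure Str (cl : V → ι) (H : Finset V) (pt : V → V) : Prop where
  inv : ∀ u ∈ H, pt u ∈ H → pt (pt u) = u
  ne : ∀ u ∈ H, pt u ≠ u
  card : ∀ u ∈ H, (H.filter fun v => cl v = cl u).card = 2 ∨ (H.filter fun v => cl v = cl u).card = 3

/-- A closed set of nodes with one outer colour and more outer partners than nodes of size three. -/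
def Bad (D : ℕ) (cl : V → ι) (g : V → ℕ) (H : Finset V) (pt : V → V) (S : Finset ι) (y : ℕ) :
    Prop :=
  y < D ∧ (∀ u ∈ H, cl u ∈ S → (pt u ∈ H ∧ cl (pt u) ∈ S) ∨ (pt u ∉ H ∧ g (pt u) = y)) ∧
    (S.filter fun k => (H.filter fun v => cl v = k).card = 3).card <
      (H.filter fun u => cl u ∈ S ∧ pt u ∉ H).card

def Out (D : ℕ) (cl : V → ι) (g : V → ℕ) (H : Finset V) (pt : V → V) : Prop :=
  ∃ A ⊆ H, ∃ (m : V → V) (β : V → ℕ), (∀ u ∈ H, ∃ a ∈ A, cl a = cl u) ∧ ∀ u ∈ A,
    m u ∈ A ∧ cl (m u) = cl u ∧ m (m u) = u ∧ β u ≠ β (m u) ∧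
      (∀ v ∈ A, cl v = cl u → v = u ∨ v = m u) ∧ (pt u ∈ A → β u = β (m (pt u))) ∧
      (pt u ∉ H → g (pt u) < D → g (pt u) = β u)

noncomputable def psi (cl : V → ι) (H : Finset V) (w a v : V) : V :=
  if v ∈ H ∧ cl v = cl a then w else v

/-- The links after the node of `a`, `b` is contracted. -/
noncomputable def nxt (cl : V → ι) (H : Finset V) (pt : V → V) (w a b u : V) : V :=
  if pt u = a then psi cl H w a (pt b) else if pt u = b then psi cl H w a (pt a)
    else psi cl H w a (pt u)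

noncomputable def rest (cl : V → ι) (H : Finset V) (a : V) : Finset V :=
  H.filter fun v => cl v ≠ cl a

variable {D : ℕ} {cl : V → ι} {g : V → ℕ} {H : Finset V} {pt : V → V} {w a b : V}

theorem mem_rest {v : V} : v ∈ rest cl H a ↔ v ∈ H ∧ cl v ≠ cl a := mem_filter

theorem psi_in {v : V} (h : v ∈ H) (e : cl v = cl a) : psi cl H w a v = w := if_pos ⟨h, e⟩

theorem psi_out {v : V} (h : v ∉ H) : psi cl H w a v = v := if_neg fun q => h q.1

theorem psi_rest {v : V} (h : v ∈ rest cl H a) : psi cl H w a v = v :=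
  if_neg fun q => (mem_rest.mp h).2 q.2

theorem psi_or (v : V) : (psi cl H w a v = w ∧ v ∈ H ∧ cl v = cl a) ∨
    (psi cl H w a v = v ∧ (v ∉ H ∨ v ∈ rest cl H a)) := by
  by_cases h : v ∈ H
  · by_cases e : cl v = cl a
    · exact Or.inl ⟨psi_in h e, h, e⟩
    · exact Or.inr ⟨psi_rest (mem_rest.mpr ⟨h, e⟩), Or.inr (mem_rest.mpr ⟨h, e⟩)⟩
  · exact Or.inr ⟨psi_out h, Or.inl h⟩

theorem rest_cls {k : ι} (h : k ≠ cl a) :
    ((rest cl H a).filter fun v => cl v = k) = H.filter fun v => cl v = k := by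
  ext v
  simp only [mem_filter, mem_rest]
  exact ⟨fun q => ⟨q.1.1, q.2⟩, fun q => ⟨⟨q.1, q.2 ▸ h⟩, q.2⟩⟩

theorem nxt_a {u : V} (e : pt u = a) : nxt cl H pt w a b u = psi cl H w a (pt b) := if_pos e

theorem nxt_b {u : V} (ab : a ≠ b) (e : pt u = b) : nxt cl H pt w a b u = psi cl H w a (pt a) := by
  rw [nxt, if_neg (e ▸ ab.symm), if_pos e]

theorem nxt_o {u : V} (e : pt u ≠ a) (f : pt u ≠ b) :
    nxt cl H pt w a b u = psi cl H w a (pt u) := by
  rw [nxt, if_neg e, if_neg f]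

theorem Str.nxt (s : Str cl H pt) (hw : w ∉ H) (ha : a ∈ H) (hb : b ∈ H) (ab : a ≠ b)
    (e : cl b = cl a) : Str cl (rest cl H a) (nxt cl H pt w a b) := by
  have pr : ∀ v, psi cl H w a v ∈ rest cl H a → psi cl H w a v = v := fun v q => by
    rcases psi_or (cl := cl) (H := H) (w := w) (a := a) v with t | t
    · exact absurd (t.1 ▸ (mem_rest.mp q).1) hw
    · exact t.1
  refine ⟨fun u hu q => ?_, fun u hu q => ?_, fun u hu => ?_⟩
  · have uH := (mem_rest.mp hu).1
    by_cases e1 : pt u = a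
    · rw [nxt_a e1] at q ⊢
      have t := pr _ q
      rw [t] at q ⊢
      have := s.inv u uH (e1 ▸ ha)
      rw [nxt_b ab (s.inv b hb (mem_rest.mp q).1), ← e1, this, e1, psi_rest hu]
    by_cases e2 : pt u = b
    · rw [nxt_b ab e2] at q ⊢
      have t := pr _ q
      rw [t] at q ⊢
      have := s.inv u uH (e2 ▸ hb)
      rw [nxt_a (s.inv a ha (mem_rest.mp q).1), ← e2, this, psi_rest hu]
    rw [nxt_o e1 e2] at q ⊢
    have t := pr _ q
    rw [t] at q ⊢
    have := s.inv u uH (mem_rest.mp q).1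
    rw [nxt_o, this, psi_rest hu] <;> rw [this]
    · exact fun z => (mem_rest.mp hu).2 (z ▸ rfl)
    · exact fun z => (mem_rest.mp hu).2 (z ▸ e)
  · have uH := (mem_rest.mp hu).1
    by_cases e1 : pt u = a
    · rw [nxt_a e1] at q
      have t := pr _ (q.symm ▸ hu)
      rw [t] at q
      have := s.inv b hb (q.symm ▸ uH)
      rw [q, e1] at this
      exact ab this
    by_cases e2 : pt u = b
    · rw [nxt_b ab e2] at q
      have t := pr _ (q.symm ▸ hu)
      rw [t] at q
      have := s.inv a ha (q.symm ▸ uH)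
      rw [q, e2] at this
      exact ab this.symm
    rw [nxt_o e1 e2] at q
    have t := pr _ (q.symm ▸ hu)
    exact s.ne u uH (t ▸ q)
  · rw [rest_cls (mem_rest.mp hu).2]
    exact s.card u (mem_rest.mp hu).1

theorem glue (s : Str cl H pt) (ha : a ∈ H) (hb : b ∈ H) (ab : a ≠ b) (e : cl b = cl a)
    (r1 : ¬ (pt a ∉ H ∧ pt b ∉ H ∧ g (pt a) < D ∧ g (pt a) = g (pt b)))
    (o : Out D cl g (rest cl H a) (nxt cl H pt w a b)) : Out D cl g H pt := by
  obtain ⟨A, sA, m, β, o1, o2⟩ := o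
  have aH : ∀ u ∈ A, u ∈ H := fun u q => (mem_rest.mp (sA q)).1
  have na : ∀ u ∈ A, u ≠ a := fun u q z => (mem_rest.mp (sA q)).2 (z ▸ rfl)
  have nb : ∀ u ∈ A, u ≠ b := fun u q z => (mem_rest.mp (sA q)).2 (z ▸ e)
  have nr : ∀ v, v ∉ H → v ∉ rest cl H a := fun v q z => q (mem_rest.mp z).1
  obtain ⟨p, q, pq, k1, k2, k3, k4⟩ : ∃ p q : ℕ, p ≠ q ∧
      (pt a ∈ A → p = β (m (pt a)) ∧ q = β (pt a)) ∧ (pt b ∈ A → q = β (m (pt b)) ∧ p = β (pt b)) ∧
      (pt a ∉ H → g (pt a) < D → g (pt a) = p) ∧ (pt b ∉ H → g (pt b) < D → g (pt b) = q) := by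
    by_cases x : pt a ∈ A
    · have n1 := nxt_a (cl := cl) (H := H) (w := w) (b := b) (s.inv a ha (aH _ x))
      refine ⟨_, _, (o2 _ x).2.2.2.1.symm, fun _ => ⟨rfl, rfl⟩, fun y => ⟨?_, ?_⟩,
        fun z => absurd (aH _ x) z, fun z t => ?_⟩
      · have := (o2 _ x).2.2.2.2.2.1
        rw [n1, psi_rest (sA y)] at this
        exact this y
      · have := (o2 _ y).2.2.2.2.2.1
        rw [nxt_b ab (s.inv b hb (aH _ y)), psi_rest (sA x)] at this
        exact (this x).symm
      · have := (o2 _ x).2.2.2.2.2.2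
        rw [n1, psi_out z] at this
        exact this (nr _ z) t
    by_cases y : pt b ∈ A
    · refine ⟨_, _, (o2 _ y).2.2.2.1, fun z => absurd z x, fun _ => ⟨rfl, rfl⟩, fun z t => ?_,
        fun z => absurd (aH _ y) z⟩
      have := (o2 _ y).2.2.2.2.2.2
      rw [nxt_b ab (s.inv b hb (aH _ y)), psi_out z] at this
      exact this (nr _ z) t
    by_cases z : pt a ∉ H ∧ g (pt a) < D
    · by_cases t : pt b ∉ H
      · exact ⟨_, _, fun f => r1 ⟨z.1, t, z.2, f⟩, fun f => absurd f x, fun f => absurd f y,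
          fun _ _ => rfl, fun _ _ => rfl⟩
      · exact ⟨g (pt a), g (pt a) + 1, by omega, fun f => absurd f x, fun f => absurd f y,
          fun _ _ => rfl, fun f => absurd f t⟩
    · exact ⟨g (pt b) + 1, g (pt b), by omega, fun f => absurd f x, fun f => absurd f y,
        fun f f' => absurd ⟨f, f'⟩ z, fun _ _ => rfl⟩
  set m' : V → V := fun v => if v = a then b else if v = b then a else m v with hm
  set β' : V → ℕ := fun v => if v = a then p else if v = b then q else β v with hβ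
  have ma : m' a = b := by simp [hm]
  have mb : m' b = a := by simp [hm, ab.symm]
  have mo : ∀ u ∈ A, m' u = m u := fun u l => by simp [hm, na u l, nb u l]
  have ba : β' a = p := by simp [hβ]
  have bb : β' b = q := by simp [hβ, ab.symm]
  have bo : ∀ u ∈ A, β' u = β u := fun u l => by simp [hβ, na u l, nb u l]
  have mem : ∀ v, v ∈ insert a (insert b A) ↔ v = a ∨ v = b ∨ v ∈ A := by simp
  refine ⟨insert a (insert b A), insert_subset ha (insert_subset hb aH), m', β', fun u l => ?_,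
    fun u l => ?_⟩
  · by_cases z : cl u = cl a
    · exact ⟨a, by simp, z.symm⟩
    · obtain ⟨x, x1, x2⟩ := o1 u (mem_rest.mpr ⟨l, z⟩)
      exact ⟨x, by simp [x1], x2⟩
  rcases (mem u).mp l with z | z | z
  · rw [z, ma, mb, ba, bb]
    refine ⟨by simp, e, rfl, pq, fun v t f => ?_, fun t => ?_, k3⟩
    · rcases (mem v).mp t with t | t | t
      exacts [Or.inl t, Or.inr t, absurd f (mem_rest.mp (sA t)).2]
    · rcases (mem _).mp t with t | t | t
      · exact absurd t (s.ne a ha)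
      · rw [t, mb, ba]
      · rw [mo _ t, bo _ (o2 _ t).1]
        exact (k1 t).1
  · rw [z, mb, ma, ba, bb]
    refine ⟨by simp, e.symm, rfl, pq.symm, fun v t f => ?_, fun t => ?_, k4⟩
    · rcases (mem v).mp t with t | t | t
      exacts [Or.inr t, Or.inl t, absurd (f.trans e) (mem_rest.mp (sA t)).2]
    · rcases (mem _).mp t with t | t | t
      · rw [t, ma, bb]
      · exact absurd t (s.ne b hb)
      · rw [mo _ t, bo _ (o2 _ t).1]
        exact (k2 t).1
  · obtain ⟨p1, p2, p3, p4, p5, p6, p7⟩ := o2 u z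
    rw [mo u z, mo _ p1, bo u z, bo _ p1]
    refine ⟨by simp [p1], p2, p3, p4, fun v t f => ?_, fun t => ?_, fun t => ?_⟩
    · rcases (mem v).mp t with t | t | t
      · exact absurd (by rw [← f, t]) (mem_rest.mp (sA z)).2
      · exact absurd (by rw [← f, t, e]) (mem_rest.mp (sA z)).2
      · exact p5 v t f
    · rcases (mem _).mp t with t | t | t
      · have := s.inv u (aH u z) (t ▸ ha)
        rw [t] at this
        rw [t, ma, bb, (k1 (this.symm ▸ z)).2, this]
      · have := s.inv u (aH u z) (t ▸ hb)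
        rw [t] at this
        rw [t, mb, ba, (k2 (this.symm ▸ z)).2, this]
      · rw [nxt_o (na _ t) (nb _ t), psi_rest (sA t)] at p6
        rw [mo _ t, bo _ (o2 _ t).1]
        exact p6 t
    · rw [nxt_o (fun f => t (by rw [f]; exact ha)) (fun f => t (by rw [f]; exact hb)), psi_out t] at p7
      exact p7 (nr _ t)

theorem nobad (s : Str cl H pt) (hw : w ∉ H) (gw : D ≤ g w) (ha : a ∈ H) (hb : b ∈ H)
    (ab : a ≠ b) (e : cl b = cl a) (nb : ∀ S y, ¬ Bad D cl g H pt S y)
    (cs : (∀ z ∈ H, cl z = cl a → z ≠ a → z ≠ b → pt z ∉ H ∧ pt b ∉ H ∧ g (pt z) = g (pt b)) ∨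
      pt a = b ∨ (pt a ∉ H ∧ (pt b ∉ H ∨ D ≤ g (pt a))) ∨
      ((∀ u ∈ H, ∀ v ∈ H, cl u = cl v → pt u ∉ H → pt v ∉ H → u = v) ∧
        (∀ u ∈ H, (H.filter fun v => cl v = cl u).card = 3) ∧ pt a ∈ H ∧ pt b ∈ H))
    (S : Finset ι) (y : ℕ) : ¬ Bad D cl g (rest cl H a) (nxt cl H pt w a b) S y := by
  rintro ⟨b1, b2, b3⟩
  have rH : ∀ u ∈ rest cl H a, u ∈ H := fun u q => (mem_rest.mp q).1
  have ar : a ∉ rest cl H a := fun q => (mem_rest.mp q).2 rfl
  have br : b ∉ rest cl H a := fun q => (mem_rest.mp q).2 e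
  have key : ∀ u ∈ rest cl H a, cl u ∈ S → ∀ t, nxt cl H pt w a b u = psi cl H w a t →
      nxt cl H pt w a b u = t ∧ ((t ∈ rest cl H a ∧ cl t ∈ S) ∨ (t ∉ H ∧ g t = y)) := by
    intro u hu k t q
    have := b2 u hu k
    rcases psi_or (cl := cl) (H := H) (w := w) (a := a) t with z | z
    · rw [q, z.1] at this
      rcases this with f | f
      · exact absurd (rH _ f.1) hw
      · omega
    · rw [q, z.1] at this ⊢
      refine ⟨rfl, this.imp id fun f => ⟨z.2.resolve_right f.1, f.2⟩⟩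
  have ia : ∀ u ∈ H, pt u = a → pt a = u := fun u l q => by
    have := s.inv u l (by rw [q]; exact ha)
    rwa [q] at this
  have ib : ∀ u ∈ H, pt u = b → pt b = u := fun u l q => by
    have := s.inv u l (by rw [q]; exact hb)
    rwa [q] at this
  have c3 : ∀ k, k ≠ cl a → k ∈ S → (H.filter fun v => cl v = k).card = 3 →
      k ∈ S.filter fun k => ((rest cl H a).filter fun v => cl v = k).card = 3 :=
    fun k p q t => mem_filter.mpr ⟨q, by rwa [rest_cls p]⟩
  by_cases tc : ∃ u ∈ rest cl H a, cl u ∈ S ∧ (pt u = a ∨ pt u = b)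
  swap
  · have nt : ∀ u ∈ rest cl H a, cl u ∈ S → nxt cl H pt w a b u = pt u ∧
        ((pt u ∈ rest cl H a ∧ cl (pt u) ∈ S) ∨ (pt u ∉ H ∧ g (pt u) = y)) := fun u l k =>
      key u l k _ (nxt_o (fun q => tc ⟨u, l, k, Or.inl q⟩) (fun q => tc ⟨u, l, k, Or.inr q⟩))
    refine nb (S.erase (cl a)) y ⟨b1, fun u l k => ?_, lt_of_le_of_lt (card_le_card fun k q => ?_)
      (lt_of_lt_of_le b3 (card_le_card fun u q => ?_))⟩
    · obtain ⟨k1, k2⟩ := mem_erase.mp k
      exact (nt u (mem_rest.mpr ⟨l, k1⟩) k2).2.imp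
        (fun f => ⟨rH _ f.1, mem_erase.mpr ⟨(mem_rest.mp f.1).2, f.2⟩⟩) id
    · obtain ⟨q1, q2⟩ := mem_filter.mp q
      exact c3 k (mem_erase.mp q1).1 (mem_erase.mp q1).2 q2
    · obtain ⟨q1, q2, q3⟩ := mem_filter.mp q
      obtain ⟨n1, n2⟩ := nt u q1 q2
      rw [n1] at q3
      exact mem_filter.mpr ⟨rH u q1, mem_erase.mpr ⟨(mem_rest.mp q1).2, q2⟩,
        (n2.resolve_left fun f => q3 f.1).1⟩
  obtain ⟨u0, u1, u2, u3⟩ := tc
  have gd : ((pt a ∈ rest cl H a ∧ cl (pt a) ∈ S) ∨ (pt a ∉ H ∧ g (pt a) = y)) ∧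
      ((pt b ∈ rest cl H a ∧ cl (pt b) ∈ S) ∨ (pt b ∉ H ∧ g (pt b) = y)) ∧
      (pt a ∈ H ∨ pt b ∈ H) := by
    rcases u3 with q | q
    · have := ia u0 (rH _ u1) q
      exact ⟨Or.inl (this.symm ▸ ⟨u1, u2⟩), (key u0 u1 u2 _ (nxt_a q)).2,
        Or.inl (this.symm ▸ rH _ u1)⟩
    · have := ib u0 (rH _ u1) q
      exact ⟨(key u0 u1 u2 _ (nxt_b ab q)).2, Or.inl (this.symm ▸ ⟨u1, u2⟩),
        Or.inr (this.symm ▸ rH _ u1)⟩
  obtain ⟨ga, gb, gc⟩ := gd
  rcases cs with c | c | c | c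
  · have inj : ((rest cl H a).filter fun u => cl u ∈ S ∧ nxt cl H pt w a b u ∉ rest cl H a).card ≤
        ((H.filter fun u => cl u ∈ insert (cl a) S ∧ pt u ∉ H).filter
          fun u => cl u = cl a → u = a ∨ u = b).card := by
      refine card_le_card_of_injOn (fun u => if pt u = a then b else if pt u = b then a else u)
        (fun u q => ?_) (fun u q v t f => ?_)
      · obtain ⟨q1, q2, q3⟩ := mem_filter.mp (mem_coe.mp q)
        rw [mem_coe, mem_filter, mem_filter]
        by_cases e1 : pt u = a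
        · obtain ⟨n1, n2⟩ := key u q1 q2 _ (nxt_a e1)
          rw [n1] at q3
          simp only [if_pos e1]
          exact ⟨⟨hb, e ▸ mem_insert_self _ _, (n2.resolve_left fun f => q3 f.1).1⟩,
            fun _ => Or.inr trivial⟩
        by_cases e2 : pt u = b
        · obtain ⟨n1, n2⟩ := key u q1 q2 _ (nxt_b ab e2)
          rw [n1] at q3
          simp only [if_neg e1, if_pos e2]
          exact ⟨⟨ha, mem_insert_self _ _, (n2.resolve_left fun f => q3 f.1).1⟩,
            fun _ => Or.inl trivial⟩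
        obtain ⟨n1, n2⟩ := key u q1 q2 _ (nxt_o e1 e2)
        rw [n1] at q3
        simp only [if_neg e1, if_neg e2]
        exact ⟨⟨rH u q1, mem_insert_of_mem q2, (n2.resolve_left fun f => q3 f.1).1⟩,
          fun f => absurd f (mem_rest.mp q1).2⟩
      · have q1 := (mem_filter.mp (mem_coe.mp q)).1
        have t1 := (mem_filter.mp (mem_coe.mp t)).1
        beta_reduce at f
        split_ifs at f with f1 f2 f3 f4 f5 f6 f7 f8
        · rw [← ia u (rH _ q1) f1, ia v (rH _ t1) f2]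
        · exact absurd f.symm ab
        · exact absurd (f ▸ t1) br
        · exact absurd f ab
        · rw [← ib u (rH _ q1) f4, ib v (rH _ t1) f6]
        · exact absurd (f ▸ t1) ar
        · exact absurd (f ▸ q1) br
        · exact absurd (f ▸ q1) ar
        · exact f
    refine nb (insert (cl a) S) y ⟨b1, fun u l k => ?_, ?_⟩
    · by_cases z : cl u = cl a
      · by_cases z1 : u = a
        · rw [z1]
          exact ga.imp (fun f => ⟨rH _ f.1, mem_insert_of_mem f.2⟩) id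
        by_cases z2 : u = b
        · rw [z2]
          exact gb.imp (fun f => ⟨rH _ f.1, mem_insert_of_mem f.2⟩) id
        obtain ⟨p1, p2, p3⟩ := c u l z z1 z2
        exact Or.inr ⟨p1, p3.trans (gb.resolve_left fun f => p2 (rH _ f.1)).2⟩
      · by_cases e1 : pt u = a
        · exact Or.inl (e1.symm ▸ ⟨ha, mem_insert_self _ _⟩)
        by_cases e2 : pt u = b
        · exact Or.inl (e2.symm ▸ ⟨hb, e ▸ mem_insert_self _ _⟩)
        exact (key u (mem_rest.mpr ⟨l, z⟩) ((mem_insert.mp k).resolve_left z) _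
          (nxt_o e1 e2)).2.imp (fun f => ⟨rH _ f.1, mem_insert_of_mem f.2⟩) id
    · by_cases z : (H.filter fun v => cl v = cl a).card = 3
      · obtain ⟨x, x1, x2⟩ := exists_mem_notMem_of_card_lt_card
          (show ({a, b} : Finset V).card < (H.filter fun v => cl v = cl a).card by
            rw [card_pair ab]; omega)
        rw [mem_insert, mem_singleton, not_or] at x2
        obtain ⟨x3, x4⟩ := mem_filter.mp x1
        have s1 := card_lt_card (filter_ssubset.mpr ⟨x, mem_filter.mpr ⟨x3,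
          x4 ▸ mem_insert_self _ _, (c x x3 x4 x2.1 x2.2).1⟩, fun f => (f x4).elim x2.1 x2.2⟩ :
          ((H.filter fun u => cl u ∈ insert (cl a) S ∧ pt u ∉ H).filter
            fun u => cl u = cl a → u = a ∨ u = b) ⊂ _)
        have s2 : ((insert (cl a) S).filter fun k => (H.filter fun v => cl v = k).card = 3).card ≤
            (insert (cl a) (S.filter fun k =>
              ((rest cl H a).filter fun v => cl v = k).card = 3)).card := card_le_card fun k q => by
          obtain ⟨q1, q2⟩ := mem_filter.mp q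
          by_cases t : k = cl a
          · exact t ▸ mem_insert_self _ _
          · exact mem_insert_of_mem (c3 k t ((mem_insert.mp q1).resolve_left t) q2)
        have := card_insert_le (cl a) (S.filter fun k =>
          ((rest cl H a).filter fun v => cl v = k).card = 3)
        omega
      · refine lt_of_le_of_lt (card_le_card fun k q => ?_)
          (lt_of_lt_of_le b3 (inj.trans (card_filter_le _ _)))
        obtain ⟨q1, q2⟩ := mem_filter.mp q
        have t : k ≠ cl a := fun t => z (t ▸ q2)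
        exact c3 k t ((mem_insert.mp q1).resolve_left t) q2
  · rcases ga with f | f
    · exact br (c ▸ f.1)
    · exact f.1 (c ▸ hb)
  · have f := ga.resolve_left fun f => c.1 (rH _ f.1)
    rcases c.2 with t | t
    · exact gc.elim c.1 t
    · omega
  · obtain ⟨c1, c2, c4, c5⟩ := c
    have fa := ga.resolve_right fun f => f.1 c4
    have fb := gb.resolve_right fun f => f.1 c5
    have ty : ∀ u ∈ (rest cl H a).filter
        fun u => cl u ∈ S ∧ nxt cl H pt w a b u ∉ rest cl H a, pt u ∉ H := by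
      intro u q
      obtain ⟨q1, q2, q3⟩ := mem_filter.mp q
      by_cases e1 : pt u = a
      · exact absurd ((key u q1 q2 _ (nxt_a e1)).1 ▸ fb.1) q3
      by_cases e2 : pt u = b
      · exact absurd ((key u q1 q2 _ (nxt_b ab e2)).1 ▸ fa.1) q3
      obtain ⟨n1, n2⟩ := key u q1 q2 _ (nxt_o e1 e2)
      rw [n1] at q3
      exact (n2.resolve_left fun f => q3 f.1).1
    refine absurd b3 (not_lt.mpr (card_le_card_of_injOn cl (fun u q => ?_) (fun u q v t f => ?_)))
    · obtain ⟨q1, q2, -⟩ := mem_filter.mp (mem_coe.mp q)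
      exact mem_coe.mpr (c3 _ (mem_rest.mp q1).2 q2 (c2 u (rH u q1)))
    · exact c1 u (rH u (mem_filter.mp (mem_coe.mp q)).1) v (rH v (mem_filter.mp (mem_coe.mp t)).1)
        f (ty u q) (ty v t)

/-- Run selection: without a bad set two half-edges per node can be put on duty. -/
theorem select (gw : D ≤ g w) : ∀ (H : Finset V) (pt : V → V), Str cl H pt → w ∉ H →
    (∀ S y, ¬ Bad D cl g H pt S y) → Out D cl g H pt := by
  intro H
  induction H using Finset.strongInduction with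
  | H H ih =>
  intro pt s hw nb
  rcases H.eq_empty_or_nonempty with rfl | ⟨u0, h0⟩
  · exact ⟨∅, subset_rfl, id, fun _ => 0, by simp, by simp⟩
  have go : ∀ a ∈ H, ∀ b ∈ H, a ≠ b → cl b = cl a →
      ¬ (pt a ∉ H ∧ pt b ∉ H ∧ g (pt a) < D ∧ g (pt a) = g (pt b)) →
      ((∀ z ∈ H, cl z = cl a → z ≠ a → z ≠ b → pt z ∉ H ∧ pt b ∉ H ∧ g (pt z) = g (pt b)) ∨
        pt a = b ∨ (pt a ∉ H ∧ (pt b ∉ H ∨ D ≤ g (pt a))) ∨
        ((∀ u ∈ H, ∀ v ∈ H, cl u = cl v → pt u ∉ H → pt v ∉ H → u = v) ∧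
          (∀ u ∈ H, (H.filter fun v => cl v = cl u).card = 3) ∧ pt a ∈ H ∧ pt b ∈ H)) →
      Out D cl g H pt := fun a ha b hb ab e r1 cs =>
    glue s ha hb ab e r1 (ih _ (filter_ssubset.mpr ⟨a, ha, fun q => q rfl⟩) _
      (s.nxt hw ha hb ab e) (fun q => hw (mem_rest.mp q).1) (nobad s hw gw ha hb ab e nb cs))
  have mono : ∀ a ∈ H, (∀ z ∈ H, cl z = cl a → pt z ∉ H ∧ g (pt z) = g (pt a)) →
      ¬ g (pt a) < D := fun a ha q l => nb {cl a} _ ⟨l, fun u p t =>
        Or.inr (q u p (mem_singleton.mp t)), by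
      have s1 : (({cl a} : Finset ι).filter
        fun k => (H.filter fun v => cl v = k).card = 3).card ≤ 1 :=
          (card_filter_le _ _).trans (by simp)
      have s2 : (H.filter fun v => cl v = cl a).card ≤
          (H.filter fun u => cl u ∈ ({cl a} : Finset ι) ∧ pt u ∉ H).card := card_le_card fun v t =>
        mem_filter.mpr ⟨(mem_filter.mp t).1, mem_singleton.mpr (mem_filter.mp t).2,
          (q v (mem_filter.mp t).1 (mem_filter.mp t).2).1⟩
      have := s.card a ha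
      omega⟩
  have mate : ∀ a ∈ H, ∃ b ∈ H, a ≠ b ∧ cl b = cl a := fun a ha => by
    obtain ⟨b, b1, b2⟩ := exists_mem_ne (show 1 < (H.filter fun v => cl v = cl a).card by
      have := s.card a ha
      omega) a
    exact ⟨b, (mem_filter.mp b1).1, b2.symm, (mem_filter.mp b1).2⟩
  by_cases fr : ∃ a ∈ H, pt a ∉ H ∧ D ≤ g (pt a)
  · obtain ⟨a, ha, p, q⟩ := fr
    obtain ⟨b, hb, ab, e⟩ := mate a ha
    exact go a ha b hb ab e (fun f => by omega) (Or.inr (Or.inr (Or.inl ⟨p, Or.inr q⟩)))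
  push Not at fr
  by_cases df : ∃ a ∈ H, ∃ b ∈ H, cl b = cl a ∧ pt a ∉ H ∧ pt b ∉ H ∧ g (pt a) ≠ g (pt b)
  · obtain ⟨a, ha, b, hb, e, p, q, n⟩ := df
    exact go a ha b hb (fun f => n (f ▸ rfl)) e (fun f => n f.2.2.2)
      (Or.inr (Or.inr (Or.inl ⟨p, Or.inl q⟩)))
  push Not at df
  have one : ∀ u ∈ H, ∃ a ∈ H, cl a = cl u ∧ pt a ∈ H := fun u l => by
    by_contra n
    push Not at n
    exact mono u l (fun z p q => ⟨n z p q, (df u l z p q (n u l rfl) (n z p q)).symm⟩)
      (fr u l (n u l rfl))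
  by_cases tw : ∃ u ∈ H, (H.filter fun v => cl v = cl u).card = 2
  · obtain ⟨u, l, q⟩ := tw
    obtain ⟨a, ha, e, p⟩ := one u l
    obtain ⟨b, hb, ab, f⟩ := mate a ha
    refine go a ha b hb ab f (fun t => t.1 p) (Or.inl fun z z1 z2 z3 z4 => absurd ?_ z4)
    have : ({a, b} : Finset V) = H.filter fun v => cl v = cl u := eq_of_subset_of_card_le
      (insert_subset (mem_filter.mpr ⟨ha, e⟩) (singleton_subset_iff.mpr
        (mem_filter.mpr ⟨hb, f.trans e⟩))) (by rw [card_pair ab, q])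
    have t : z ∈ ({a, b} : Finset V) := this ▸ mem_filter.mpr ⟨z1, z2.trans e⟩
    simpa [z3] using t
  have th : ∀ u ∈ H, (H.filter fun v => cl v = cl u).card = 3 := fun u l =>
    (s.card u l).resolve_left fun q => tw ⟨u, l, q⟩
  by_cases tt : ∃ b ∈ H, ∃ z ∈ H, b ≠ z ∧ cl b = cl z ∧ pt b ∉ H ∧ pt z ∉ H
  · obtain ⟨b, hb, z, hz, n, e, p, q⟩ := tt
    obtain ⟨a, ha, f, t⟩ := one b hb
    have ab : a ≠ b := fun k => p (k ▸ t)
    have az : a ≠ z := fun k => q (k ▸ t)
    refine go a ha b hb ab f.symm (fun k => k.1 t) (Or.inl fun x x1 x2 x3 x4 => ?_)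
    have : ({a, b, z} : Finset V) = H.filter fun v => cl v = cl a := eq_of_subset_of_card_le
      (insert_subset (mem_filter.mpr ⟨ha, rfl⟩) (insert_subset (mem_filter.mpr ⟨hb, f.symm⟩)
        (singleton_subset_iff.mpr (mem_filter.mpr ⟨hz, e.symm.trans f.symm⟩))))
      (by rw [th a ha, card_eq_three.mpr ⟨a, b, z, ab, az, n, rfl⟩])
    have k : x ∈ ({a, b, z} : Finset V) := this ▸ mem_filter.mpr ⟨x1, x2⟩
    have xz : x = z := by simpa [x3, x4] using k
    rw [xz]
    exact ⟨q, p, df z hz b hb e q p⟩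
  have uq : ∀ u ∈ H, ∀ v ∈ H, cl u = cl v → pt u ∉ H → pt v ∉ H → u = v := fun u l v k e p q =>
    by_contra fun n => tt ⟨u, l, v, k, n, e, p, q⟩
  have s1 : ((H.filter fun v => cl v = cl u0).filter fun v => pt v ∉ H).card ≤ 1 :=
    card_le_one.mpr fun u l v k => by
      obtain ⟨l1, l2⟩ := mem_filter.mp l
      obtain ⟨k1, k2⟩ := mem_filter.mp k
      exact uq u (mem_filter.mp l1).1 v (mem_filter.mp k1).1
        ((mem_filter.mp l1).2.trans (mem_filter.mp k1).2.symm) l2 k2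
  have s2 := card_filter_add_card_filter_not (s := H.filter fun v => cl v = cl u0)
    fun v => pt v ∈ H
  have s3 := th u0 h0
  obtain ⟨a, ha, b, hb, ab⟩ := one_lt_card.mp
    (show 1 < ((H.filter fun v => cl v = cl u0).filter fun v => pt v ∈ H).card by omega)
  obtain ⟨a1, a2⟩ := mem_filter.mp ha
  obtain ⟨b1, b2⟩ := mem_filter.mp hb
  exact go a (mem_filter.mp a1).1 b (mem_filter.mp b1).1 ab
    ((mem_filter.mp b1).2.trans (mem_filter.mp a1).2.symm) (fun k => k.1 a2)
    (Or.inr (Or.inr (Or.inr ⟨uq, th, a2, b2⟩)))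

end Pool.Agent.Lib.MP_12eaff_co.Frz.BK.Slc
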