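import Pool.Agent.Lib.MP_12eaff_co.Frz.Reqs
import Pool.Agent.Lib.MP_12eaff_co.Frz.Sel4b

set_option autoImplicit false

namespace Pool.Agent.Lib.MP_12eaff_co.Frz.BK

open Finset
open scoped Classical

variable {V : Type} [Fintype V] {G : SimpleGraph V} {D : ℕ}

/-- All but four members of every `D`-clique can be chosen without cross edges. -/
theorem sel4m (h : MC G D) (hD : 9 ≤ D) : ∃ F : Finset V,
    (∀ K, IsClq G K → K.card = D → D - 4 ≤ (K ∩ F).card) ∧
    ∀ K K', IsClq G K → K.card = D → IsClq G K' → K'.card = D → K ≠ K' →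
      ∀ a ∈ K ∩ F, ∀ b ∈ K' ∩ F, ¬ G.Adj a b :=
  sel4_of h hD fun _ _ _ e => by
    obtain ⟨c, c1, c2, c3⟩ := reqs h (by omega) e
    exact ⟨c, c1, c2, select h (by omega) e c2 c3⟩

/-- Thirteen members of every `D`-clique without cross edges, for `17 ≤ D`. -/
theorem sel13m (h : MC G D) (hD : 17 ≤ D) : ∃ F : Finset V,
    (∀ K, IsClq G K → K.card = D → 13 ≤ (K ∩ F).card) ∧
    ∀ K K', IsClq G K → K.card = D → IsClq G K' → K'.card = D → K ≠ K' →
      ∀ a ∈ K ∩ F, ∀ b ∈ K' ∩ F, ¬ G.Adj a b := by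
  obtain ⟨F, a, b⟩ := sel4m h (by omega)
  exact ⟨F, fun K k l => le_trans (by omega) (a K k l), b⟩

end Pool.Agent.Lib.MP_12eaff_co.Frz.BK
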