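import Mathlib
import Pool.Agent.Lib.MP_12eaff_co.Frz.Ker

set_option autoImplicit false

namespace Pool.Agent.Lib.MP_12eaff_co.Frz.Ker

open Finset
open scoped Classical

variable {V ι : Type} (cl : V → ι) (pos : V → ℕ) (fr : V → Prop) (X : V → V → Prop)

/-- Arcs: downwards inside a class, and along cross edges out of vertices that are not fronts. -/
def Arc (u v : V) : Prop := (cl u = cl v ∧ pos v < pos u) ∨ (X u v ∧ ¬ fr u)

/-- Systems of pointers. -/
def Ptr (S K : Finset V) : Prop := (∀ a ∈ K, ∀ b ∈ K, ¬ X a b ∧ (cl a = cl b → a = b)) ∧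
  ∀ f ∈ S, fr f → ∃ k ∈ K, cl f = cl k ∧ pos k ≤ pos f

variable {cl pos fr X}

theorem kernel_front (sy : ∀ u v, X u v → X v u) (ir : ∀ u, ¬ X u u)
    (ff : ∀ u v, fr u → fr v → ¬ X u v) (S : Finset V)
    (inj : ∀ u ∈ S, ∀ v ∈ S, cl u = cl v → pos u = pos v → u = v) :
    ∃ K ⊆ S, (∀ a ∈ K, ∀ b ∈ K, ¬ Arc cl pos fr X a b) ∧
      ∀ v ∈ S, v ∉ K → ∃ k ∈ K, Arc cl pos fr X v k := by
  obtain ⟨K, hK, hm⟩ := exists_max_image (S.powerset.filter (Ptr cl pos fr X S))
    (fun K => ∑ k ∈ K, (S.sup pos + 1 - pos k))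
    ⟨S.filter fun f => fr f ∧ ∀ g ∈ S, fr g → cl g = cl f → pos f ≤ pos g, by
      refine mem_filter.2 ⟨mem_powerset.2 (filter_subset _ _), fun a ha b hb => ?_,
        fun f hf h => ?_⟩
      · rw [mem_filter] at ha hb
        exact ⟨ff a b ha.2.1 hb.2.1, fun e => inj a ha.1 b hb.1 e
          ((ha.2.2 b hb.1 hb.2.1 e.symm).antisymm (hb.2.2 a ha.1 ha.2.1 e))⟩
      · obtain ⟨k, k1, k2⟩ := exists_min_image (S.filter fun g => fr g ∧ cl g = cl f) pos
          ⟨f, by simp [hf, h]⟩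
        obtain ⟨a, b, c⟩ := mem_filter.1 k1
        exact ⟨k, mem_filter.2 ⟨a, b, fun g g1 g2 g3 => k2 g (by simp [g1, g2, g3, c])⟩,
          c.symm, k2 f (by simp [hf, h])⟩⟩
  obtain ⟨k0, k1, k2⟩ := mem_filter.1 hK
  rw [mem_powerset] at k0
  refine ⟨K, k0, fun a ha b hb h => h.elim (fun h => ?_) fun h => (k1 a ha b hb).1 h.1,
    fun v hv hn => ?_⟩
  · exact h.2.ne (by rw [(k1 a ha b hb).2 h.1])
  by_contra! no
  have up : ∀ k ∈ K, cl v = cl k → pos v < pos k := fun k hk e =>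
    lt_of_le_of_ne (not_lt.1 fun l => no k hk (.inl ⟨e, l⟩))
      fun p => hn (inj v hv k (k0 hk) e p ▸ hk)
  have nf : ¬ fr v := fun h => by
    obtain ⟨k, a, b, c⟩ := k2 v hv h
    exact (up k a b).not_ge c
  have nx : ∀ k ∈ K, ¬ X v k := fun k hk h => no k hk (.inr ⟨h, nf⟩)
  refine (hm (insert v (K.filter fun k => cl v ≠ cl k)) (mem_filter.2 ⟨mem_powerset.2
    (insert_subset hv ((filter_subset _ _).trans k0)), fun a ha b hb => ?_,
    fun f hf h => ?_⟩)).not_gt ?_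
  · rcases mem_insert.1 ha with rfl | ha <;> rcases mem_insert.1 hb with rfl | hb
    · exact ⟨ir _, fun _ => rfl⟩
    · exact ⟨nx b (mem_filter.1 hb).1, fun e => absurd e (mem_filter.1 hb).2⟩
    · exact ⟨fun h => nx a (mem_filter.1 ha).1 (sy _ _ h),
        fun e => absurd e.symm (mem_filter.1 ha).2⟩
    · exact k1 a (mem_filter.1 ha).1 b (mem_filter.1 hb).1
  · obtain ⟨k, a, b, c⟩ := k2 f hf h
    by_cases e : cl v = cl k
    · exact ⟨v, mem_insert_self _ _, b.trans e.symm, (up k a e).le.trans c⟩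
    · exact ⟨k, mem_insert_of_mem (mem_filter.2 ⟨a, e⟩), b, c⟩
  · rw [sum_insert fun h => hn (mem_filter.1 h).1, ← sum_filter_add_sum_filter_not K
      fun k => cl v ≠ cl k, add_comm]
    refine Nat.add_lt_add_right ?_ _
    have := le_sup (f := pos) hv
    rcases (K.filter fun k => ¬ cl v ≠ cl k).eq_empty_or_nonempty with e | ⟨k, hk⟩
    · rw [e, sum_empty]
      omega
    · have e : (K.filter fun k => ¬ cl v ≠ cl k) = {k} := eq_singleton_iff_unique_mem.2
        ⟨hk, fun x hx => by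
          rw [mem_filter, not_not] at hk hx
          exact (k1 x hx.1 k hk.1).2 (hx.2.symm.trans hk.2)⟩
      rw [e, sum_singleton]
      rw [mem_filter, not_not] at hk
      have := up k hk.1 hk.2
      omega

/-- Disjoint ordered cliques with independent fronts: cross edges at fronts are free. -/
theorem col_front (sy : ∀ u v, X u v → X v u) (ir : ∀ u, ¬ X u u)
    (ff : ∀ u v, fr u → fr v → ¬ X u v) (U : Finset V)
    (inj : ∀ u ∈ U, ∀ v ∈ U, cl u = cl v → pos u = pos v → u = v) (L : V → Finset ℕ)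
    (hL : ∀ v ∈ U, (U.filter (Arc cl pos fr X v)).card < (L v).card) :
    ∃ c : V → ℕ, (∀ v ∈ U, c v ∈ L v) ∧
      ∀ u ∈ U, ∀ v ∈ U, u ≠ v → cl u = cl v ∨ X u v → c u ≠ c v := by
  obtain ⟨c, c1, c2⟩ := col_of_kernel (V := U) (R := fun a b => Arc cl pos fr X a b)
    (fun S => kernel_front (cl := fun a : U => cl a) (pos := fun a => pos a) (fr := fun a => fr a)
      (X := fun a b => X a b) (fun _ _ => sy _ _) (fun _ => ir _) (fun _ _ => ff _ _) S
      fun u _ v _ a b => Subtype.ext (inj u u.2 v v.2 a b)) U.attach (fun a => L a) fun v _ =>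
    lt_of_le_of_lt (card_le_card_of_injOn (↑) (fun x hx => by
      simpa using (mem_filter.1 hx).2) Subtype.val_injective.injOn) (hL v v.2)
  refine ⟨fun v => if h : v ∈ U then c ⟨v, h⟩ else 0, fun v hv => ?_, fun u hu v hv e h => ?_⟩
  · simpa [hv] using c1 ⟨v, hv⟩ (mem_attach _ _)
  · simp only [hu, hv, dif_pos]
    have a := c2 ⟨u, hu⟩ (mem_attach _ _) ⟨v, hv⟩ (mem_attach _ _)
    have b := c2 ⟨v, hv⟩ (mem_attach _ _) ⟨u, hu⟩ (mem_attach _ _)
    rcases h with h | h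
    · rcases lt_trichotomy (pos u) (pos v) with l | l | l
      · exact (b (.inl ⟨h.symm, l⟩)).symm
      · exact absurd (inj u hu v hv h l) e
      · exact a (.inl ⟨h, l⟩)
    · by_cases f : fr u
      · exact (b (.inr ⟨sy _ _ h, fun g => ff u v f g h⟩)).symm
      · exact a (.inr ⟨h, f⟩)

end Pool.Agent.Lib.MP_12eaff_co.Frz.Ker
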