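import Mathlib
import Pool.Agent.Lib.MP_12eaff_co.Frz.S8b
import Pool.Agent.Lib.MP_12eaff_co.Frz.Pot

set_option autoImplicit false

namespace Pool.Agent.Lib.MP_12eaff_co.Frz.BK

open Finset
open scoped Classical

variable {V : Type} [Fintype V] {G : SimpleGraph V} {D : ℕ}

/-- Delete `X`, add the edges `F`; only cliques off `X` have to be small. -/
theorem col_off (h : MC G D) (X : Finset V) (F : V → V → Prop) {x y : V} (hx : x ∈ X)
    (a : G.Adj y x)
    (gain : ∀ u, u ∉ X →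
      ∃ N : Finset V, N.card ≤ (nb G u ∩ X).card ∧ ∀ v, F u v ∨ F v u → v ∈ N)
    (nobad : ∀ Q : Finset V, Q.card = D + 1 → (∀ a ∈ Q, a ∉ X) →
      (∀ a ∈ Q, ∀ b ∈ Q, a ≠ b → G.Adj a b ∨ F a b ∨ F b a) → False) :
    ∃ c, PCol G D c ∧ (∀ v, c v < D ↔ v ∉ X) ∧
      ∀ u v, u ≠ v → u ∉ X → v ∉ X → F u v → c u ≠ c v := by
  have hD : 0 < D := by
    by_contra n
    have := h.cf {x} (by simp [IsClq])
    simp at this
    omega
  have hsup : (RS.addF G X F).support ⊂ G.support := by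
    refine ⟨?_, fun hh => ?_⟩
    · rintro u ⟨v, _, q2, _, q4⟩
      rcases q4 with q | q
      · exact ⟨v, q⟩
      · obtain ⟨N, n1, n2⟩ := gain u q2
        have := card_pos.mpr ⟨_, n2 v q⟩
        obtain ⟨e, he⟩ := (card_pos (s := nb G u ∩ X)).mp (by omega)
        exact ⟨e, mem_nb.mp (mem_inter.mp he).1⟩
    · obtain ⟨v, hv⟩ := hh (show x ∈ G.support from ⟨y, a.symm⟩)
      exact hv.2.1 hx
  have hdeg : ∀ v, (nb (RS.addF G X F) v).card ≤ D + 1 := by
    intro v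
    by_cases hv : v ∈ X
    · have : nb (RS.addF G X F) v = ∅ :=
        eq_empty_of_forall_notMem fun u hu => (mem_nb.mp hu).2.1 hv
      simp [this]
    obtain ⟨N, n1, n2⟩ := gain v hv
    have s : nb (RS.addF G X F) v ⊆ (nb G v \ X) ∪ N := fun u hu => by
      obtain ⟨_, _, q3, q4⟩ := mem_nb.mp hu
      exact mem_union.mpr (q4.imp (fun k => mem_sdiff.mpr ⟨mem_nb.mpr k, q3⟩) (n2 u))
    have := card_le_card s
    have := card_union_le (nb G v \ X) N
    have := card_sdiff_add_card_inter (nb G v) X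
    have := h.deg v
    omega
  obtain ⟨c, c1, c2⟩ := h.ih _ hsup hdeg fun Q hQ => by
    by_contra n
    obtain ⟨R, r1, r2⟩ := exists_subset_card_eq (s := Q) (n := D + 1) (by omega)
    refine nobad R r2 (fun a ha => ?_) fun a ha b hb e => (hQ a (r1 ha) b (r1 hb) e).2.2.2
    obtain ⟨b, hb, e⟩ := exists_mem_ne (s := R) (by omega) a
    exact (hQ a (r1 ha) b (r1 hb) e.symm).2.1
  refine ⟨fun v => if v ∈ X then D else c v, ?_, ?_, ?_⟩
  · intro u v huv hu
    by_cases q1 : u ∈ X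
    · simp [q1] at hu
    · by_cases q2 : v ∈ X
      · simp only [q1, q2, if_true, if_false]
        exact (c1 u).ne
      · simp only [q1, q2, if_false]
        exact c2 u v ⟨huv.ne, q1, q2, Or.inl huv⟩
  · intro v
    by_cases q : v ∈ X
    · simp [q]
    · simp [q, c1 v]
  · intro u v q q1 q2 q3
    simp only [q1, q2, if_false]
    exact c2 _ _ ⟨q, q1, q2, Or.inr (Or.inl q3)⟩

/-- A set of `D+1` vertices has two disjoint non-edges, unless it is a largest clique plus a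
vertex with at most one neighbour in it. -/
theorem two_non (h : MC G D) (hD : 8 ≤ D) (Q : Finset V) (cQ : Q.card = D + 1)
    (ns : ∀ s ∈ Q, IsClq G (Q.erase s) →
      D ≤ ((Q.erase s).filter fun v => ¬ G.Adj s v).card + 1 → False) :
    ∃ a ∈ Q, ∃ b ∈ Q, ∃ c ∈ Q, ∃ d ∈ Q, a ≠ b ∧ c ≠ d ∧ a ≠ c ∧ a ≠ d ∧ b ≠ c ∧ b ≠ d ∧
      ¬ G.Adj a b ∧ ¬ G.Adj c d := by
  by_contra n
  have T : ∀ a ∈ Q, ∀ b ∈ Q, ∀ c ∈ Q, ∀ d ∈ Q, a ≠ b → c ≠ d → ¬ G.Adj a b → ¬ G.Adj c d →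
      a = c ∨ a = d ∨ b = c ∨ b = d := by
    intro a ha b hb c hc d hd e1 e2 k1 k2
    by_contra k
    simp only [not_or] at k
    exact n ⟨a, ha, b, hb, c, hc, d, hd, e1, e2, k.1, k.2.1, k.2.2.1, k.2.2.2, k1, k2⟩
  have S : ∀ s ∈ Q, ∃ u ∈ Q, ∃ v ∈ Q, u ≠ s ∧ v ≠ s ∧ u ≠ v ∧ ¬ G.Adj u v := by
    intro s hs
    by_contra k
    have cl : IsClq G (Q.erase s) := fun u hu v hv e => by
      by_contra q
      exact k ⟨u, mem_of_mem_erase hu, v, mem_of_mem_erase hv, ne_of_mem_erase hu,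
        ne_of_mem_erase hv, e, q⟩
    have ce : (Q.erase s).card = D := by rw [card_erase_of_mem hs]; omega
    refine ns s hs cl ?_
    have h1 := card_filter_add_card_filter_not (s := Q.erase s) (fun v => G.Adj s v)
    have h2 : ((Q.erase s).filter fun v => G.Adj s v).card ≤ 1 :=
      card_le_one.2 fun u hu v hv => rs8 h hD cl ce (notMem_erase s Q) (mem_filter.1 hu).1
        (mem_filter.1 hv).1 (mem_filter.1 hu).2 (mem_filter.1 hv).2
    omega
  obtain ⟨s, hs⟩ := (card_pos (s := Q)).1 (by omega)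
  obtain ⟨a, ha, b, hb, -, -, ab, nab⟩ := S s hs
  obtain ⟨c, hc, ca, cb, nbc⟩ : ∃ c ∈ Q, c ≠ a ∧ c ≠ b ∧ ¬ G.Adj b c := by
    obtain ⟨u, hu, v, hv, u1, v1, e, k⟩ := S a ha
    rcases T a ha b hb u hu v hv ab e nab k with q | q | q | q
    · exact absurd q.symm u1
    · exact absurd q.symm v1
    · exact ⟨v, hv, v1, q ▸ e.symm, q ▸ k⟩
    · exact ⟨u, hu, u1, q ▸ e, fun z => k (q ▸ z.symm)⟩
  have nac : ¬ G.Adj a c := by
    obtain ⟨u, hu, v, hv, u1, v1, e, k⟩ := S b hb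
    have t1 := T a ha b hb u hu v hv ab e nab k
    have t2 := T b hb c hc u hu v hv cb.symm e nbc k
    intro z
    have z' := z.symm
    rcases t1 with q | q | q | q <;> rcases t2 with p | p | p | p <;> subst q <;>
      first | exact k (p ▸ z) | exact k (p ▸ z') | exact u1 p.symm | exact v1 p.symm |
        exact ca p | exact u1 rfl | exact v1 rfl
  have ad : ∀ u ∈ Q, u ≠ a → u ≠ b → u ≠ c → ∀ v ∈ Q, u ≠ v → G.Adj u v := by
    intro u hu u1 u2 u3 v hv e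
    by_contra k
    have t1 := T a ha b hb u hu v hv ab e nab k
    have t2 := T b hb c hc u hu v hv cb.symm e nbc k
    have t3 := T a ha c hc u hu v hv ca.symm e nac k
    grind
  have mW : ∀ u ∈ Q \ {a, b, c}, u ∈ Q ∧ u ≠ a ∧ u ≠ b ∧ u ≠ c := fun u hu => by simpa using hu
  have cW := le_card_sdiff {a, b, c} Q
  have c3 : ({a, b, c} : Finset V).card ≤ 3 := card_le_three
  refine e3b h (Q \ {a, b, c}) a b c (fun u hu v hv e => ?_) (by omega) (by omega) ab ca.symm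
    cb.symm nab nac nbc fun u hu => ?_
  · obtain ⟨u0, u1, u2, u3⟩ := mW u hu
    exact ad u u0 u1 u2 u3 v (mW v hv).1 e
  · obtain ⟨u0, u1, u2, u3⟩ := mW u hu
    exact ⟨ad u u0 u1 u2 u3 a ha u1, ad u u0 u1 u2 u3 b hb u2, ad u u0 u1 u2 u3 c hc u3⟩

section Req

variable {ι : Type} (I : Finset ι) (x y : ι → V) (B : ι → Finset V)

/-- Requirements in which `v` occurs. -/
noncomputable def Occ (v : V) : Finset ι := I.filter fun i => x i = v ∨ y i = v ∨ v ∈ B i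

/-- The vertex whose colour `v` avoids because of requirement `i`. -/
noncomputable def oth (v : V) (i : ι) : V := if x i = v then y i else x i

/-- Requirements on the pair `a`, `b`. -/
noncomputable def Prs (a b : V) : Finset ι :=
  I.filter fun i => (x i = a ∧ y i = b) ∨ (x i = b ∧ y i = a)

/-- Colours barred at `v` when the set `Q` is coloured last. -/
noncomputable def Bar (G : SimpleGraph V) (X Q : Finset V) (c : V → ℕ) (v : V) : Finset ℕ :=
  (nb G v \ (X ∪ Q)).image c ∪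
    ((Occ I x y B v).filter fun i => oth x y v i ∉ Q).image fun i => c (oth x y v i)

/-- The colouring `c` of the vertices off `W` meets all requirements. -/
def Meets (W : Finset V) (c : V → ℕ) : Prop :=
  ∀ i ∈ I, x i ∉ W → y i ∉ W → c (x i) ≠ c (y i) ∨ ∀ b ∈ B i, b ∉ W → c b ≠ c (x i)

variable {I x y B}

theorem bar_card (h : MC G D) {X Q : Finset V} (c : V → ℕ) (cQ : Q.card = D + 1)
    (hX : ∀ a ∈ Q, a ∉ X) (hne : ∀ i ∈ I, x i ≠ y i)
    (hQ : ∀ a ∈ Q, ∀ b ∈ Q, a ≠ b → G.Adj a b ∨ (∃ i ∈ I, x i = a ∧ y i = b) ∨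
      ∃ i ∈ I, x i = b ∧ y i = a)
    {v : V} (hv : v ∈ Q) (tie : (Occ I x y B v).card ≤ (nb G v ∩ X).card) :
    (Bar I x y B G X Q c v).card ≤ 1 ∧
      ∀ w ∈ Q, (Bar I x y B G X Q c v).card + (Prs I x y v w).card ≤ 2 := by
  set J := Occ I x y B v
  have h1 : (Bar I x y B G X Q c v).card ≤ (nb G v \ (X ∪ Q)).card +
      (J.filter fun i => oth x y v i ∉ Q).card :=
    (card_union_le _ _).trans (add_le_add card_image_le card_image_le)
  have h2 := card_filter_add_card_filter_not (s := J) (fun i => oth x y v i ∈ Q)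
  have h3 := card_sdiff_add_card_inter (nb G v) (X ∪ Q)
  have h4 : (nb G v ∩ (X ∪ Q)).card = (nb G v ∩ X).card + (nb G v ∩ Q).card := by
    rw [inter_union_distrib_left, card_union_of_disjoint]
    exact disjoint_left.2 fun u a b => hX u (mem_inter.1 b).2 (mem_inter.1 a).2
  have h5 := h.deg v
  have key : ∀ u ∈ Q, u ≠ v → u ∈ nb G v ∩ Q ∨
      ∃ i ∈ J.filter fun i => oth x y v i ∈ Q, oth x y v i = u := by
    intro u hu e
    rcases hQ v hv u hu e.symm with k | ⟨i, i1, i2, i3⟩ | ⟨i, i1, i2, i3⟩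
    · exact .inl (mem_inter.2 ⟨mem_nb.2 k, hu⟩)
    · have o : oth x y v i = u := by rw [oth, if_pos i2, i3]
      exact .inr ⟨i, mem_filter.2 ⟨mem_filter.2 ⟨i1, .inl i2⟩, o ▸ hu⟩, o⟩
    · have o : oth x y v i = u := by rw [oth, if_neg (i2 ▸ e), i2]
      exact .inr ⟨i, mem_filter.2 ⟨mem_filter.2 ⟨i1, .inr (.inl i3)⟩, o ▸ hu⟩, o⟩
  have ce := card_erase_of_mem hv
  constructor
  · have s : Q.erase v ⊆ (nb G v ∩ Q) ∪ (J.filter fun i => oth x y v i ∈ Q).image (oth x y v) :=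
      fun u hu => mem_union.2 ((key u (mem_of_mem_erase hu) (ne_of_mem_erase hu)).imp id
        fun k => mem_image.2 k)
    have := card_le_card s
    have := card_union_le (nb G v ∩ Q) ((J.filter fun i => oth x y v i ∈ Q).image (oth x y v))
    have := card_image_le (s := J.filter fun i => oth x y v i ∈ Q) (f := oth x y v)
    omega
  · intro w hw
    have po : ∀ i ∈ Prs I x y v w, i ∈ J ∧ oth x y v i = w := by
      intro i hi
      obtain ⟨i1, k | k⟩ := mem_filter.1 hi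
      · exact ⟨mem_filter.2 ⟨i1, .inl k.1⟩, by rw [oth, if_pos k.1, k.2]⟩
      · exact ⟨mem_filter.2 ⟨i1, .inr (.inl k.2)⟩, by rw [oth, if_neg (k.2 ▸ hne i i1), k.1]⟩
    have sub : Prs I x y v w ⊆ J.filter fun i => oth x y v i ∈ Q := fun i hi =>
      mem_filter.2 ⟨(po i hi).1, (po i hi).2 ▸ hw⟩
    have s : (Q.erase v).erase w ⊆ (nb G v ∩ Q) ∪
        ((J.filter fun i => oth x y v i ∈ Q) \ Prs I x y v w).image (oth x y v) := by
      intro u hu
      have u1 := mem_of_mem_erase hu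
      rcases key u (mem_of_mem_erase u1) (ne_of_mem_erase u1) with k | ⟨i, i1, i2⟩
      · exact mem_union_left _ k
      · exact mem_union_right _ (mem_image.2 ⟨i, mem_sdiff.2 ⟨i1, fun k =>
          ne_of_mem_erase hu (i2.symm.trans (po i k).2)⟩, i2⟩)
    have := card_le_card s
    have := card_union_le (nb G v ∩ Q)
      (((J.filter fun i => oth x y v i ∈ Q) \ Prs I x y v w).image (oth x y v))
    have := card_image_le (s := (J.filter fun i => oth x y v i ∈ Q) \ Prs I x y v w)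
      (f := oth x y v)
    have := card_sdiff_add_card_eq_card sub
    have := pred_card_le_card_erase (s := Q.erase v) (a := w)
    omega

omit [Fintype V] in
theorem two_cls {a b a' b' u v : V} {φ φ' p q : ℕ} {P Q : Prop} (n : φ' ≠ φ) (e : u ≠ v)
    (k : p = q) (hu : (p = φ ∧ (u = a ∨ u = b)) ∨ (p = φ' ∧ (u = a' ∨ u = b')) ∨
      (P ∧ p ≠ φ ∧ p ≠ φ'))
    (hv : (q = φ ∧ (v = a ∨ v = b)) ∨ (q = φ' ∧ (v = a' ∨ v = b')) ∨ (Q ∧ q ≠ φ ∧ q ≠ φ'))
    (m : P → Q → False) : (p = φ ∧ ((u = a ∧ v = b) ∨ (u = b ∧ v = a))) ∨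
      (p = φ' ∧ ((u = a' ∧ v = b') ∨ (u = b' ∧ v = a'))) := by
  grind

omit [Fintype V] in
/-- A colour for a violated pair. -/
theorem pair_col (hD : 8 ≤ D) (c : V → ℕ) (Fa Fb : Finset ℕ) (P : Finset ι)
    (ha : Fa.card ≤ 1) (_ : Fb.card ≤ 1) (ha' : Fa.card + P.card ≤ 2)
    (hb' : Fb.card + P.card ≤ 2) (hB : ∀ i ∈ P, (B i).card ≤ 3) (z : ℕ) :
    ∃ φ < D, φ ≠ z ∧ φ ∉ Fa ∧ φ ∉ Fb ∧ ∀ i ∈ P, ∀ b ∈ B i, c b ≠ φ := by
  have h1 : (P.biUnion fun i => (B i).image c).card ≤ P.card * 3 :=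
    card_biUnion_le_card_mul _ _ _ fun i hi => card_image_le.trans (hB i hi)
  have h2 := card_union_le Fa Fb
  have h3 := card_union_le (Fa ∪ Fb) (P.biUnion fun i => (B i).image c)
  have h4 := card_insert_le z (Fa ∪ Fb ∪ P.biUnion fun i => (B i).image c)
  obtain ⟨φ, p1, p2⟩ := exists_mem_notMem_of_card_lt_card (t := range D)
    (s := insert z (Fa ∪ Fb ∪ P.biUnion fun i => (B i).image c)) (by rw [card_range]; omega)
  simp only [mem_insert, mem_union, mem_biUnion, mem_image, not_or, not_exists, not_and] at p2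
  exact ⟨φ, mem_range.1 p1, p2.1, p2.2.1.1, p2.2.1.2, p2.2.2⟩

/-- One step: colour a clique of the enlarged graph last. -/
theorem req_step (h : MC G D) (hD : 8 ≤ D) {X W Q : Finset V} (XW : X ⊆ W)
    (hne : ∀ i ∈ I, x i ≠ y i) (hB : ∀ i ∈ I, x i ∉ B i ∧ y i ∉ B i ∧ (B i).card ≤ 3)
    (tie : ∀ v, v ∉ X → (Occ I x y B v).card ≤ (nb G v ∩ X).card)
    (big : ∀ K, IsClq G K → K.card = D → (∀ a ∈ K, a ∉ X) →
      (K.filter fun v => ∃ u ∈ X, G.Adj v u).card + 2 ≤ D)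
    (cQ : Q.card = D + 1) (hW : ∀ a ∈ Q, a ∉ W)
    (hQ : ∀ a ∈ Q, ∀ b ∈ Q, a ≠ b → G.Adj a b ∨ (∃ i ∈ I, x i = a ∧ y i = b) ∨
      ∃ i ∈ I, x i = b ∧ y i = a)
    {c : V → ℕ} (c1 : PCol G D c) (c2 : ∀ v, c v < D ↔ v ∉ W ∪ Q)
    (c3 : Meets I x y B (W ∪ Q) c) :
    ∃ c, PCol G D c ∧ (∀ v, c v < D ↔ v ∉ W) ∧ Meets I x y B W c := by
  have hX : ∀ a ∈ Q, a ∉ X := fun a ha k => hW a ha (XW k)
  have bc := fun v (hv : v ∈ Q) => bar_card (B := B) h c cQ hX hne hQ hv (tie v (hX v hv))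
  obtain ⟨a, ha, b, hb, a', ha', b', hb', ab, ab', e1, e2, e3, e4, n1, n2⟩ :=
    two_non h hD Q cQ fun s hs cl k => by
      have := big _ cl (by rw [card_erase_of_mem hs]; omega) fun u hu => hX u (mem_of_mem_erase hu)
      have : ((Q.erase s).filter fun v => ¬ G.Adj s v).card ≤
          ((Q.erase s).filter fun v => ∃ u ∈ X, G.Adj v u).card := card_le_card fun v hv => by
        obtain ⟨v1, v2⟩ := mem_filter.1 hv
        have v3 := mem_of_mem_erase v1
        have : 0 < (Occ I x y B v).card := by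
          rcases (hQ s hs v v3 (ne_of_mem_erase v1).symm).resolve_left v2 with
            ⟨i, i1, -, i3⟩ | ⟨i, i1, i2, -⟩
          · exact card_pos.2 ⟨i, mem_filter.2 ⟨i1, .inr (.inl i3)⟩⟩
          · exact card_pos.2 ⟨i, mem_filter.2 ⟨i1, .inl i2⟩⟩
        have t := tie v (hX v v3)
        obtain ⟨u, hu⟩ := (card_pos (s := nb G v ∩ X)).1 (by omega)
        exact mem_filter.2 ⟨v1, u, (mem_inter.1 hu).2, mem_nb.1 (mem_inter.1 hu).1⟩
      omega
  have ps : ∀ u v, Prs I x y u v = Prs I x y v u := fun u v => by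
    simp only [Prs, or_comm]
  have hP : ∀ u v, ∀ i ∈ Prs I x y u v, (B i).card ≤ 3 := fun u v i hi =>
    (hB i (mem_filter.1 hi).1).2.2
  obtain ⟨φ, p0, -, p1, p2, p3⟩ := pair_col (B := B) hD c _ _ (Prs I x y a b) (bc a ha).1
    (bc b hb).1 ((bc a ha).2 b hb) (ps a b ▸ (bc b hb).2 a ha) (hP a b) 0
  obtain ⟨φ', q0, q4, q1, q2, q3⟩ := pair_col (B := B) hD c _ _ (Prs I x y a' b') (bc a' ha').1
    (bc b' hb').1 ((bc a' ha').2 b' hb') (ps a' b' ▸ (bc b' hb').2 a' ha') (hP a' b') φ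
  have c4 : ({a, b, a', b'} : Finset V).card = 4 := by
    rw [card_insert_of_notMem (by simp [ab, e1, e2]), card_insert_of_notMem (by simp [e3, e4]),
      card_pair ab']
  have cR : (Q \ {a, b, a', b'}).card + 4 = D + 1 := by
    rw [← c4, card_sdiff_add_card_eq_card (by simp [insert_subset_iff, ha, hb, ha', hb']), cQ]
  obtain ⟨ψ, s1, s2⟩ := sdr (Q \ {a, b, a', b'})
    (fun v => range D \ insert φ (insert φ' (Bar I x y B G X Q c v))) fun S hS => by
      rcases S.eq_empty_or_nonempty with rfl | ⟨v, hv⟩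
      · simp
      have := card_le_card hS
      have := card_le_card (subset_biUnion_of_mem
        (fun v => range D \ insert φ (insert φ' (Bar I x y B G X Q c v))) hv)
      have := le_card_sdiff (insert φ (insert φ' (Bar I x y B G X Q c v))) (range D)
      have := card_insert_le φ (insert φ' (Bar I x y B G X Q c v))
      have := card_insert_le φ' (Bar I x y B G X Q c v)
      have := (bc v (mem_sdiff.1 (hS hv)).1).1
      rw [card_range] at *
      omega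
  obtain ⟨χ, k1, k2, k3, k4, k5⟩ : ∃ χ : V → ℕ, χ a = φ ∧ χ b = φ ∧ χ a' = φ' ∧ χ b' = φ' ∧
      ∀ v, v ≠ a → v ≠ b → v ≠ a' → v ≠ b' → χ v = ψ v :=
    ⟨fun v => if v = a ∨ v = b then φ else if v = a' ∨ v = b' then φ' else ψ v, by simp, by simp,
      by simp [e1.symm, e3.symm], by simp [e2.symm, e4.symm],
      fun v v1 v2 v3 v4 => by simp [v1, v2, v3, v4]⟩
  have sp : ∀ v ∈ Q, v ≠ a → v ≠ b → v ≠ a' → v ≠ b' → v ∈ Q \ {a, b, a', b'} ∧ χ v = ψ v ∧
      χ v < D ∧ χ v ≠ φ ∧ χ v ≠ φ' ∧ χ v ∉ Bar I x y B G X Q c v := by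
    intro v hv v1 v2 v3 v4
    have m : v ∈ Q \ {a, b, a', b'} := by simp [hv, v1, v2, v3, v4]
    have := s1 v m
    simp only [mem_sdiff, mem_range, mem_insert, not_or] at this
    rw [k5 v v1 v2 v3 v4]
    exact ⟨m, rfl, this⟩
  have t1 : ∀ v ∈ Q, χ v < D ∧ χ v ∉ Bar I x y B G X Q c v := by
    intro v hv
    by_cases v1 : v = a
    · rw [v1, k1]; exact ⟨p0, p1⟩
    by_cases v2 : v = b
    · rw [v2, k2]; exact ⟨p0, p2⟩
    by_cases v3 : v = a'
    · rw [v3, k3]; exact ⟨q0, q1⟩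
    by_cases v4 : v = b'
    · rw [v4, k4]; exact ⟨q0, q2⟩
    have := sp v hv v1 v2 v3 v4
    exact ⟨this.2.2.1, this.2.2.2.2.2⟩
  have t2 : ∀ u ∈ Q, ∀ v ∈ Q, u ≠ v → χ u = χ v →
      (χ u = φ ∧ ((u = a ∧ v = b) ∨ (u = b ∧ v = a))) ∨
      (χ u = φ' ∧ ((u = a' ∧ v = b') ∨ (u = b' ∧ v = a'))) := by
    have t0 : ∀ v ∈ Q, (χ v = φ ∧ (v = a ∨ v = b)) ∨ (χ v = φ' ∧ (v = a' ∨ v = b')) ∨
        ((v ∈ Q \ {a, b, a', b'} ∧ χ v = ψ v) ∧ χ v ≠ φ ∧ χ v ≠ φ') := by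
      intro v hv
      by_cases v1 : v = a
      · exact .inl ⟨v1 ▸ k1, .inl v1⟩
      by_cases v2 : v = b
      · exact .inl ⟨v2 ▸ k2, .inr v2⟩
      by_cases v3 : v = a'
      · exact .inr (.inl ⟨v3 ▸ k3, .inl v3⟩)
      by_cases v4 : v = b'
      · exact .inr (.inl ⟨v4 ▸ k4, .inr v4⟩)
      have := sp v hv v1 v2 v3 v4
      exact .inr (.inr ⟨⟨this.1, this.2.1⟩, this.2.2.2.1, this.2.2.2.2.1⟩)
    exact fun u hu v hv e k => two_cls q4 e k (t0 u hu) (t0 v hv) fun p q =>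
      e (s2 (mem_coe.2 p.1) (mem_coe.2 q.1) (p.2.symm.trans (k.trans q.2)))
  have t3 : ∀ u ∈ Q, ∀ v, v ∉ Q → v ∉ X → G.Adj u v → χ u ≠ c v := fun u hu v v1 v2 k e =>
    (t1 u hu).2 (mem_union_left _ (mem_image.2 ⟨v, by simp [k, v1, v2], e.symm⟩))
  have t4 : ∀ u ∈ Q, ∀ i ∈ I, (x i = u ∨ y i = u ∨ u ∈ B i) → oth x y u i ∉ Q →
      χ u ≠ c (oth x y u i) := fun u hu i i1 i2 i3 e =>
    (t1 u hu).2 (mem_union_right _ (mem_image.2
      ⟨i, mem_filter.2 ⟨mem_filter.2 ⟨i1, i2⟩, i3⟩, e.symm⟩))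
  have cX : ∀ v ∈ X, ¬ c v < D := fun v hv k => (c2 v).1 k (mem_union_left _ (XW hv))
  refine ⟨fun v => if v ∈ Q then χ v else c v, fun u v k l => ?_, fun v => ?_,
    fun i hi w1 w2 => ?_⟩
  · dsimp only at l ⊢
    by_cases hu : u ∈ Q <;> by_cases hv : v ∈ Q <;> simp only [hu, hv, if_true, if_false] at l ⊢
    · intro e
      rcases t2 u hu v hv k.ne e with ⟨-, z | z⟩ | ⟨-, z | z⟩ <;> rw [z.1, z.2] at k
      exacts [n1 k, n1 k.symm, n2 k, n2 k.symm]
    · exact fun e => t3 u hu v hv (fun z => cX v z (e ▸ l)) k e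
    · exact fun e => t3 v hv u hu (fun z => cX u z l) k.symm e.symm
    · exact c1 u v k l
  · dsimp only
    split_ifs with k
    · exact iff_of_true (t1 v k).1 (hW v k)
    · rw [c2 v, mem_union]; tauto
  · obtain ⟨b1, b2, -⟩ := hB i hi
    have ne := hne i hi
    dsimp only
    by_cases hu : x i ∈ Q <;> by_cases hv : y i ∈ Q <;> simp only [hu, hv, if_true, if_false]
    · by_cases e : χ (x i) = χ (y i)
      swap
      · exact .inl e
      refine .inr fun z z1 z2 => ?_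
      have tt := t2 _ hu _ hv ne e
      split_ifs with k
      · intro f
        have := t2 z k _ hu (fun q => b1 (q ▸ z1)) f
        have q1 : z ≠ x i := fun q => b1 (q ▸ z1)
        have q2 : z ≠ y i := fun q => b2 (q ▸ z1)
        clear * - this tt q1 q2 f q4 ne e1 e2 e3 e4 ab ab'
        grind
      · rcases tt with ⟨f, g⟩ | ⟨f, g⟩ <;> rw [f]
        · exact p3 i (mem_filter.2 ⟨hi, g⟩) z z1
        · exact q3 i (mem_filter.2 ⟨hi, g⟩) z z1
    · have o : oth x y (x i) i = y i := by rw [oth, if_pos rfl]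
      exact .inl (o ▸ t4 _ hu i hi (.inl rfl) (o ▸ hv))
    · have o : oth x y (y i) i = x i := by rw [oth, if_neg ne]
      exact .inl (o ▸ t4 _ hv i hi (.inr (.inl rfl)) (o ▸ hu)).symm
    · refine (c3 i hi (by simp [w1, hu]) (by simp [w2, hv])).imp id fun k z z1 z2 => ?_
      split_ifs with l
      · have o : oth x y z i = x i := by
          rw [oth, if_neg fun q : x i = z => b1 (q ▸ z1)]
        exact o ▸ t4 z l i hi (.inr (.inr z1)) (o ▸ hu)
      · exact k z z1 (by simp [z2, l])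

/-- Any number of virtual edges with fallback sets. -/
theorem req (h : MC G D) (hD : 8 ≤ D) (X : Finset V) {x0 y0 : V} (hx : x0 ∈ X)
    (a0 : G.Adj y0 x0) (hne : ∀ i ∈ I, x i ≠ y i)
    (hB : ∀ i ∈ I, x i ∉ B i ∧ y i ∉ B i ∧ (B i).card ≤ 3)
    (tie : ∀ v, v ∉ X → (Occ I x y B v).card ≤ (nb G v ∩ X).card)
    (big : ∀ K, IsClq G K → K.card = D → (∀ a ∈ K, a ∉ X) →
      (K.filter fun v => ∃ u ∈ X, G.Adj v u).card + 2 ≤ D) :
    ∃ c, PCol G D c ∧ (∀ v, c v < D ↔ v ∉ X) ∧ Meets I x y B X c := by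
  suffices H : ∀ n, ∀ W : Finset V, X ⊆ W → (univ \ W).card = n →
      ∃ c, PCol G D c ∧ (∀ v, c v < D ↔ v ∉ W) ∧ Meets I x y B W c from H _ X Subset.rfl rfl
  intro n
  induction n using Nat.strong_induction_on with
  | _ n ih =>
  intro W XW hn
  by_cases k : ∃ Q : Finset V, Q.card = D + 1 ∧ (∀ a ∈ Q, a ∉ W) ∧
      ∀ a ∈ Q, ∀ b ∈ Q, a ≠ b → G.Adj a b ∨ (∃ i ∈ I, x i = a ∧ y i = b) ∨
        ∃ i ∈ I, x i = b ∧ y i = a
  · obtain ⟨Q, q1, q2, q3⟩ := k
    obtain ⟨s, hs⟩ := (card_pos (s := Q)).1 (by omega)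
    obtain ⟨c, c1, c2, c3⟩ := ih _ (hn ▸ card_lt_card (s := univ \ (W ∪ Q)) (t := univ \ W)
      ⟨sdiff_subset_sdiff Subset.rfl subset_union_left, fun z => by
        have := z (show s ∈ univ \ W by simp [q2 s hs])
        simp [hs] at this⟩) (W ∪ Q) (XW.trans subset_union_left) rfl
    exact req_step h hD XW hne hB tie big q1 q2 q3 c1 c2 c3
  · obtain ⟨c, c1, c2, c3⟩ := col_off h W (fun u v => ∃ i ∈ I, x i = u ∧ y i = v) (XW hx) a0
      (fun u hu => ⟨(Occ I x y B u).image (oth x y u),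
        card_image_le.trans ((tie u fun z => hu (XW z)).trans
          (card_le_card (inter_subset_inter Subset.rfl XW))), by
        rintro v (⟨i, i1, i2, i3⟩ | ⟨i, i1, i2, i3⟩)
        · exact mem_image.2 ⟨i, mem_filter.2 ⟨i1, .inl i2⟩, by rw [oth, if_pos i2, i3]⟩
        · exact mem_image.2 ⟨i, mem_filter.2 ⟨i1, .inr (.inl i3)⟩,
            by rw [oth, if_neg (i3 ▸ hne i i1), i2]⟩⟩)
      fun Q q1 q2 q3 => k ⟨Q, q1, q2, q3⟩
    exact ⟨c, c1, c2, fun i hi w1 w2 => .inl (c3 _ _ (hne i hi) w1 w2 ⟨i, hi, rfl, rfl⟩)⟩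

end Req

end Pool.Agent.Lib.MP_12eaff_co.Frz.BK
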