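import Mathlib
import Pool.Agent.Lib.MP_12eaff_co.Frz.Req

set_option autoImplicit false

namespace Pool.Agent.Lib.MP_12eaff_co.Frz.BK

open Finset
open scoped Classical

variable {V : Type} [Fintype V] {G : SimpleGraph V} {D : ℕ}
variable {ι : Type} {I : Finset ι} {x y : ι → V} {B : ι → Finset V}

/-- One step of `req2`: a clique of real and virtual edges is coloured last. -/
theorem req_step2 (h : MC G D) (hD : 8 ≤ D) {X W Q : Finset V} (XW : X ⊆ W)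
    (hne : ∀ i ∈ I, x i ≠ y i) (hB : ∀ i ∈ I, x i ∉ B i ∧ y i ∉ B i ∧ (B i).card ≤ 3)
    (tie : ∀ v, v ∉ X → (Occ I x y B v).card ≤ (nb G v ∩ X).card)
    (big : ∀ K, IsClq G K → K.card = D → (∀ a ∈ K, a ∉ X) → ∀ s, s ∉ K →
      (K.filter fun v => ∃ i ∈ I, (x i = s ∧ y i = v) ∨ (x i = v ∧ y i = s)).card + 2 ≤ D)
    (cQ : Q.card = D + 1) (hW : ∀ a ∈ Q, a ∉ W)
    (hQ : ∀ a ∈ Q, ∀ b ∈ Q, a ≠ b → G.Adj a b ∨ (∃ i ∈ I, x i = a ∧ y i = b) ∨
      ∃ i ∈ I, x i = b ∧ y i = a)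
    {c : V → ℕ} (c1 : PCol G D c) (c2 : ∀ v, c v < D ↔ v ∉ W ∪ Q)
    (c3 : Meets I x y B (W ∪ Q) c) :
    ∃ c, PCol G D c ∧ (∀ v, c v < D ↔ v ∉ W) ∧ Meets I x y B W c := by
  have hX : ∀ a ∈ Q, a ∉ X := fun a ha k => hW a ha (XW k)
  have bc := fun v (hv : v ∈ Q) => bar_card (B := B) h c cQ hX hne hQ hv (tie v (hX v hv))
  obtain ⟨a, ha, b, hb, a', ha', b', hb', ab, ab', e1, e2, e3, e4, n1, n2⟩ :=
    two_non h hD Q cQ fun s hs cl k => by
      have := big _ cl (by rw [card_erase_of_mem hs]; omega)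
        (fun u hu => hX u (mem_of_mem_erase hu)) s (notMem_erase s Q)
      have : ((Q.erase s).filter fun v => ¬ G.Adj s v).card ≤
          ((Q.erase s).filter fun v =>
            ∃ i ∈ I, (x i = s ∧ y i = v) ∨ (x i = v ∧ y i = s)).card := card_le_card fun v hv => by
        obtain ⟨v1, v2⟩ := mem_filter.1 hv
        have v3 := mem_of_mem_erase v1
        rcases (hQ s hs v v3 (ne_of_mem_erase v1).symm).resolve_left v2 with
          ⟨i, i1, i2⟩ | ⟨i, i1, i2⟩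
        · exact mem_filter.2 ⟨v1, i, i1, .inl i2⟩
        · exact mem_filter.2 ⟨v1, i, i1, .inr i2⟩
      omega
  have ps : ∀ u v, Prs I x y u v = Prs I x y v u := fun u v => by
    simp only [Prs, or_comm]
  have hP : ∀ u v, ∀ i ∈ Prs I x y u v, (B i).card ≤ 3 := fun u v i hi =>
    (hB i (mem_filter.1 hi).1).2.2
  obtain ⟨φ, p0, -, p1, p2, p3⟩ := pair_col (B := B) hD c _ _ (Prs I x y a b) (bc a ha).1
    (bc b hb).1 ((bc a ha).2 b hb) (ps a b ▸ (bc b hb).2 a ha) (hP a b) 0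
  obtain ⟨φ', q0, q4, q1, q2, q3⟩ := pair_col (B := B) hD c _ _ (Prs I x y a' b') (bc a' ha').1
    (bc b' hb').1 ((bc a' ha').2 b' hb') (ps a' b' ▸ (bc b' hb').2 a' ha') (hP a' b') φ
  have c4 : ({a, b, a', b'} : Finset V).card = 4 := by
    rw [card_insert_of_notMem (by simp [ab, e1, e2]), card_insert_of_notMem (by simp [e3, e4]),
      card_pair ab']
  have cR : (Q \ {a, b, a', b'}).card + 4 = D + 1 := by
    rw [← c4, card_sdiff_add_card_eq_card (by simp [insert_subset_iff, ha, hb, ha', hb']), cQ]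
  obtain ⟨ψ, s1, s2⟩ := sdr (Q \ {a, b, a', b'})
    (fun v => range D \ insert φ (insert φ' (Bar I x y B G X Q c v))) fun S hS => by
      rcases S.eq_empty_or_nonempty with rfl | ⟨v, hv⟩
      · simp
      have := card_le_card hS
      have := card_le_card (subset_biUnion_of_mem
        (fun v => range D \ insert φ (insert φ' (Bar I x y B G X Q c v))) hv)
      have := le_card_sdiff (insert φ (insert φ' (Bar I x y B G X Q c v))) (range D)
      have := card_insert_le φ (insert φ' (Bar I x y B G X Q c v))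
      have := card_insert_le φ' (Bar I x y B G X Q c v)
      have := (bc v (mem_sdiff.1 (hS hv)).1).1
      rw [card_range] at *
      omega
  obtain ⟨χ, k1, k2, k3, k4, k5⟩ : ∃ χ : V → ℕ, χ a = φ ∧ χ b = φ ∧ χ a' = φ' ∧ χ b' = φ' ∧
      ∀ v, v ≠ a → v ≠ b → v ≠ a' → v ≠ b' → χ v = ψ v :=
    ⟨fun v => if v = a ∨ v = b then φ else if v = a' ∨ v = b' then φ' else ψ v, by simp, by simp,
      by simp [e1.symm, e3.symm], by simp [e2.symm, e4.symm],
      fun v v1 v2 v3 v4 => by simp [v1, v2, v3, v4]⟩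
  have sp : ∀ v ∈ Q, v ≠ a → v ≠ b → v ≠ a' → v ≠ b' → v ∈ Q \ {a, b, a', b'} ∧ χ v = ψ v ∧
      χ v < D ∧ χ v ≠ φ ∧ χ v ≠ φ' ∧ χ v ∉ Bar I x y B G X Q c v := by
    intro v hv v1 v2 v3 v4
    have m : v ∈ Q \ {a, b, a', b'} := by simp [hv, v1, v2, v3, v4]
    have := s1 v m
    simp only [mem_sdiff, mem_range, mem_insert, not_or] at this
    rw [k5 v v1 v2 v3 v4]
    exact ⟨m, rfl, this⟩
  have t1 : ∀ v ∈ Q, χ v < D ∧ χ v ∉ Bar I x y B G X Q c v := by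
    intro v hv
    by_cases v1 : v = a
    · rw [v1, k1]; exact ⟨p0, p1⟩
    by_cases v2 : v = b
    · rw [v2, k2]; exact ⟨p0, p2⟩
    by_cases v3 : v = a'
    · rw [v3, k3]; exact ⟨q0, q1⟩
    by_cases v4 : v = b'
    · rw [v4, k4]; exact ⟨q0, q2⟩
    have := sp v hv v1 v2 v3 v4
    exact ⟨this.2.2.1, this.2.2.2.2.2⟩
  have t2 : ∀ u ∈ Q, ∀ v ∈ Q, u ≠ v → χ u = χ v →
      (χ u = φ ∧ ((u = a ∧ v = b) ∨ (u = b ∧ v = a))) ∨
      (χ u = φ' ∧ ((u = a' ∧ v = b') ∨ (u = b' ∧ v = a'))) := by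
    have t0 : ∀ v ∈ Q, (χ v = φ ∧ (v = a ∨ v = b)) ∨ (χ v = φ' ∧ (v = a' ∨ v = b')) ∨
        ((v ∈ Q \ {a, b, a', b'} ∧ χ v = ψ v) ∧ χ v ≠ φ ∧ χ v ≠ φ') := by
      intro v hv
      by_cases v1 : v = a
      · exact .inl ⟨v1 ▸ k1, .inl v1⟩
      by_cases v2 : v = b
      · exact .inl ⟨v2 ▸ k2, .inr v2⟩
      by_cases v3 : v = a'
      · exact .inr (.inl ⟨v3 ▸ k3, .inl v3⟩)
      by_cases v4 : v = b'
      · exact .inr (.inl ⟨v4 ▸ k4, .inr v4⟩)
      have := sp v hv v1 v2 v3 v4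
      exact .inr (.inr ⟨⟨this.1, this.2.1⟩, this.2.2.2.1, this.2.2.2.2.1⟩)
    exact fun u hu v hv e k => two_cls q4 e k (t0 u hu) (t0 v hv) fun p q =>
      e (s2 (mem_coe.2 p.1) (mem_coe.2 q.1) (p.2.symm.trans (k.trans q.2)))
  have t3 : ∀ u ∈ Q, ∀ v, v ∉ Q → v ∉ X → G.Adj u v → χ u ≠ c v := fun u hu v v1 v2 k e =>
    (t1 u hu).2 (mem_union_left _ (mem_image.2 ⟨v, by simp [k, v1, v2], e.symm⟩))
  have t4 : ∀ u ∈ Q, ∀ i ∈ I, (x i = u ∨ y i = u ∨ u ∈ B i) → oth x y u i ∉ Q →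
      χ u ≠ c (oth x y u i) := fun u hu i i1 i2 i3 e =>
    (t1 u hu).2 (mem_union_right _ (mem_image.2
      ⟨i, mem_filter.2 ⟨mem_filter.2 ⟨i1, i2⟩, i3⟩, e.symm⟩))
  have cX : ∀ v ∈ X, ¬ c v < D := fun v hv k => (c2 v).1 k (mem_union_left _ (XW hv))
  refine ⟨fun v => if v ∈ Q then χ v else c v, fun u v k l => ?_, fun v => ?_,
    fun i hi w1 w2 => ?_⟩
  · dsimp only at l ⊢
    by_cases hu : u ∈ Q <;> by_cases hv : v ∈ Q <;> simp only [hu, hv, if_true, if_false] at l ⊢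
    · intro e
      rcases t2 u hu v hv k.ne e with ⟨-, z | z⟩ | ⟨-, z | z⟩ <;> rw [z.1, z.2] at k
      exacts [n1 k, n1 k.symm, n2 k, n2 k.symm]
    · exact fun e => t3 u hu v hv (fun z => cX v z (e ▸ l)) k e
    · exact fun e => t3 v hv u hu (fun z => cX u z l) k.symm e.symm
    · exact c1 u v k l
  · dsimp only
    split_ifs with k
    · exact iff_of_true (t1 v k).1 (hW v k)
    · rw [c2 v, mem_union]; tauto
  · obtain ⟨b1, b2, -⟩ := hB i hi
    have ne := hne i hi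
    dsimp only
    by_cases hu : x i ∈ Q <;> by_cases hv : y i ∈ Q <;> simp only [hu, hv, if_true, if_false]
    · by_cases e : χ (x i) = χ (y i)
      swap
      · exact .inl e
      refine .inr fun z z1 z2 => ?_
      have tt := t2 _ hu _ hv ne e
      split_ifs with k
      · intro f
        have := t2 z k _ hu (fun q => b1 (q ▸ z1)) f
        have q1 : z ≠ x i := fun q => b1 (q ▸ z1)
        have q2 : z ≠ y i := fun q => b2 (q ▸ z1)
        clear * - this tt q1 q2 f q4 ne e1 e2 e3 e4 ab ab'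
        grind
      · rcases tt with ⟨f, g⟩ | ⟨f, g⟩ <;> rw [f]
        · exact p3 i (mem_filter.2 ⟨hi, g⟩) z z1
        · exact q3 i (mem_filter.2 ⟨hi, g⟩) z z1
    · have o : oth x y (x i) i = y i := by rw [oth, if_pos rfl]
      exact .inl (o ▸ t4 _ hu i hi (.inl rfl) (o ▸ hv))
    · have o : oth x y (y i) i = x i := by rw [oth, if_neg ne]
      exact .inl (o ▸ t4 _ hv i hi (.inr (.inl rfl)) (o ▸ hu)).symm
    · refine (c3 i hi (by simp [w1, hu]) (by simp [w2, hv])).imp id fun k z z1 z2 => ?_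
      split_ifs with l
      · have o : oth x y z i = x i := by
          rw [oth, if_neg fun q : x i = z => b1 (q ▸ z1)]
        exact o ▸ t4 z l i hi (.inr (.inr z1)) (o ▸ hu)
      · exact k z z1 (by simp [z2, l])

/-- Any number of virtual edges with fallback sets. -/
theorem req2 (h : MC G D) (hD : 8 ≤ D) (X : Finset V) {x0 y0 : V} (hx : x0 ∈ X)
    (a0 : G.Adj y0 x0) (hne : ∀ i ∈ I, x i ≠ y i)
    (hB : ∀ i ∈ I, x i ∉ B i ∧ y i ∉ B i ∧ (B i).card ≤ 3)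
    (tie : ∀ v, v ∉ X → (Occ I x y B v).card ≤ (nb G v ∩ X).card)
    (big : ∀ K, IsClq G K → K.card = D → (∀ a ∈ K, a ∉ X) → ∀ s, s ∉ K →
      (K.filter fun v => ∃ i ∈ I, (x i = s ∧ y i = v) ∨ (x i = v ∧ y i = s)).card + 2 ≤ D) :
    ∃ c, PCol G D c ∧ (∀ v, c v < D ↔ v ∉ X) ∧ Meets I x y B X c := by
  suffices H : ∀ n, ∀ W : Finset V, X ⊆ W → (univ \ W).card = n →
      ∃ c, PCol G D c ∧ (∀ v, c v < D ↔ v ∉ W) ∧ Meets I x y B W c from H _ X Subset.rfl rfl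
  intro n
  induction n using Nat.strong_induction_on with
  | _ n ih =>
  intro W XW hn
  by_cases k : ∃ Q : Finset V, Q.card = D + 1 ∧ (∀ a ∈ Q, a ∉ W) ∧
      ∀ a ∈ Q, ∀ b ∈ Q, a ≠ b → G.Adj a b ∨ (∃ i ∈ I, x i = a ∧ y i = b) ∨
        ∃ i ∈ I, x i = b ∧ y i = a
  · obtain ⟨Q, q1, q2, q3⟩ := k
    obtain ⟨s, hs⟩ := (card_pos (s := Q)).1 (by omega)
    obtain ⟨c, c1, c2, c3⟩ := ih _ (hn ▸ card_lt_card (s := univ \ (W ∪ Q)) (t := univ \ W)
      ⟨sdiff_subset_sdiff Subset.rfl subset_union_left, fun z => by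
        have := z (show s ∈ univ \ W by simp [q2 s hs])
        simp [hs] at this⟩) (W ∪ Q) (XW.trans subset_union_left) rfl
    exact req_step2 h hD XW hne hB tie big q1 q2 q3 c1 c2 c3
  · obtain ⟨c, c1, c2, c3⟩ := col_off h W (fun u v => ∃ i ∈ I, x i = u ∧ y i = v) (XW hx) a0
      (fun u hu => ⟨(Occ I x y B u).image (oth x y u),
        card_image_le.trans ((tie u fun z => hu (XW z)).trans
          (card_le_card (inter_subset_inter Subset.rfl XW))), by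
        rintro v (⟨i, i1, i2, i3⟩ | ⟨i, i1, i2, i3⟩)
        · exact mem_image.2 ⟨i, mem_filter.2 ⟨i1, .inl i2⟩, by rw [oth, if_pos i2, i3]⟩
        · exact mem_image.2 ⟨i, mem_filter.2 ⟨i1, .inr (.inl i3)⟩,
            by rw [oth, if_neg (i3 ▸ hne i i1), i2]⟩⟩)
      fun Q q1 q2 q3 => k ⟨Q, q1, q2, q3⟩
    exact ⟨c, c1, c2, fun i hi w1 w2 => .inl (c3 _ _ (hne i hi) w1 w2 ⟨i, hi, rfl, rfl⟩)⟩

end Pool.Agent.Lib.MP_12eaff_co.Frz.BK
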