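import Mathlib
import Pool.Agent.Lib.MP_12eaff_co.Frz.Sel5a

set_option autoImplicit false

namespace Pool.Agent.Lib.MP_12eaff_co.Frz.BK

open Finset Pool.Agent.Lib.MP_12eaff_co.Frz.Ker
open scoped Classical

variable {V : Type} [Fintype V] {G : SimpleGraph V} {D : ℕ}

/-- The member of the family `T` that contains `v`. -/
noncomputable def clOf (T : Finset (Finset V)) (v : V) : Finset V :=
  if h : ∃ K ∈ T, v ∈ K then h.choose else ∅

theorem clOf_eq (h : MC G D) (hD : 8 ≤ D) {T : Finset (Finset V)}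
    (hT : ∀ K ∈ T, IsClq G K ∧ K.card = D) {K : Finset V} (hK : K ∈ T) {v : V} (hv : v ∈ K) :
    clOf T v = K := by
  have e : ∃ K ∈ T, v ∈ K := ⟨K, hK, hv⟩
  rw [clOf, dif_pos e]
  exact dj8 h hD (hT _ e.choose_spec.1).1 (hT _ e.choose_spec.1).2 (hT K hK).1 (hT K hK).2
    e.choose_spec.2 hv

/-- Colouring off the cliques of `T` in which three chosen outside neighbours of each clique of
`TB` do not all have the same colour. -/
theorem col_nae (h : MC G D) (hD : 8 ≤ D) {T : Finset (Finset V)} (ne : T.Nonempty)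
    (hT : ∀ K ∈ T, IsClq G K ∧ K.card = D) {TB : Finset (Finset V)} (sub : TB ⊆ T)
    (y o : Finset V → Fin 3 → V) (hy : ∀ K ∈ TB, ∀ j, y K j ∈ K)
    (yi : ∀ K ∈ TB, ∀ i j, y K i = y K j → i = j) (ho : ∀ K ∈ TB, ∀ j, o K j ∉ T.biUnion id)
    (ad : ∀ K ∈ TB, ∀ j, G.Adj (y K j) (o K j)) :
    ∃ c, PCol G D c ∧ (∀ v, c v < D ↔ v ∉ T.biUnion id) ∧
      ∀ K ∈ TB, ∃ i j, c (o K i) ≠ c (o K j) := by
  let IU : V → Prop := fun v => ∃ K, IsClq G K ∧ K.card = D ∧ v ∈ K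
  have mW : ∀ K ∈ T, ∀ v ∈ K, v ∈ T.biUnion id := fun K k v l => mem_biUnion.2 ⟨K, k, l⟩
  have oi : ∀ K ∈ TB, ∀ i j, o K i = o K j → i = j := fun K k i j e =>
    yi K k i j (rs8 h hD (hT K (sub k)).1 (hT K (sub k)).2
      (fun z => ho K k i (mW K (sub k) _ z)) (hy K k i) (hy K k j) (ad K k i).symm
      (e ▸ (ad K k j).symm))
  have pg : ∀ K : Finset V, ∃ i j k : Fin 3, i ≠ j ∧ i ≠ k ∧ j ≠ k ∧ (IU (o K i) ↔ IU (o K j)) :=
    fun K => by
      by_cases a : IU (o K 0) ↔ IU (o K 1)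
      · exact ⟨0, 1, 2, by decide, by decide, by decide, a⟩
      by_cases b : IU (o K 0) ↔ IU (o K 2)
      · exact ⟨0, 2, 1, by decide, by decide, by decide, b⟩
      exact ⟨1, 2, 0, by decide, by decide, by decide, by
        by_cases IU (o K 0) <;> by_cases IU (o K 1) <;> by_cases IU (o K 2) <;> simp_all⟩
  choose i j k ij ik jk iu using pg
  have tie : ∀ v, (Occ TB (fun K => o K (i K)) (fun K => o K (j K))
      (fun K => {o K (k K)}) v).card ≤ (nb G v ∩ T.biUnion id).card := fun v => by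
    refine le_trans (card_le_card fun K hK => ?_) (card_image_le (f := clOf T))
    obtain ⟨k1, k2⟩ := mem_filter.1 hK
    obtain ⟨l, hl⟩ : ∃ l, o K l = v := by
      rcases k2 with e | e | e
      exacts [⟨_, e⟩, ⟨_, e⟩, ⟨_, (mem_singleton.1 e).symm⟩]
    exact mem_image.2 ⟨y K l, mem_inter.2 ⟨mem_nb.2 (hl ▸ (ad K k1 l).symm),
      mW K (sub k1) _ (hy K k1 l)⟩, clOf_eq h hD hT (sub k1) (hy K k1 l)⟩
  obtain ⟨K0, k0⟩ := ne
  obtain ⟨x0, x1, y0, y1, xy⟩ := one_lt_card.1 (show 1 < K0.card by have := (hT K0 k0).2; omega)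
  obtain ⟨c, c1, c2, c3⟩ := req2 (I := TB) (x := fun K => o K (i K)) (y := fun K => o K (j K))
    (B := fun K => {o K (k K)}) h hD (T.biUnion id) (mW K0 k0 x0 x1)
    ((hT K0 k0).1 y0 y1 x0 x1 xy.symm) (fun K l e => ij K (oi K l _ _ e))
    (fun K l => ⟨fun e => ik K (oi K l _ _ (mem_singleton.1 e)),
      fun e => jk K (oi K l _ _ (mem_singleton.1 e)), by simp⟩) (fun v _ => tie v)
    (fun K q1 q2 _ s _ => by
      rcases (K.filter fun v => ∃ L ∈ TB, (o L (i L) = s ∧ o L (j L) = v) ∨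
        (o L (i L) = v ∧ o L (j L) = s)).eq_empty_or_nonempty with e | ⟨v, hv⟩
      · rw [e, card_empty]; omega
      obtain ⟨v1, L, l1, l2⟩ := mem_filter.1 hv
      have iv : IU v := ⟨K, q1, q2, v1⟩
      obtain ⟨⟨R, r1, r2, r3⟩, sW⟩ : IU s ∧ s ∉ T.biUnion id := by
        rcases l2 with ⟨a, b⟩ | ⟨a, b⟩
        · exact ⟨a ▸ (iu L).2 (b ▸ iv), a ▸ ho L l1 _⟩
        · exact ⟨b ▸ (iu L).1 (a ▸ iv), b ▸ ho L l1 _⟩
      have a1 := out2 h r1 r2 r3
      have a2 : (nb G s ∩ T.biUnion id).card ≤ (nb G s \ R).card := card_le_card fun u hu => by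
        obtain ⟨u1, u2⟩ := mem_inter.1 hu
        obtain ⟨M, m1, m2⟩ := mem_biUnion.1 u2
        exact mem_sdiff.2 ⟨u1, fun z => sW (mW M m1 s
          (dj8 h hD r1 r2 (hT M m1).1 (hT M m1).2 z m2 ▸ r3))⟩
      have a3 := tie s
      have a4 : (K.filter fun v => ∃ L ∈ TB, (o L (i L) = s ∧ o L (j L) = v) ∨
          (o L (i L) = v ∧ o L (j L) = s)).card ≤ (Occ TB (fun K => o K (i K))
          (fun K => o K (j K)) (fun K => {o K (k K)}) s).card := by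
        refine le_trans (card_le_card fun u hu => ?_)
          (card_image_le (f := oth (fun K => o K (i K)) (fun K => o K (j K)) s))
        obtain ⟨-, M, m1, ⟨a, b⟩ | ⟨a, b⟩⟩ := mem_filter.1 hu
        · exact mem_image.2 ⟨M, mem_filter.2 ⟨m1, .inl a⟩, by rw [oth, if_pos a, b]⟩
        · exact mem_image.2 ⟨M, mem_filter.2 ⟨m1, .inr (.inl b)⟩, by
            rw [oth, if_neg fun z => ij M (oi M m1 _ _ (z.trans b.symm)), a]⟩
      omega)
  refine ⟨c, c1, c2, fun K l => ?_⟩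
  rcases c3 K l (ho K l _) (ho K l _) with e | e
  · exact ⟨_, _, e⟩
  · exact ⟨_, _, e _ (mem_singleton_self _) (ho K l _)⟩

/-- An independent set of clique members with cross neighbours in the family: every clique has a
member with all neighbours in the family and a second member, or three members. -/
theorem stat3 (h : MC G D) (hD : 8 ≤ D) {T : Finset (Finset V)} (ne : T.Nonempty)
    (hT : ∀ K ∈ T, IsClq G K ∧ K.card = D) (Φ : Finset V)
    (ind : ∀ K ∈ T, ∀ L ∈ T, K ≠ L → ∀ a ∈ K ∩ Φ, ∀ b ∈ L ∩ Φ, ¬ G.Adj a b)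
    (un : ∀ K ∈ T, ∀ a ∈ K ∩ Φ, ∃ w ∈ T.biUnion id, w ∉ K ∧ G.Adj a w)
    (ty : ∀ K ∈ T, (∃ t ∈ K ∩ Φ, ∃ s ∈ K ∩ Φ, t ≠ s ∧ nb G t ⊆ T.biUnion id) ∨
      3 ≤ (K ∩ Φ).card) : False := by
  set W := T.biUnion id with hW
  have mW : ∀ K ∈ T, ∀ v ∈ K, v ∈ W := fun K k v l => mem_biUnion.2 ⟨K, k, l⟩
  have ce : ∀ K ∈ T, ∀ v ∈ K, clOf T v = K := fun K k v l => clOf_eq h hD hT k l
  have cw : ∀ v ∈ W, clOf T v ∈ T ∧ v ∈ clOf T v := fun v l => by
    obtain ⟨K, k1, k2⟩ := mem_biUnion.1 l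
    rw [ce K k1 v k2]; exact ⟨k1, k2⟩
  have o2 : ∀ K ∈ T, ∀ v ∈ K, (nb G v \ K).card ≤ 2 := fun K k v l =>
    out2 h (hT K k).1 (hT K k).2 l
  set TB := T.filter fun K => ¬ ∃ t ∈ K ∩ Φ, ∃ s ∈ K ∩ Φ, t ≠ s ∧ nb G t ⊆ W with hB
  have sub : TB ⊆ T := filter_subset _ _
  have ex : ∀ K : Finset V, ∃ y o : Fin 3 → V, K ∈ TB → (∀ j, y j ∈ K ∩ Φ) ∧
      (∀ i j, y i = y j → i = j) ∧ ∀ j, nb G (y j) \ W = {o j} := fun K => by
    by_cases k : K ∈ TB
    swap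
    · obtain ⟨K0, k0⟩ := ne
      obtain ⟨v, -⟩ := (card_pos (s := K0)).1 (by have := (hT K0 k0).2; omega)
      exact ⟨fun _ => v, fun _ => v, fun z => absurd z k⟩
    obtain ⟨k1, k2⟩ := mem_filter.1 k
    have k3 := (ty K k1).resolve_left k2
    obtain ⟨S, s1, s2⟩ := exists_subset_card_eq k3
    let e := (S.equivFinOfCardEq s2).symm
    have one : ∀ a ∈ K ∩ Φ, ∃ z, nb G a \ W = {z} := fun a ha => by
      obtain ⟨b, b1, b2⟩ := exists_mem_ne (show 1 < (K ∩ Φ).card by omega) a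
      obtain ⟨z, z1, z2⟩ := not_subset.1 fun z => k2 ⟨a, ha, b, b1, b2.symm, z⟩
      obtain ⟨w, w1, w2, w3⟩ := un K k1 a ha
      have := o2 K k1 a (mem_inter.1 ha).1
      have := card_erase_add_one (show w ∈ nb G a \ K from mem_sdiff.2 ⟨mem_nb.2 w3, w2⟩)
      have : (nb G a \ W).card ≤ ((nb G a \ K).erase w).card := card_le_card fun u hu =>
        mem_erase.2 ⟨fun z => (mem_sdiff.1 hu).2 (z ▸ w1), mem_sdiff.2
          ⟨(mem_sdiff.1 hu).1, fun z => (mem_sdiff.1 hu).2 (mW K k1 u z)⟩⟩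
      have := card_pos.2 ⟨z, mem_sdiff.2 ⟨z1, z2⟩⟩
      exact card_eq_one.1 (by omega)
    choose! z hz using one
    exact ⟨fun j => e j, fun j => z (e j), fun _ => ⟨fun j => s1 (e j).2,
      fun i j q => e.injective (Subtype.ext q), fun j => hz _ (s1 (e j).2)⟩⟩
  choose y o hyo using ex
  have om : ∀ K ∈ TB, ∀ j u, u = o K j ↔ G.Adj (y K j) u ∧ u ∉ W := fun K k j u => by
    rw [← mem_singleton, ← (hyo K k).2.2 j, mem_sdiff, mem_nb]
  obtain ⟨c, c1, c2, c3⟩ := col_nae h hD ne hT sub y o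
    (fun K k j => (mem_inter.1 ((hyo K k).1 j)).1) (fun K k => (hyo K k).2.1)
    (fun K k j => ((om K k j _).1 rfl).2) fun K k j => ((om K k j _).1 rfl).1
  have pk : ∀ K : Finset V, ∃ t s q a : V, K ∈ T → t ∈ K ∩ Φ ∧ s ∈ K ∩ Φ ∧ t ≠ s ∧
      (K ∉ TB → nb G t ⊆ W) ∧ (K ∈ TB → q ∈ K ∩ Φ ∧ q ≠ t ∧ q ≠ s ∧ a ∉ W ∧
        (∀ u, G.Adj t u → u ∉ W → u = a) ∧ ∀ u, G.Adj q u → u ∉ W → c u ≠ c a) := fun K => by
    by_cases k : K ∈ TB
    · obtain ⟨i, j, e⟩ := c3 K k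
      have ij : i ≠ j := fun z => e (z ▸ rfl)
      obtain ⟨l, l1, l2⟩ : ∃ l : Fin 3, l ≠ i ∧ l ≠ j := by
        clear e; revert i j; decide
      obtain ⟨m1, m2, -⟩ := hyo K k
      exact ⟨y K i, y K l, y K j, o K i, fun _ => ⟨m1 i, m1 l, fun z => l1 (m2 _ _ z).symm,
        fun z => absurd k z, fun _ => ⟨m1 j, fun z => ij (m2 _ _ z).symm,
        fun z => l2 (m2 _ _ z).symm, ((om K k i _).1 rfl).2,
        fun u u1 u2 => (om K k i u).2 ⟨u1, u2⟩,
        fun u u1 u2 => (om K k j u).2 ⟨u1, u2⟩ ▸ e.symm⟩⟩⟩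
    by_cases k1 : K ∈ T
    · obtain ⟨t, t1, s, s1, e, f⟩ := not_not.1 fun z => k (mem_filter.2 ⟨k1, z⟩)
      exact ⟨t, s, t, t, fun _ => ⟨t1, s1, e, fun _ => f, fun z => absurd z k⟩⟩
    · exact ⟨y K 0, y K 0, y K 0, y K 0, fun z => absurd z k1⟩
  choose t s q a hp using pk
  set P := TB.image q with hP
  have mP : ∀ v ∈ P, ∃ K ∈ TB, v = q K ∧ v ∈ K ∩ Φ ∧ clOf T v = K := fun v hv => by
    obtain ⟨K, k, rfl⟩ := mem_image.1 hv
    have := ((hp K (sub k)).2.2.2.2 k).1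
    exact ⟨K, k, rfl, this, ce K (sub k) _ (mem_inter.1 this).1⟩
  have aP : ∀ K ∈ T, ∀ v ∈ K, ∀ u ∈ P, u ∈ K → K ∈ TB ∧ u = q K := fun K k v _ u hu uK => by
    obtain ⟨L, l1, l2, l3, l4⟩ := mP u hu
    have : L = K := l4.symm.trans (ce K k u uK)
    subst this
    exact ⟨l1, l2⟩
  have fP : ∀ K ∈ T, ∀ v ∈ K ∩ Φ, ∀ u ∈ P, G.Adj v u → u ∈ K := fun K k v hv u hu ad => by
    obtain ⟨L, l1, -, l3, -⟩ := mP u hu
    by_cases e : K = L
    · exact e ▸ (mem_inter.1 l3).1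
    · exact absurd ad (ind K k L (sub l1) e v hv u l3)
  have PW : ∀ v ∈ P, v ∈ W := fun v hv => by
    obtain ⟨L, l1, -, l3, -⟩ := mP v hv
    exact mW L (sub l1) v (mem_inter.1 l3).1
  let d : V → ℕ := fun v => if v ∈ P then c (a (clOf T v)) else c v
  have dP : ∀ K ∈ TB, d (q K) = c (a K) := fun K k => by
    have : q K ∈ P := mem_image_of_mem _ k
    simp only [d, if_pos this]
    rw [ce K (sub k) _ (mem_inter.1 ((hp K (sub k)).2.2.2.2 k).1).1]
  have dN : ∀ v, v ∉ P → d v = c v := fun v k => if_neg k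
  have d2 : ∀ v, d v < D ↔ v ∉ W \ P := fun v => by
    by_cases k : v ∈ P
    · obtain ⟨L, l1, rfl, -⟩ := mP v k
      rw [dP L l1, c2]
      exact iff_of_true ((hp L (sub l1)).2.2.2.2 l1).2.2.2.1 fun z => (mem_sdiff.1 z).2 k
    · rw [dN v k, c2, mem_sdiff]
      exact ⟨fun a b => a b.1, fun a b => a ⟨b, k⟩⟩
  have pv : ∀ u ∈ P, ∀ v, G.Adj u v → d u ≠ d v := fun u hu v ad => by
    obtain ⟨L, l1, rfl, l3, -⟩ := mP u hu
    obtain ⟨-, -, -, b1, -, b2⟩ := (hp L (sub l1)).2.2.2.2 l1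
    have nv : v ∉ P := fun z => ad.ne (aP L (sub l1) _ (mem_inter.1 l3).1 v z
      (fP L (sub l1) _ l3 v z ad)).2.symm
    rw [dP L l1, dN v nv]
    by_cases k : v ∈ W
    · have := (c2 _).2 b1
      have := mt (c2 v).1 (not_not.2 k)
      omega
    · exact (b2 v ad k).symm
  have d1 : PCol G D d := fun u v ad lt => by
    by_cases k : u ∈ P
    · exact pv u k v ad
    by_cases l : v ∈ P
    · exact (pv v l u ad.symm).symm
    rw [dN u k] at lt ⊢
    rw [dN v l]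
    exact c1 u v ad lt
  have nP : ∀ K ∈ T, t K ∉ P ∧ s K ∉ P := fun K k => by
    obtain ⟨b1, b2, -, -, b3⟩ := hp K k
    constructor <;> intro z
    · obtain ⟨e1, e2⟩ := aP K k _ (mem_inter.1 b1).1 _ z (mem_inter.1 b1).1
      exact (b3 e1).2.1 e2.symm
    · obtain ⟨e1, e2⟩ := aP K k _ (mem_inter.1 b2).1 _ z (mem_inter.1 b2).1
      exact (b3 e1).2.2.1 e2.symm
  have cnt : ∀ v ∈ W \ P, ((W \ P).filter fun u => clOf T u = clOf T v).card +
      (clOf T v ∩ P).card ≤ D := fun v hv => by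
    obtain ⟨k1, -⟩ := cw v (mem_sdiff.1 hv).1
    rw [← (hT _ k1).2, ← card_sdiff_add_card_inter (clOf T v) P]
    refine Nat.add_le_add_right (card_le_card fun u hu => ?_) _
    obtain ⟨u1, u2⟩ := mem_filter.1 hu
    exact mem_sdiff.2 ⟨u2 ▸ (cw u (mem_sdiff.1 u1).1).2, (mem_sdiff.1 u1).2⟩
  have gen : ∀ v ∈ W \ P, ((W \ P).filter fun u => G.Adj v u ∧ clOf T u ≠ clOf T v).card +
      ((nb G v \ (W \ P)).image d).card ≤ (clOf T v ∩ P).card + 2 := fun v hv => by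
    obtain ⟨k1, k2⟩ := cw v (mem_sdiff.1 hv).1
    have b1 := o2 _ k1 v k2
    have b2 := card_image_le (s := nb G v \ (W \ P)) (f := d)
    have b3 := card_union_le (nb G v \ clOf T v) (clOf T v ∩ P)
    have b4 : (((W \ P).filter fun u => G.Adj v u ∧ clOf T u ≠ clOf T v) ∪
        (nb G v \ (W \ P))).card ≤ (nb G v \ clOf T v ∪ clOf T v ∩ P).card :=
      card_le_card fun u hu => by
        rcases mem_union.1 hu with e | e
        · obtain ⟨-, e1, e2⟩ := mem_filter.1 e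
          exact mem_union_left _ (mem_sdiff.2 ⟨mem_nb.2 e1, fun z => e2 (ce _ k1 u z)⟩)
        · obtain ⟨e1, e2⟩ := mem_sdiff.1 e
          by_cases z : u ∈ clOf T v
          · exact mem_union_right _ (mem_inter.2 ⟨z, not_not.1 fun w =>
              e2 (mem_sdiff.2 ⟨mW _ k1 u z, w⟩)⟩)
          · exact mem_union_left _ (mem_sdiff.2 ⟨e1, z⟩)
    rw [card_union_of_disjoint (disjoint_left.2 fun u u1 u2 =>
      (mem_sdiff.1 u2).2 (mem_filter.1 u1).1)] at b4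
    omega
  refine fin_front h d1 (W \ P) d2 (clOf T) t s (fun v hv => ?_) (fun v hv => ?_)
    (fun v hv => (hp _ (cw v (mem_sdiff.1 hv).1).1).2.2.1) (fun u hu v hv b1 b2 ad => ?_)
    (fun v hv e => ?_) (fun v hv e => ?_) fun v hv _ _ => ?_
  · obtain ⟨k1, -⟩ := cw v (mem_sdiff.1 hv).1
    have := (mem_inter.1 (hp _ k1).1).1
    exact ⟨mem_sdiff.2 ⟨mW _ k1 _ this, (nP _ k1).1⟩, ce _ k1 _ this⟩
  · obtain ⟨k1, -⟩ := cw v (mem_sdiff.1 hv).1
    have := (mem_inter.1 (hp _ k1).2.1).1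
    exact ⟨mem_sdiff.2 ⟨mW _ k1 _ this, (nP _ k1).2⟩, ce _ k1 _ this⟩
  · obtain ⟨k1, -⟩ := cw u (mem_sdiff.1 hu).1
    obtain ⟨l1, -⟩ := cw v (mem_sdiff.1 hv).1
    by_contra z
    refine ind _ k1 _ l1 z u ?_ v ?_ ad
    · obtain ⟨m1, m2, -⟩ := hp _ k1
      rcases b1 with e | e
      exacts [by rwa [← e] at m1, by rwa [← e] at m2]
    · obtain ⟨m1, m2, -⟩ := hp _ l1
      rcases b2 with e | e
      exacts [by rwa [← e] at m1, by rwa [← e] at m2]
  · obtain ⟨k1, k2⟩ := cw v (mem_sdiff.1 hv).1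
    have b0 := cnt v hv
    obtain ⟨b1, -, -, b2, b3⟩ := hp _ k1
    rw [← e] at b1 b2 b3
    have b4 : ∀ u ∈ nb G v \ (W \ P), u ∉ W ∨ (clOf T v ∈ TB ∧ u = q (clOf T v)) := fun u hu => by
      obtain ⟨u1, u2⟩ := mem_sdiff.1 hu
      by_cases z : u ∈ W
      · have uP : u ∈ P := not_not.1 fun w => u2 (mem_sdiff.2 ⟨z, w⟩)
        exact .inr (aP _ k1 v k2 u uP (fP _ k1 v b1 u uP (mem_nb.1 u1)))
      · exact .inl z
    by_cases z : clOf T v ∈ TB
    · obtain ⟨e1, -, -, e2, e3, -⟩ := b3 z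
      have : 0 < (clOf T v ∩ P).card :=
        card_pos.2 ⟨_, mem_inter.2 ⟨(mem_inter.1 e1).1, mem_image_of_mem _ z⟩⟩
      have : ((nb G v \ (W \ P)).image d).card ≤ ({c (a (clOf T v))} : Finset ℕ).card :=
        card_le_card fun x hx => by
          obtain ⟨u, u1, rfl⟩ := mem_image.1 hx
          rcases b4 u u1 with w | ⟨-, rfl⟩
          · rw [dN u fun w' => w (PW u w'), e3 u (mem_nb.1 (mem_sdiff.1 u1).1) w]
            exact mem_singleton_self _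
          · rw [dP _ z]; exact mem_singleton_self _
      rw [card_singleton] at this
      omega
    · have : nb G v \ (W \ P) = ∅ := eq_empty_of_forall_notMem fun u hu => by
        rcases b4 u hu with w | w
        exacts [w (b2 z (mem_sdiff.1 hu).1), z w.1]
      rw [this, image_empty, card_empty]
      omega
  · obtain ⟨k1, k2⟩ := cw v (mem_sdiff.1 hv).1
    have b0 := cnt v hv
    have b1 := gen v hv
    have b2 : v ∈ clOf T v ∩ Φ := by
      have := (hp _ k1).2.1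
      rwa [← e] at this
    obtain ⟨w, w1, w2, w3⟩ := un _ k1 v b2
    have : 0 < ((W \ P).filter fun u => G.Adj v u ∧ clOf T u ≠ clOf T v).card :=
      card_pos.2 ⟨w, mem_filter.2 ⟨mem_sdiff.2 ⟨w1, fun z => w2 (fP _ k1 v b2 w z w3)⟩, w3,
        fun z => w2 (z ▸ (cw w w1).2)⟩⟩
    omega
  · have b0 := cnt v hv
    have b1 := gen v hv
    omega

end Pool.Agent.Lib.MP_12eaff_co.Frz.BK
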