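import Mathlib
import Pool.Agent.Lib.MP_12eaff_co.Frz.Sel5b
import Pool.Agent.Lib.MP_12eaff_co.Frz.Cap

set_option autoImplicit false

namespace Pool.Agent.Lib.MP_12eaff_co.Frz.BK

open Finset Pool.Agent.Lib.MP_12eaff_co.Frz.Ker
open scoped Classical

variable {V : Type} [Fintype V] {G : SimpleGraph V} {D : ℕ}

/-- No family of `D`-cliques has four selected members per clique, each with a cross neighbour
in the family that is not selected. -/
theorem stat4 (h : MC G D) (hD : 8 ≤ D) {T : Finset (Finset V)} (ne : T.Nonempty)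
    (hT : ∀ K ∈ T, IsClq G K ∧ K.card = D) (A : Finset V) (four : ∀ K ∈ T, 4 ≤ (K ∩ A).card)
    (un : ∀ K ∈ T, ∀ a ∈ K ∩ A, ∃ w ∈ T.biUnion id, w ∉ K ∧ w ∉ A ∧ G.Adj a w) : False := by
  set W := T.biUnion id with hW
  have mW : ∀ K ∈ T, ∀ v ∈ K, v ∈ W := fun K k v l => mem_biUnion.2 ⟨K, k, l⟩
  have ce : ∀ K ∈ T, ∀ v ∈ K, clOf T v = K := fun K k v l => clOf_eq h hD hT k l
  have cw : ∀ v ∈ W, clOf T v ∈ T ∧ v ∈ clOf T v := fun v l => by
    obtain ⟨K, k1, k2⟩ := mem_biUnion.1 l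
    rw [ce K k1 v k2]; exact ⟨k1, k2⟩
  let X : V → V → Prop := fun a b => a ∈ W ∩ A ∧ b ∈ W ∩ A ∧ G.Adj a b ∧ clOf T a ≠ clOf T b
  have sy : ∀ a b, X a b → X b a := fun a b k => ⟨k.2.1, k.1, k.2.2.1.symm, k.2.2.2.symm⟩
  have two : ∀ a b, X a b → ∃ w ∈ W, w ∉ A ∧ nb G a \ clOf T a = {b, w} := fun a b k => by
    obtain ⟨k1, k2, k3, k4⟩ := k
    obtain ⟨a1, a2⟩ := cw a (mem_inter.1 k1).1
    obtain ⟨w, w1, w2, w3, w4⟩ := un _ a1 a (mem_inter.2 ⟨a2, (mem_inter.1 k1).2⟩)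
    have := out2 h (hT _ a1).1 (hT _ a1).2 a2
    refine ⟨w, w1, w3, (eq_of_subset_of_card_le ?_ ?_).symm⟩
    · exact insert_subset (mem_sdiff.2 ⟨mem_nb.2 k3, fun z => k4 (ce _ a1 b z).symm⟩)
        (singleton_subset_iff.2 (mem_sdiff.2 ⟨mem_nb.2 w4, w2⟩))
    · rwa [card_pair fun z : b = w => w3 (z ▸ (mem_inter.1 k2).2)]
  have uq : ∀ a b c, X a b → X a c → b = c := fun a b c k l => by
    obtain ⟨w, -, w2, e⟩ := two a b k
    have : c ∈ nb G a \ clOf T a := mem_sdiff.2 ⟨mem_nb.2 l.2.2.1, fun z =>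
      l.2.2.2 (ce _ (cw a (mem_inter.1 k.1).1).1 c z).symm⟩
    rw [e, mem_insert, mem_singleton] at this
    exact (this.resolve_right fun z => w2 (z ▸ (mem_inter.1 l.2.1).2)).symm
  let bl : V → Finset V := fun a => insert a (univ.filter (X a))
  have be : ∀ a b, X a b → bl a = {a, b} := fun a b k => by
    ext u
    simp only [bl, mem_insert, mem_filter, mem_univ, true_and, mem_singleton]
    exact or_congr_right ⟨fun z => uq a _ _ z k, fun z => z ▸ k⟩
  set A0 := univ.filter fun a => ∃ b, X a b with h0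
  have m0 : ∀ a b, X a b → a ∈ A0 := fun a b k => mem_filter.2 ⟨mem_univ _, b, k⟩
  obtain ⟨C, C0, C1, -, C3⟩ := cap_hall A0 bl (clOf T) (k := 2) two_pos fun a ha => by
    obtain ⟨b, k⟩ := (mem_filter.1 ha).2
    rw [← card_pair k.2.2.1.ne]
    have e : bl b = bl a := by rw [be a b k, be b a (sy a b k), pair_comm]
    exact card_le_card (insert_subset (by simpa using ha)
      (singleton_subset_iff.2 (by simpa using ⟨m0 b a (sy a b k), e⟩)))
  refine stat3 h hD ne hT (A \ C) (fun K k L l e a ha b hb ad => ?_) (fun K k a ha => ?_)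
    fun K k => ?_
  · obtain ⟨a1, a2⟩ := mem_inter.1 ha
    obtain ⟨b1, b2⟩ := mem_inter.1 hb
    have x : X a b := ⟨mem_inter.2 ⟨mW K k a a1, (mem_sdiff.1 a2).1⟩,
      mem_inter.2 ⟨mW L l b b1, (mem_sdiff.1 b2).1⟩, ad, by rwa [ce K k a a1, ce L l b b1]⟩
    obtain ⟨c, c1, c2⟩ := C1 a (m0 a b x)
    have : c ∈ bl a := c2 ▸ mem_insert_self _ _
    rw [be a b x, mem_insert, mem_singleton] at this
    rcases this with rfl | rfl
    exacts [(mem_sdiff.1 a2).2 c1, (mem_sdiff.1 b2).2 c1]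
  · obtain ⟨w, w1, w2, -, w3⟩ := un K k a
      (mem_inter.2 ⟨(mem_inter.1 ha).1, (mem_sdiff.1 (mem_inter.1 ha).2).1⟩)
    exact ⟨w, w1, w2, w3⟩
  · have b1 := C3 K
    have b2 := four K k
    have e : ∀ S ⊆ A0, (S.filter fun w => clOf T w = K) = K ∩ S := fun S hS => by
      ext u
      rw [mem_filter, mem_inter]
      refine ⟨fun z => ⟨?_, z.1⟩, fun z => ⟨z.2, ce K k u z.1⟩⟩
      obtain ⟨b, x⟩ := (mem_filter.1 (hS z.1)).2
      exact z.2 ▸ (cw u (mem_inter.1 x.1).1).2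
    have e1 := e C C0
    have e2 := e A0 Subset.rfl
    have b3 : 2 * (K ∩ C).card < (K ∩ A0).card + 2 := by
      rw [← e1, ← e2]; convert b1
    have b4 : (K ∩ A0).card ≤ (K ∩ A).card := card_le_card (inter_subset_inter Subset.rfl
      fun u hu => by
        obtain ⟨b, x⟩ := (mem_filter.1 hu).2
        exact (mem_inter.1 x.1).2)
    have b5 : (K ∩ A).card ≤ (K ∩ (A \ C)).card + (K ∩ C).card :=
      le_trans (card_le_card fun u hu => by
        by_cases z : u ∈ C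
        · exact mem_union_right _ (mem_inter.2 ⟨(mem_inter.1 hu).1, z⟩)
        · exact mem_union_left _
            (mem_inter.2 ⟨(mem_inter.1 hu).1, mem_sdiff.2 ⟨(mem_inter.1 hu).2, z⟩⟩))
        (card_union_le _ _)
    by_cases z : (K ∩ A0).card ≤ 1
    · exact .inr (by omega)
    obtain ⟨t, t1, t2⟩ := exists_mem_notMem_of_card_lt_card
      (show (K ∩ C).card < (K ∩ A0).card by omega)
    obtain ⟨t3, t4⟩ := mem_inter.1 t1
    obtain ⟨b, x⟩ := (mem_filter.1 t4).2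
    obtain ⟨s, s1, s2⟩ := exists_mem_ne (show 1 < (K ∩ (A \ C)).card by omega) t
    refine .inl ⟨t, mem_inter.2 ⟨t3, mem_sdiff.2 ⟨(mem_inter.1 x.1).2,
      fun y => t2 (mem_inter.2 ⟨t3, y⟩)⟩⟩, s, s1, s2.symm, fun u hu => ?_⟩
    obtain ⟨w, w1, -, w2⟩ := two t b x
    by_cases y : u ∈ K
    · exact mW K k u y
    have : u ∈ nb G t \ clOf T t := mem_sdiff.2 ⟨hu, by rwa [ce K k t t3]⟩
    rw [w2, mem_insert, mem_singleton] at this
    rcases this with rfl | rfl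
    exacts [(mem_inter.1 x.2.1).1, w1]

end Pool.Agent.Lib.MP_12eaff_co.Frz.BK
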