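import Mathlib
import Pool.Agent.Lib.MP_12eaff_co.Frz.Sel5
import Pool.Agent.Lib.MP_12eaff_co.Frz.Core
import Pool.Agent.Lib.MP_12eaff_co.Frz.Dich2

set_option autoImplicit false

namespace Pool.Agent.Lib.MP_12eaff_co.Frz.BK

open Finset
open scoped Classical

variable {V : Type} [Fintype V] {G : SimpleGraph V} {D : ℕ}

/-- Three half-edges per clique with their partners. -/
structure HE (G : SimpleGraph V) (D : ℕ) (T : Finset (Finset V)) (H : Finset V) (pt : V → V) :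
    Prop where
  ne : T.Nonempty
  hT : ∀ K ∈ T, IsClq G K ∧ K.card = D
  h3 : ∀ K ∈ T, (K ∩ H).card = 3
  hH : H ⊆ T.biUnion id
  adj : ∀ u ∈ H, pt u ∉ T.biUnion id ∨ pt u ∈ H → G.Adj u (pt u) ∧ pt u ∉ clOf T u
  inv : ∀ u ∈ H, pt u ∈ H → pt (pt u) = u

/-- A closed set of cliques with too many outside partners, all of one colour. -/
def BAD (T : Finset (Finset V)) (H : Finset V) (pt : V → V) (c : V → ℕ) (S : Finset (Finset V))
    (γ : ℕ) : Prop :=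
  S ⊆ T ∧ S.Nonempty ∧ (∀ K ∈ S, ∀ u ∈ K ∩ H,
    (pt u ∈ H ∧ clOf T (pt u) ∈ S) ∨ (pt u ∉ T.biUnion id ∧ c (pt u) = γ)) ∧
    S.card < (H.filter fun u => clOf T u ∈ S ∧ pt u ∉ T.biUnion id).card

/-- The certificate that the core asks for. -/
def Cert (T : Finset (Finset V)) (H : Finset V) (pt : V → V) (c : V → ℕ) : Prop :=
  ∃ A ⊆ H, ∃ (m : V → V) (β : V → ℕ), (∀ K ∈ T, ∃ u ∈ A, u ∈ K) ∧
    (∀ K ∈ T, ∀ u ∈ A, u ∈ K → m u ∈ A ∧ m u ∈ K ∧ m (m u) = u ∧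
      ∀ v ∈ A, v ∈ K → v = u ∨ v = m u) ∧ (∀ u ∈ A, β u ≠ β (m u)) ∧
    (∀ u ∈ A, pt u ∈ A → β u = β (m (pt u))) ∧ ∀ u ∈ A, pt u ∉ T.biUnion id → c (pt u) = β u

/-- Three selected members per clique, each with a cross neighbour that is not selected, and four
independent members per clique give a contradiction once the certificate exists. -/
theorem stat3u (h : MC G D) (hD : 8 ≤ D) {T : Finset (Finset V)} (ne : T.Nonempty)
    (hT : ∀ K ∈ T, IsClq G K ∧ K.card = D) (A F : Finset V) (three : ∀ K ∈ T, 3 ≤ (K ∩ A).card)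
    (un : ∀ K ∈ T, ∀ a ∈ K ∩ A, a ∉ F ∧ ∃ w ∈ T.biUnion id, w ∉ K ∧ w ∉ A ∧ G.Adj a w)
    (ind : ∀ K ∈ T, ∀ L ∈ T, K ≠ L → ∀ a ∈ K ∩ F, ∀ b ∈ L ∩ F, ¬ G.Adj a b)
    (f4 : ∀ K ∈ T, 4 ≤ (K ∩ F).card)
    (cert : ∀ H pt, HE G D T H pt → ∃ c, PCol G D c ∧ (∀ v, c v < D ↔ v ∉ T.biUnion id) ∧
      Cert T H pt c) : False := by
  set W := T.biUnion id with hW
  have mW : ∀ K ∈ T, ∀ v ∈ K, v ∈ W := fun K k v l => mem_biUnion.2 ⟨K, k, l⟩
  have ce : ∀ K ∈ T, ∀ v ∈ K, clOf T v = K := fun K k v l => clOf_eq h hD hT k l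
  have cw : ∀ v ∈ W, clOf T v ∈ T ∧ v ∈ clOf T v := fun v l => by
    obtain ⟨K, k1, k2⟩ := mem_biUnion.1 l
    rw [ce K k1 v k2]; exact ⟨k1, k2⟩
  choose! s s1 s2 using fun K (k : K ∈ T) => exists_subset_card_eq (three K k)
  set H := T.biUnion s with hH
  have mH : ∀ u ∈ H, u ∈ W ∧ u ∈ A ∧ u ∈ s (clOf T u) := fun u hu => by
    obtain ⟨K, k1, k2⟩ := mem_biUnion.1 hu
    obtain ⟨a, b⟩ := mem_inter.1 (s1 K k1 k2)
    exact ⟨mW K k1 u a, b, by rwa [ce K k1 u a]⟩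
  have ex : ∀ u, ∃ p, u ∈ H → (p ∉ W ∨ p ∈ H → G.Adj u p ∧ p ∉ clOf T u) ∧
      ∀ v, G.Adj u v → v ∉ clOf T u → v = p ∨ (v ∈ W ∧ v ∉ A) := fun u => by
    by_cases hu : u ∈ H
    swap
    · exact ⟨u, fun z => absurd z hu⟩
    obtain ⟨u1, u2, -⟩ := mH u hu
    obtain ⟨k1, k2⟩ := cw u u1
    obtain ⟨-, w, w1, w2, w3, w4⟩ := un _ k1 u (mem_inter.2 ⟨k2, u2⟩)
    have a := out2 h (hT _ k1).1 (hT _ k1).2 k2
    have b := card_erase_add_one
      (show w ∈ nb G u \ clOf T u from mem_sdiff.2 ⟨mem_nb.2 w4, w2⟩)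
    have key : ∀ p, (∀ v ∈ (nb G u \ clOf T u).erase w, v = p) → ∀ v, G.Adj u v →
        v ∉ clOf T u → v = p ∨ (v ∈ W ∧ v ∉ A) := fun p hp v v1 v2 => by
      by_cases e : v = w
      · exact .inr (e ▸ ⟨w1, w3⟩)
      · exact .inl (hp v (mem_erase.2 ⟨e, mem_sdiff.2 ⟨mem_nb.2 v1, v2⟩⟩))
    rcases ((nb G u \ clOf T u).erase w).eq_empty_or_nonempty with e | ⟨p, hp⟩
    · exact ⟨w, fun _ => ⟨fun _ => ⟨w4, w2⟩, key w (by simp [e])⟩⟩
    · obtain ⟨p1, p2⟩ := mem_sdiff.1 (mem_of_mem_erase hp)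
      exact ⟨p, fun _ => ⟨fun _ => ⟨mem_nb.1 p1, p2⟩,
        key p fun v hv => card_le_one.1 (by omega) v hv p hp⟩⟩
  choose pt hp using ex
  have inv : ∀ u ∈ H, pt u ∈ H → pt (pt u) = u := fun u hu k => by
    obtain ⟨a, b⟩ := (hp u hu).1 (.inr k)
    refine (((hp _ k).2 u a.symm fun z => b ?_).resolve_right fun z => z.2 (mH u hu).2.1).symm
    rw [ce _ (cw _ (mH _ k).1).1 u z]
    exact (cw _ (mH _ k).1).2
  obtain ⟨c, c1, c2, B, BH, m, β, b1, b2, b3, b4, b5⟩ := cert H pt ⟨ne, hT, fun K k => by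
    rw [← s2 K k]
    congr 1
    ext u
    rw [mem_inter]
    exact ⟨fun z => ce K k u z.1 ▸ (mH u z.2).2.2,
      fun z => ⟨(mem_inter.1 (s1 K k z)).1, mem_biUnion.2 ⟨K, k, z⟩⟩⟩,
    fun u hu => (mH u hu).1, fun u hu => (hp u hu).1, inv⟩
  refine core h hD hT ind f4 c1 c2 (fun v hv => ⟨_, cw v hv⟩)
    (fun K k v hv => mW K k v (mem_inter.1 hv).1) m pt β (fun u hu => ?_) b1 b2 b3
    (fun K k u hu uK v a b => ?_) (fun u hu k => ⟨inv u (BH hu) (BH k), b4 u hu k⟩) b5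
  · obtain ⟨u1, u2, -⟩ := mH u (BH hu)
    exact ⟨u1, (un _ (cw u u1).1 u (mem_inter.2 ⟨(cw u u1).2, u2⟩)).1⟩
  · exact ((hp u (BH hu)).2 v a (by rwa [ce K k u uK])).imp id fun z =>
      .inl ⟨z.1, fun y => z.2 (mH v (BH y)).2.1⟩

/-- All but four members of every `D`-clique without cross edges, from the certificate. -/
theorem sel4_of (h : MC G D) (hD : 9 ≤ D)
    (cert : ∀ T H pt, HE G D T H pt → ∃ c, PCol G D c ∧ (∀ v, c v < D ↔ v ∉ T.biUnion id) ∧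
      Cert T H pt c) : ∃ F : Finset V,
    (∀ K, IsClq G K → K.card = D → D - 4 ≤ (K ∩ F).card) ∧
    ∀ K K', IsClq G K → K.card = D → IsClq G K' → K'.card = D → K ≠ K' →
      ∀ a ∈ K ∩ F, ∀ b ∈ K' ∩ F, ¬ G.Adj a b := by
  have h8 : 8 ≤ D := by omega
  obtain ⟨F0, f1, f2⟩ := sel5 h h8
  set S := (univ : Finset (Finset V)).filter fun K => IsClq G K ∧ K.card = D with hS
  have hT : ∀ K ∈ S, IsClq G K ∧ K.card = D := fun K k => (mem_filter.1 k).2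
  have mS : ∀ K, IsClq G K → K.card = D → K ∈ S := fun K a b => mem_filter.2 ⟨mem_univ _, a, b⟩
  set W := S.biUnion id with hW
  have mW : ∀ K ∈ S, ∀ v ∈ K, v ∈ W := fun K k v l => mem_biUnion.2 ⟨K, k, l⟩
  have ce : ∀ K ∈ S, ∀ v ∈ K, clOf S v = K := fun K k v l => clOf_eq h h8 hT k l
  have cw : ∀ v ∈ W, clOf S v ∈ S ∧ v ∈ clOf S v := fun v l => by
    obtain ⟨K, k1, k2⟩ := mem_biUnion.1 l
    rw [ce K k1 v k2]; exact ⟨k1, k2⟩
  have zk : ∀ I, ∀ K ∈ S, (Dich.zc W (clOf S) I K).card + (K ∩ I).card = D := fun I K k => by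
    rw [← (hT K k).2, ← card_sdiff_add_card_inter K I]
    congr 2
    ext u
    rw [Dich.mem_zc, mem_sdiff]
    exact ⟨fun z => ⟨z.2.2 ▸ (cw u z.1).2, z.2.1⟩, fun z => ⟨mW K k u z.1, z.2, ce K k u z.1⟩⟩
  have z0 : ∀ I K, K ∉ S → (Dich.zc W (clOf S) I K).card = 0 := fun I K k =>
    card_eq_zero.2 (eq_empty_of_forall_notMem fun u hu =>
      k ((Dich.mem_zc.1 hu).2.2 ▸ (cw u (Dich.mem_zc.1 hu).1).1))
  have id : ∀ J : Finset V, (∀ u ∈ J, ∀ v ∈ J, ¬ (G.Adj u v ∧ clOf S u ≠ clOf S v)) →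
      ∀ K ∈ S, ∀ L ∈ S, K ≠ L → ∀ a ∈ K ∩ J, ∀ b ∈ L ∩ J, ¬ G.Adj a b :=
    fun J j K k L l e a ha b hb ad => j a (mem_inter.1 ha).2 b (mem_inter.1 hb).2
      ⟨ad, by rwa [ce K k a (mem_inter.1 ha).1, ce L l b (mem_inter.1 hb).1]⟩
  rcases Dich.dich2 W (clOf S) (fun u v => G.Adj u v ∧ clOf S u ≠ clOf S v) (fun _ => 3)
    (fun _ => 5) (fun u v k => ⟨k.1.symm, k.2.symm⟩) (fun v k => k.2 rfl) (fun v hv => by
      obtain ⟨k1, k2⟩ := cw v hv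
      refine le_trans (card_le_card fun u hu => ?_) (out2 h (hT _ k1).1 (hT _ k1).2 k2)
      have := (by simpa using hu : u ∈ W ∧ G.Adj v u ∧ clOf S v ≠ clOf S u)
      exact mem_sdiff.2 ⟨mem_nb.2 this.2.1, fun z => this.2.2 (ce _ k1 u z).symm⟩)
    _ (W ∩ F0) inter_subset_left (fun u hu v hv k => by
      obtain ⟨u1, u2⟩ := mem_inter.1 hu
      obtain ⟨v1, v2⟩ := mem_inter.1 hv
      exact f2 _ _ (hT _ (cw u u1).1).1 (hT _ (cw u u1).1).2 (hT _ (cw v v1).1).1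
        (hT _ (cw v v1).1).2 k.2 u (mem_inter.2 ⟨(cw u u1).2, u2⟩) v
        (mem_inter.2 ⟨(cw v v1).2, v2⟩) k.1)
    (fun K => by
      by_cases k : K ∈ S
      · have a := zk (W ∩ F0) K k
        have b := f1 K (hT K k).1 (hT K k).2
        have : (K ∩ F0).card ≤ (K ∩ (W ∩ F0)).card := card_le_card fun u hu => mem_inter.2
          ⟨(mem_inter.1 hu).1, mem_inter.2 ⟨mW K k u (mem_inter.1 hu).1, (mem_inter.1 hu).2⟩⟩
        omega
      · rw [z0 _ K k]; omega) le_rfl with ⟨J, -, j2, j3⟩ | ⟨J, A, K0, U, b⟩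
  · refine ⟨J, fun K a b => ?_, fun K L a b a' b' => id J j2 K (mS K a b) L (mS L a' b')⟩
    have := zk J K (mS K a b)
    have := j3 K
    omega
  have TS : ∀ K ∈ insert K0 U, K ∈ S := fun K k => by_contra fun z => by
    have := z0 J K z
    rcases mem_insert.1 k with rfl | k
    · have := b.big; omega
    · have := b.low K k; omega
  refine (stat3u h h8 (insert_nonempty K0 U) (fun K k => hT K (TS K k)) A J (fun K k => ?_)
    (fun K k a ha => ?_) (fun K k L l => id J b.ind K (TS K k) L (TS L l)) (fun K k => ?_)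
    (cert _)).elim
  · refine (b.sel.1 K (by simpa using k)).1.trans (card_le_card fun u hu => ?_)
    have u1 := (by simpa using hu : u ∈ A ∧ clOf S u = K)
    exact mem_inter.2 ⟨u1.2 ▸ (cw u (b.reg u u1.1).1).2, u1.1⟩
  · obtain ⟨a1, a2⟩ := mem_inter.1 ha
    obtain ⟨w, w1, w2, w3, w4⟩ := b.ok a a2
    exact ⟨(b.reg a a2).2.1, w, mem_biUnion.2 ⟨clOf S w, by simpa using w4, (cw w w1).2⟩, fun z =>
      w2.2 ((ce K (TS K k) a a1).trans (ce K (TS K k) w z).symm), w3, w2.1⟩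
  · have := zk J K (TS K k)
    have := b.up K
    omega

end Pool.Agent.Lib.MP_12eaff_co.Frz.BK
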