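import Mathlib
import Pool.Agent.Lib.MP_12eaff_co.Frz.Req4
import Pool.Agent.Lib.MP_12eaff_co.Frz.Sel4a

set_option autoImplicit false

namespace Pool.Agent.Lib.MP_12eaff_co.Frz.BK

open Finset
open scoped Classical

variable {V : Type} [Fintype V] {G : SimpleGraph V} {D : ℕ}

/-- Colouring off the cliques of `T` in which the outside partners of each set `O i` do not all
have the same colour. -/
theorem col_sets {ι : Type} (h : MC G D) (hD : 8 ≤ D) {T : Finset (Finset V)} (ne : T.Nonempty)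
    (hT : ∀ K ∈ T, IsClq G K ∧ K.card = D) (I : Finset ι) (O : ι → Finset V) (pt : V → V)
    (hO : ∀ i ∈ I, ∀ u ∈ O i, u ∈ T.biUnion id ∧ pt u ∉ T.biUnion id ∧ G.Adj u (pt u))
    (dj : ∀ i ∈ I, ∀ j ∈ I, i ≠ j → Disjoint (O i) (O j))
    (ty : ∀ i ∈ I, 3 ≤ ((O i).image pt).card ∨ ∃ s t, s ≠ t ∧
      2 ≤ ((O i).filter fun u => pt u = s).card ∧ 2 ≤ ((O i).filter fun u => pt u = t).card) :
    ∃ c, PCol G D c ∧ (∀ v, c v < D ↔ v ∉ T.biUnion id) ∧
      ∀ i ∈ I, ∃ u ∈ O i, ∃ v ∈ O i, c (pt u) ≠ c (pt v) := by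
  let IU : V → Prop := fun v => ∃ K, IsClq G K ∧ K.card = D ∧ v ∈ K
  set W := T.biUnion id with hW
  have mW : ∀ K ∈ T, ∀ v ∈ K, v ∈ W := fun K k v l => mem_biUnion.2 ⟨K, k, l⟩
  obtain ⟨K0, k0⟩ := ne
  obtain ⟨x0, x1, y0, y1, xy⟩ := one_lt_card.1 (show 1 < K0.card by have := (hT K0 k0).2; omega)
  have pos : ∀ i s, s ∈ (O i).image pt ↔ 1 ≤ ((O i).filter fun u => pt u = s).card := fun i s => by
    rw [Nat.succ_le_iff, card_pos, filter_nonempty_iff, mem_image]
  have ex : ∀ i, ∃ x y : V, ∃ B : Finset V, i ∈ I → x ≠ y ∧ x ∈ (O i).image pt ∧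
      y ∈ (O i).image pt ∧ B ⊆ (O i).image pt ∧ x ∉ B ∧ y ∉ B ∧ B.card ≤ 3 ∧
      (B = ∅ → 2 ≤ ((O i).filter fun u => pt u = x).card ∧
        2 ≤ ((O i).filter fun u => pt u = y).card) ∧ (B ≠ ∅ → (IU x ↔ IU y)) := fun i => by
    by_cases k : i ∈ I
    swap
    · exact ⟨x0, x0, ∅, fun z => absurd z k⟩
    rcases ty i k with e | ⟨s, t, e1, e2, e3⟩
    · obtain ⟨a, b, d, m1, m2, m3, n1, n2, n3⟩ := two_lt_card_iff.1 (show 2 < _ from e)
      have w : ∀ a b d, a ∈ (O i).image pt → b ∈ (O i).image pt → d ∈ (O i).image pt →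
          a ≠ b → a ≠ d → b ≠ d → (IU a ↔ IU b) → ∃ x y : V, ∃ B : Finset V, i ∈ I → x ≠ y ∧
          x ∈ (O i).image pt ∧
          y ∈ (O i).image pt ∧ B ⊆ (O i).image pt ∧ x ∉ B ∧ y ∉ B ∧ B.card ≤ 3 ∧
          (B = ∅ → 2 ≤ ((O i).filter fun u => pt u = x).card ∧
          2 ≤ ((O i).filter fun u => pt u = y).card) ∧ (B ≠ ∅ → (IU x ↔ IU y)) :=
        fun a b d m1 m2 m3 n1 n2 n3 q => ⟨a, b, {d}, fun _ => ⟨n1, m1, m2,
          singleton_subset_iff.2 m3, by simpa using n2, by simpa using n3, by simp,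
          fun z => absurd z (singleton_ne_empty _), fun _ => q⟩⟩
      by_cases q1 : IU a ↔ IU b
      · exact w a b d m1 m2 m3 n1 n2 n3 q1
      by_cases q2 : IU a ↔ IU d
      · exact w a d b m1 m3 m2 n2 n1 n3.symm q2
      exact w b d a m2 m3 m1 n3 n1.symm n2.symm (by
        by_cases IU a <;> by_cases IU b <;> by_cases IU d <;> simp_all only [not_true_eq_false,
          iff_self, iff_true, iff_false, true_iff, false_iff, not_false_eq_true, not_not])
    · exact ⟨s, t, ∅, fun _ => ⟨e1, (pos i s).2 (by omega), (pos i t).2 (by omega),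
        empty_subset _, by simp, by simp, by simp, fun _ => ⟨e2, e3⟩, fun z => absurd rfl z⟩⟩
  choose x y B hx using ex
  have oW : ∀ i ∈ I, ∀ s ∈ (O i).image pt, s ∉ W := fun i k s l => by
    obtain ⟨u, u1, rfl⟩ := mem_image.1 l
    exact (hO i k u u1).2.1
  have tie : ∀ v, (Ed I x y v).card + (Cen I x B v).card +
      (Ed (I.filter fun i => B i = ∅) x y v).card ≤ (nb G v ∩ W).card := fun v => by
    have a1 : (Cen I x B v).card ≤ (I.filter fun i => v ∈ B i).card := card_image_le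
    have a2 : ∑ i ∈ I, ((O i).filter fun u => pt u = v).card ≤ (nb G v ∩ W).card := by
      rw [← card_biUnion fun i k j l e => disjoint_filter_filter (dj i k j l e)]
      refine card_le_card fun u hu => ?_
      obtain ⟨i, i1, i2⟩ := mem_biUnion.1 hu
      obtain ⟨i3, rfl⟩ := mem_filter.1 i2
      exact mem_inter.2 ⟨mem_nb.2 (hO i i1 u i3).2.2.symm, (hO i i1 u i3).1⟩
    refine le_trans ?_ a2
    refine le_trans (Nat.add_le_add_right (Nat.add_le_add_left a1 _) _) ?_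
    rw [Ed, Ed, filter_filter, card_filter, card_filter, card_filter, ← sum_add_distrib,
      ← sum_add_distrib]
    refine sum_le_sum fun i k => ?_
    obtain ⟨-, b1, b2, b3, b4, b5, -, b6, -⟩ := hx i k
    by_cases e : x i = v ∨ y i = v
    · have n : v ∉ B i := by
        rcases e with rfl | rfl
        exacts [b4, b5]
      rw [if_pos e, if_neg n]
      by_cases z : B i = ∅
      · rw [if_pos ⟨z, e⟩]
        rcases e with rfl | rfl
        exacts [(b6 z).1, (b6 z).2]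
      · rw [if_neg fun w => z w.1]
        rcases e with rfl | rfl
        exacts [(pos i _).1 b1, (pos i _).1 b2]
    · rw [if_neg e, if_neg fun w : _ ∧ _ => e w.2]
      split_ifs with z
      · exact (pos i _).1 (b3 z)
      · exact Nat.zero_le _
  obtain ⟨c, c1, c2, c3, c4⟩ := req4 (I := I) (x := x) (y := y) (B := B) h hD
    (filter_subset (fun i => B i = ∅) I) W (mW K0 k0 x0 x1)
    ((hT K0 k0).1 y0 y1 x0 x1 xy.symm) (fun i k => (hx i k).1)
    (fun i k => ⟨(hx i k).2.2.2.2.1, (hx i k).2.2.2.2.2.1, (hx i k).2.2.2.2.2.2.1⟩)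
    (fun v _ => tie v) (fun K q1 q2 _ s _ => by
      rcases (K.filter fun v => ∃ i ∈ I, i ∉ (I.filter fun i => B i = ∅) ∧
        ((x i = s ∧ y i = v) ∨ (x i = v ∧ y i = s))).eq_empty_or_nonempty with e | ⟨v, hv⟩
      · rw [e, card_empty]; omega
      obtain ⟨v1, L, l1, l0, l2⟩ := mem_filter.1 hv
      have iv : IU v := ⟨K, q1, q2, v1⟩
      obtain ⟨-, b1, b2, -, -, -, -, -, iu⟩ := hx L l1
      have iu := iu fun z => l0 (mem_filter.2 ⟨l1, z⟩)
      obtain ⟨⟨R, r1, r2, r3⟩, sW⟩ : IU s ∧ s ∉ W := by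
        rcases l2 with ⟨a, b⟩ | ⟨a, b⟩
        · exact ⟨a ▸ iu.2 (b ▸ iv), a ▸ oW L l1 _ b1⟩
        · exact ⟨b ▸ iu.1 (a ▸ iv), b ▸ oW L l1 _ b2⟩
      have a1 := out2 h r1 r2 r3
      have a2 : (nb G s ∩ W).card ≤ (nb G s \ R).card := card_le_card fun u hu => by
        obtain ⟨u1, u2⟩ := mem_inter.1 hu
        obtain ⟨M, m1, m2⟩ := mem_biUnion.1 u2
        exact mem_sdiff.2 ⟨u1, fun z => sW (mW M m1 s
          (dj8 h hD r1 r2 (hT M m1).1 (hT M m1).2 z m2 ▸ r3))⟩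
      have a3 := tie s
      have a4 : (K.filter fun v => ∃ i ∈ I, i ∉ (I.filter fun i => B i = ∅) ∧
          ((x i = s ∧ y i = v) ∨ (x i = v ∧ y i = s))).card ≤ (Ed I x y s).card := by
        refine le_trans (card_le_card fun u hu => ?_) (card_image_le (f := oth x y s))
        obtain ⟨-, M, m1, -, ⟨a, b⟩ | ⟨a, b⟩⟩ := mem_filter.1 hu
        · exact mem_image.2 ⟨M, mem_filter.2 ⟨m1, .inl a⟩, by rw [oth, if_pos a, b]⟩
        · exact mem_image.2 ⟨M, mem_filter.2 ⟨m1, .inr b⟩, by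
            rw [oth, if_neg fun z => (hx M m1).1 (z.trans b.symm), a]⟩
      omega)
  refine ⟨c, c1, c2, fun i k => ?_⟩
  obtain ⟨-, b1, b2, b3, -⟩ := hx i k
  have fin : ∀ s ∈ (O i).image pt, ∀ t ∈ (O i).image pt, c s ≠ c t →
      ∃ u ∈ O i, ∃ v ∈ O i, c (pt u) ≠ c (pt v) := fun s l t m e => by
    obtain ⟨u, u1, rfl⟩ := mem_image.1 l
    obtain ⟨v, v1, rfl⟩ := mem_image.1 m
    exact ⟨u, u1, v, v1, e⟩
  by_cases z : B i = ∅
  · exact fin _ b1 _ b2 (c4 i (mem_filter.2 ⟨k, z⟩) (oW i k _ b1) (oW i k _ b2))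
  obtain ⟨b, hb⟩ := nonempty_iff_ne_empty.2 z
  rcases c3 i k (oW i k _ b1) (oW i k _ b2) with e | e
  · exact fin _ b1 _ b2 e
  · exact fin _ (b3 hb) _ b1 (e b hb (oW i k _ (b3 hb)))

/-- Closed sets of cliques with more outside partners than cliques. -/
def Hvy (T : Finset (Finset V)) (H : Finset V) (pt : V → V) (S : Finset (Finset V)) : Prop :=
  S ⊆ T ∧ (∀ u ∈ H, clOf T u ∈ S → (pt u ∈ H ∧ clOf T (pt u) ∈ S) ∨ pt u ∉ T.biUnion id) ∧
    S.card < (H.filter fun u => clOf T u ∈ S ∧ pt u ∉ T.biUnion id).card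

theorem Hvy.split {T : Finset (Finset V)} {H : Finset V} {pt : V → V} (e : HE G D T H pt)
    {S R : Finset (Finset V)} (a : Hvy T H pt S) (b : Hvy T H pt R) :
    Hvy T H pt (S ∩ R) ∨ Hvy T H pt (S \ R) := by
  have k1 := card_sdiff_add_card_inter S R
  have k2 := card_filter_add_card_filter_not
    (s := H.filter fun u => clOf T u ∈ S ∧ pt u ∉ T.biUnion id) fun u => clOf T u ∈ R
  have k3 := a.2.2
  rw [filter_filter, filter_filter] at k2
  by_cases z : (S ∩ R).card < (H.filter fun u => clOf T u ∈ S ∩ R ∧ pt u ∉ T.biUnion id).card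
  · refine .inl ⟨inter_subset_left.trans a.1, fun u hu k => ?_, z⟩
    have := a.2.1 u hu (mem_inter.1 k).1
    have := b.2.1 u hu (mem_inter.1 k).2
    rw [mem_inter]
    tauto
  · refine .inr ⟨sdiff_subset.trans a.1, fun u hu k => ?_, ?_⟩
    · obtain ⟨l1, l2⟩ := mem_sdiff.1 k
      refine (a.2.1 u hu l1).imp_left fun w => ⟨w.1, mem_sdiff.2 ⟨w.2, fun q => ?_⟩⟩
      have := b.2.1 _ w.1 q
      rw [e.inv u hu w.1] at this
      exact this.elim (fun t => l2 t.2) fun t => t (e.hH hu)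
    · have e1 : (H.filter fun u => clOf T u ∈ S ∩ R ∧ pt u ∉ T.biUnion id) =
          H.filter fun u => (clOf T u ∈ S ∧ pt u ∉ T.biUnion id) ∧ clOf T u ∈ R :=
        filter_congr fun u _ => by rw [mem_inter]; tauto
      have e2 : (H.filter fun u => clOf T u ∈ S \ R ∧ pt u ∉ T.biUnion id) =
          H.filter fun u => (clOf T u ∈ S ∧ pt u ∉ T.biUnion id) ∧ ¬ clOf T u ∈ R :=
        filter_congr fun u _ => by rw [mem_sdiff]; tauto
      rw [e1] at z
      rw [e2]
      omega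

theorem Hvy.two (h : MC G D) (hD : 8 ≤ D) {T : Finset (Finset V)} {H : Finset V} {pt : V → V}
    (e : HE G D T H pt) {S : Finset (Finset V)} (a : Hvy T H pt S) :
    S.card + 2 ≤ (H.filter fun u => clOf T u ∈ S ∧ pt u ∉ T.biUnion id).card := by
  have ce : ∀ K ∈ T, ∀ v ∈ K, clOf T v = K := fun K k v l => clOf_eq h hD e.hT k l
  have cw : ∀ v ∈ H, clOf T v ∈ T ∧ v ∈ clOf T v := fun v l => by
    obtain ⟨K, k1, k2⟩ := mem_biUnion.1 (e.hH l)
    rw [ce K k1 v k2]; exact ⟨k1, k2⟩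
  have k1 : (H.filter fun u => clOf T u ∈ S).card = 3 * S.card := by
    rw [card_eq_sum_card_fiberwise (s := H.filter fun u => clOf T u ∈ S) (f := clOf T) (t := S)
      fun u hu => (mem_filter.1 (mem_coe.1 hu)).2,
      sum_congr rfl (g := fun _ => 3) fun K k => ?_, sum_const, smul_eq_mul, mul_comm]
    rw [← e.h3 K (a.1 k)]
    congr 1
    ext u
    simp only [mem_filter, mem_inter]
    exact ⟨fun z => ⟨z.2 ▸ (cw u z.1.1).2, z.1.1⟩,
      fun z => ⟨⟨z.2, (ce K (a.1 k) u z.1).symm ▸ k⟩, ce K (a.1 k) u z.1⟩⟩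
  have k2 := card_filter_add_card_filter_not (s := H.filter fun u => clOf T u ∈ S)
    fun u => pt u ∉ T.biUnion id
  rw [filter_filter, filter_filter] at k2
  have n : ∀ u ∈ H.filter fun u => clOf T u ∈ S ∧ ¬ pt u ∉ T.biUnion id,
      pt u ∈ H ∧ clOf T (pt u) ∈ S := fun u hu => by
    obtain ⟨u1, u2, u3⟩ := mem_filter.1 hu
    exact (a.2.1 u u1 u2).resolve_right u3
  have k3 : ∑ _u ∈ H.filter fun u => clOf T u ∈ S ∧ ¬ pt u ∉ T.biUnion id, (1 : ZMod 2) = 0 :=
    sum_involution (fun u _ => pt u) (fun _ _ => by decide)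
      (fun u hu _ => (e.adj u (mem_filter.1 hu).1 (.inr (n u hu).1)).1.ne')
      (fun u hu => mem_filter.2 ⟨(n u hu).1, (n u hu).2, by
        rw [e.inv u (mem_filter.1 hu).1 (n u hu).1]
        exact not_not.2 (e.hH (mem_filter.1 hu).1)⟩)
      fun u hu => e.inv u (mem_filter.1 hu).1 (n u hu).1
  rw [sum_const, nsmul_eq_mul, mul_one, ZMod.natCast_eq_zero_iff] at k3
  have := a.2.2
  omega

/-- A colouring off the family without a bad set. -/
theorem reqs (h : MC G D) (hD : 8 ≤ D) {T : Finset (Finset V)} {H : Finset V} {pt : V → V}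
    (e : HE G D T H pt) : ∃ c, PCol G D c ∧ (∀ v, c v < D ↔ v ∉ T.biUnion id) ∧
      ∀ S γ, ¬ BAD T H pt c S γ := by
  have ce : ∀ K ∈ T, ∀ v ∈ K, clOf T v = K := fun K k v l => clOf_eq h hD e.hT k l
  have cw : ∀ v ∈ H, clOf T v ∈ T ∧ v ∈ clOf T v := fun v l => by
    obtain ⟨K, k1, k2⟩ := mem_biUnion.1 (e.hH l)
    rw [ce K k1 v k2]; exact ⟨k1, k2⟩
  obtain ⟨c, c1, c2, c3⟩ := col_sets h hD e.ne e.hT
    (univ.filter fun S => Minimal (Hvy T H pt) S)
    (fun S => H.filter fun u => clOf T u ∈ S ∧ pt u ∉ T.biUnion id) pt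
    (fun S _ u hu => by
      obtain ⟨u1, -, u3⟩ := mem_filter.1 hu
      exact ⟨e.hH u1, u3, (e.adj u u1 (.inl u3)).1⟩)
    (fun S k R l n => disjoint_left.2 fun u u1 u2 => by
      have k := (mem_filter.1 k).2
      have l := (mem_filter.1 l).2
      rcases Hvy.split e k.prop l.prop with z | z
      · exact n (l.eq_of_le k.prop ((k.le_of_le z inter_subset_left).trans inter_subset_right))
      · exact (mem_sdiff.1 (k.le_of_le z sdiff_subset (mem_filter.1 u1).2.1)).2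
          (mem_filter.1 u2).2.1)
    fun S k => by
      have k := (mem_filter.1 k).2.prop
      have k2 := Hvy.two h hD e k
      set O := H.filter fun u => clOf T u ∈ S ∧ pt u ∉ T.biUnion id with hO
      have m : ∀ s, (O.filter fun u => pt u = s).card ≤ S.card := fun s =>
        card_le_card_of_injOn (clOf T) (fun u hu => (mem_filter.1 (mem_filter.1 hu).1).2.1)
          fun u hu v hv z => by
            obtain ⟨u1, u2⟩ := mem_filter.1 hu
            obtain ⟨v1, v2⟩ := mem_filter.1 hv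
            obtain ⟨u1, -, u3⟩ := mem_filter.1 u1
            obtain ⟨v1, -, v3⟩ := mem_filter.1 v1
            obtain ⟨a1, a2⟩ := e.adj u u1 (.inl u3)
            exact rs8 h hD (e.hT _ (cw u u1).1).1 (e.hT _ (cw u u1).1).2 a2 (cw u u1).2
              (z ▸ (cw v v1).2) a1.symm (u2 ▸ v2 ▸ (e.adj v v1 (.inl v3)).1.symm)
      have k3 := card_eq_sum_card_image pt O
      by_cases z : 3 ≤ (O.image pt).card
      · exact .inl z
      by_cases z2 : (O.image pt).card = 2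
      · obtain ⟨s, t, n, q⟩ := card_eq_two.1 z2
        rw [q, sum_pair n] at k3
        have := m s
        have := m t
        exact .inr ⟨s, t, n, by omega, by omega⟩
      have := sum_le_card_nsmul (O.image pt) _ _ fun s _ => m s
      have := Nat.mul_le_mul_right S.card (show (O.image pt).card ≤ 1 by omega)
      rw [smul_eq_mul] at *
      omega
  refine ⟨c, c1, c2, fun S γ ⟨b1, _, b3, b4⟩ => ?_⟩
  have k : ∀ u ∈ H, clOf T u ∈ S → (pt u ∈ H ∧ clOf T (pt u) ∈ S) ∨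
      (pt u ∉ T.biUnion id ∧ c (pt u) = γ) := fun u hu l =>
    b3 _ l u (mem_inter.2 ⟨(cw u hu).2, hu⟩)
  obtain ⟨R, r1, r2⟩ := exists_minimal_le_of_wellFoundedLT (Hvy T H pt) S
    ⟨b1, fun u hu l => (k u hu l).imp_right And.left, b4⟩
  obtain ⟨u, u1, v, v1, n⟩ := c3 R (mem_filter.2 ⟨mem_univ _, r2⟩)
  have g : ∀ u ∈ H.filter fun u => clOf T u ∈ R ∧ pt u ∉ T.biUnion id, c (pt u) = γ :=
    fun u hu => by
      obtain ⟨u1, u2, u3⟩ := mem_filter.1 hu
      exact ((k u u1 (r1 u2)).resolve_left fun z => u3 (e.hH z.1)).2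
  exact n ((g u u1).trans (g v v1).symm)

end Pool.Agent.Lib.MP_12eaff_co.Frz.BK
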